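import Pool.Agent.Lib.MP_f3b2fd_co.KEP.B.Cv.G6
import Pool.Agent.Lib.MP_f3b2fd_co.KEP.B.Cv.G7
import Pool.Agent.Lib.MP_f3b2fd_co.KEP.B.D.Glue
import Pool.Agent.Lib.MP_f3b2fd_co.KEP.B.K.Kax0
import Pool.Agent.Lib.MP_f3b2fd_co.KEP.B.K.Kax1
import Pool.Agent.Lib.MP_f3b2fd_co.KEP.B.K.Kax2
import Pool.Agent.Lib.MP_f3b2fd_co.KEP.B.K.Kax3
import Pool.Agent.Lib.MP_f3b2fd_co.KEP.B.K.Kax4
import Pool.Agent.Lib.MP_f3b2fd_co.KEP.B.K.Kbx0
import Pool.Agent.Lib.MP_f3b2fd_co.KEP.B.K.Kbx1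
import Pool.Agent.Lib.MP_f3b2fd_co.KEP.B.K.Kbx2
import Pool.Agent.Lib.MP_f3b2fd_co.KEP.B.K.Kbx3
import Pool.Agent.Lib.MP_f3b2fd_co.KEP.B.K.Kbx4
import Pool.Agent.Lib.MP_f3b2fd_co.KEP.B.K.Kbx5
import Pool.Agent.Lib.MP_f3b2fd_co.KEP.B.K.Kbx6
import Pool.Agent.Lib.MP_f3b2fd_co.KEP.B.K.Kbx7
import Pool.Agent.Lib.MP_f3b2fd_co.KEP.B.K.Kbx8
import Pool.Agent.Lib.MP_f3b2fd_co.KEP.B.K.Kbx9
import Pool.Agent.Lib.MP_f3b2fd_co.KEP.B.K.Kcx0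
import Pool.Agent.Lib.MP_f3b2fd_co.KEP.B.K.Kcx1
import Pool.Agent.Lib.MP_f3b2fd_co.KEP.B.K.Kcx2
import Pool.Agent.Lib.MP_f3b2fd_co.KEP.B.K.Kcx3
import Pool.Agent.Lib.MP_f3b2fd_co.KEP.B.K.Kcx4
import Pool.Agent.Lib.MP_f3b2fd_co.KEP.B.K.Kcx5
import Pool.Agent.Lib.MP_f3b2fd_co.KEP.B.K.Kcx6
import Pool.Agent.Lib.MP_f3b2fd_co.KEP.B.K.Kcx7
import Pool.Agent.Lib.MP_f3b2fd_co.KEP.B.K.Kcx8
import Pool.Agent.Lib.MP_f3b2fd_co.KEP.B.K.Kcx9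
import Pool.Agent.Lib.MP_f3b2fd_co.KEP.B.K.Kcx10
import Pool.Agent.Lib.MP_f3b2fd_co.KEP.B.K.Kdx0
import Pool.Agent.Lib.MP_f3b2fd_co.KEP.B.K.Kdx1
import Pool.Agent.Lib.MP_f3b2fd_co.KEP.B.K.Kdx2
import Pool.Agent.Lib.MP_f3b2fd_co.KEP.B.K.Kdx3
import Pool.Agent.Lib.MP_f3b2fd_co.KEP.B.K.Kdx4
import Pool.Agent.Lib.MP_f3b2fd_co.KEP.B.K.Kdx5
import Pool.Agent.Lib.MP_f3b2fd_co.KEP.B.K.Kdx6
import Pool.Agent.Lib.MP_f3b2fd_co.KEP.B.K.Kdx7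
import Pool.Agent.Lib.MP_f3b2fd_co.KEP.B.K.Kdx8
import Pool.Agent.Lib.MP_f3b2fd_co.KEP.B.K.Kdx9
import Pool.Agent.Lib.MP_f3b2fd_co.KEP.B.K.Kdx10
import Pool.Agent.Lib.MP_f3b2fd_co.KEP.B.K.Kdx11
import Pool.Agent.Lib.MP_f3b2fd_co.KEP.B.K.Kdx12
import Pool.Agent.Lib.MP_f3b2fd_co.KEP.B.K.Kdx13
import Pool.Agent.Lib.MP_f3b2fd_co.KEP.B.K.Kwx0
import Pool.Agent.Lib.MP_f3b2fd_co.KEP.B.K.Kwx1
import Pool.Agent.Lib.MP_f3b2fd_co.KEP.B.K.Kwx2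
import Pool.Agent.Lib.MP_f3b2fd_co.KEP.B.K.Kwx3
import Pool.Agent.Lib.MP_f3b2fd_co.KEP.B.K.Kwx4
import Pool.Agent.Lib.MP_f3b2fd_co.KEP.B.K.Kwx5
import Pool.Agent.Lib.MP_f3b2fd_co.KEP.B.K.Kwx6
import Pool.Agent.Lib.MP_f3b2fd_co.KEP.B.K.Kwx7
import Pool.Agent.Lib.MP_f3b2fd_co.KEP.B.K.Kwx8
import Pool.Agent.Lib.MP_f3b2fd_co.KEP.B.K.Kwx9
import Pool.Agent.Lib.MP_f3b2fd_co.KEP.B.K.Kwx10
import Pool.Agent.Lib.MP_f3b2fd_co.KEP.B.K.Kwx11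
import Pool.Agent.Lib.MP_f3b2fd_co.KEP.B.K.Kzx0
import Pool.Agent.Lib.MP_f3b2fd_co.KEP.B.K.Kzx1
import Pool.Agent.Lib.MP_f3b2fd_co.KEP.B.K.Kzx2
import Pool.Agent.Lib.MP_f3b2fd_co.KEP.B.K.Kzx3
import Pool.Agent.Lib.MP_f3b2fd_co.KEP.B.K.Kzx4
import Pool.Agent.Lib.MP_f3b2fd_co.KEP.B.K.Kzx5

/-! The upper parts of the branching trees. -/

set_option autoImplicit false
set_option maxRecDepth 100000

noncomputable section

namespace Pool.Agent.Lib.MP_f3b2fd_co.KD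

def X1 : Tb Job := (.nd (.nd (.nd (.nd (.nd Kax0 (.nd Kax1 Kax2)) (.nd (.nd Kax3 Kax4) (.nd Kbx0 Kbx1))) (.nd (.nd Kbx2 (.nd Kbx3 Kbx4)) (.nd (.nd Kbx5 Kbx6) (.nd Kbx7 Kbx8)))) (.nd (.nd (.nd Kbx9 (.nd Kcx0 Kcx1)) (.nd (.nd Kcx2 Kcx3) (.nd Kcx4 Kcx5))) (.nd (.nd (.nd Kcx6 Kcx7) (.nd Kcx8 Kcx9)) (.nd (.nd Kcx10 Kdx0) (.nd Kdx1 Kdx2))))) (.nd (.nd (.nd (.nd Kdx3 (.nd Kdx4 Kdx5)) (.nd (.nd Kdx6 Kdx7) (.nd Kdx8 Kdx9))) (.nd (.nd Kdx10 (.nd Kdx11 Kdx12)) (.nd (.nd Kdx13 Kwx0) (.nd Kwx1 Kwx2)))) (.nd (.nd (.nd Kwx3 (.nd Kwx4 Kwx5)) (.nd (.nd Kwx6 Kwx7) (.nd Kwx8 Kwx9))) (.nd (.nd (.nd Kwx10 Kwx11) (.nd Kzx0 Kzx1)) (.nd (.nd Kzx2 Kzx3) (.nd Kzx4 Kzx5))))))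

theorem X1a (h : LeafS lfB) : X1.All RefJ :=
  (Tb.All.nd (Tb.All.nd (Tb.All.nd (Tb.All.nd (Tb.All.nd (Kax0a h) (Tb.All.nd (Kax1a h) (Kax2a h))) (Tb.All.nd (Tb.All.nd (Kax3a h) (Kax4a h)) (Tb.All.nd (Kbx0a h) (Kbx1a h)))) (Tb.All.nd (Tb.All.nd (Kbx2a h) (Tb.All.nd (Kbx3a h) (Kbx4a h))) (Tb.All.nd (Tb.All.nd (Kbx5a h) (Kbx6a h)) (Tb.All.nd (Kbx7a h) (Kbx8a h))))) (Tb.All.nd (Tb.All.nd (Tb.All.nd (Kbx9a h) (Tb.All.nd (Kcx0a h) (Kcx1a h))) (Tb.All.nd (Tb.All.nd (Kcx2a h) (Kcx3a h)) (Tb.All.nd (Kcx4a h) (Kcx5a h)))) (Tb.All.nd (Tb.All.nd (Tb.All.nd (Kcx6a h) (Kcx7a h)) (Tb.All.nd (Kcx8a h) (Kcx9a h))) (Tb.All.nd (Tb.All.nd (Kcx10a h) (Kdx0a h)) (Tb.All.nd (Kdx1a h) (Kdx2a h)))))) (Tb.All.nd (Tb.All.nd (Tb.All.nd (Tb.All.nd (Kdx3a h) (Tb.All.nd (Kdx4a h) (Kdx5a h))) (Tb.All.nd (Tb.All.nd (Kdx6a h) (Kdx7a h)) (Tb.All.nd (Kdx8a h) (Kdx9a h)))) (Tb.All.nd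 (Tb.All.nd (Kdx10a h) (Tb.All.nd (Kdx11a h) (Kdx12a h))) (Tb.All.nd (Tb.All.nd (Kdx13a h) (Kwx0a h)) (Tb.All.nd (Kwx1a h) (Kwx2a h))))) (Tb.All.nd (Tb.All.nd (Tb.All.nd (Kwx3a h) (Tb.All.nd (Kwx4a h) (Kwx5a h))) (Tb.All.nd (Tb.All.nd (Kwx6a h) (Kwx7a h)) (Tb.All.nd (Kwx8a h) (Kwx9a h)))) (Tb.All.nd (Tb.All.nd (Tb.All.nd (Kwx10a h) (Kwx11a h)) (Tb.All.nd (Kzx0a h) (Kzx1a h))) (Tb.All.nd (Tb.All.nd (Kzx2a h) (Kzx3a h)) (Tb.All.nd (Kzx4a h) (Kzx5a h)))))))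

def X2t0 : Tb Job := (.nd (.nd (.nd (.nd (.lf ⟨(nat_lit 0x210320430540650160761271872382483984a945a46a5ba67b6cb78c79c8ac9bca0002cdfd), (nat_lit 0), (nat_lit 0), (.nd (nat_lit 1877) (.nd (nat_lit 1843) (.nd (nat_lit 1945) (.lf (nat_lit 897)) (.lf (nat_lit 1921))) (.lf (nat_lit 3969))) (.lf (nat_lit 8065)))⟩) (.lf ⟨(nat_lit 0x210320430540650160761271872382483984a945a46a5ba67b6cb78c79c8ab9bc90002cdfd), (nat_lit 0), (nat_lit 0), (.nd (nat_lit 1996) (.nd (nat_lit 1877) (.lf (nat_lit 65)) (.lf (nat_lit 577))) (.lf (nat_lit 1601)))⟩)) (.nd (.lf ⟨(nat_lit 0x210320430540650160761271872382983493594a956a5ba67b68b7cb89c8ac9bca0002cdfd), (nat_lit 0), (nat_lit 0), (.nd (nat_lit 2884) (.lf (nat_lit 833)) (.lf (nat_lit 1857)))⟩) (.nd (.lf ⟨(nat_lit 0x210320430540650160761271872382983493594a956a5ba67b6cb78c79c8ac9bca0002cdfd), (nat_lit 0), (nat_lit 0), (.nd (nat_lit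 2372) (.nd (nat_lit 2235) (.nd (nat_lit 1809) (.lf (nat_lit 193)) (.lf (nat_lit 705))) (.lf (nat_lit 2753))) (.lf (nat_lit 6849)))⟩) (.lf ⟨(nat_lit 0x210320430540650160761271872382983493a945a46a5ba67b6cb78c79c8ac9bca0002cdfd), (nat_lit 0), (nat_lit 0), (.nd (nat_lit 1894) (.nd (nat_lit 1809) (.nd (nat_lit 1877) (.nd (nat_lit 1979) (.nd (nat_lit 1911) (.nd (nat_lit 1962) (.nd (nat_lit 1792) (.nd (nat_lit 1996) (.nd (nat_lit 2372) (.lf (nat_lit 449)) (.lf (nat_lit 961))) (.lf (nat_lit 3009))) (.lf (nat_lit 7105))) (.lf (nat_lit 1985))) (.lf (nat_lit 4033))) (.nd (nat_lit 4283) (.lf (nat_lit 33)) (.lf (nat_lit 1057)))) (.nd (nat_lit 3925) (.lf (nat_lit 3105)) (.lf (nat_lit 545)))) (.nd (nat_lit 3857) (.nd (nat_lit 1211) (.lf (nat_lit 1569)) (.lf (nat_lit 3617))) (.lf (nat_lit 7713)))) (.nd (nat_lit 3686) (.nd (nat_lit 1041) (.nd (nat_lit 1109) (.lf (nat_lit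 289)) (.lf (nat_lit 1313))) (.lf (nat_lit 5409))) (.nd (nat_lit 7526) (.lf (nat_lit 3361)) (.nd (nat_lit 4999) (.lf (nat_lit 801)) (.nd (nat_lit 5033) (.lf (nat_lit 4897)) (.lf (nat_lit 2849)))))))⟩)))) (.nd (.nd (.lf ⟨(nat_lit 0x210320430540650160761271872382983493a945a4ba56b57b68b7cb89c8ac9bca0002cdfd), (nat_lit 0), (nat_lit 0), (.nd (nat_lit 1809) (.nd (nat_lit 2508) (.lf (nat_lit 1825)) (.lf (nat_lit 3873))) (.lf (nat_lit 7969)))⟩) (.lf ⟨(nat_lit 0x210320430540650160761271872382983493a945a4ba56b57b6cb78c79c8ac9bca0002cdfd), (nat_lit 0), (nat_lit 0), (.nd (nat_lit 1894) (.nd (nat_lit 1826) (.nd (nat_lit 2833) (.nd (nat_lit 1911) (.nd (nat_lit 1792) (.nd (nat_lit 1843) (.nd (nat_lit 1877) (.nd (nat_lit 5136) (.nd (nat_lit 1928) (.nd (nat_lit 3424) (.lf (nat_lit 161)) (.lf (nat_lit 1185))) (.lf (nat_lit 3233))) (.nd (nat_lit 1860) (.nd (nat_lit 4128)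 (.nd (nat_lit 2184) (.nd (nat_lit 1962) (.lf (nat_lit 673)) (.lf (nat_lit 1697))) (.lf (nat_lit 5793))) (.nd (nat_lit 1979) (.nd (nat_lit 1928) (.nd (nat_lit 1962) (.nd (nat_lit 2713) (.lf (nat_lit 3745)) (.lf (nat_lit 417))) (.lf (nat_lit 1441))) (.lf (nat_lit 3489))) (.lf (nat_lit 929)))) (.nd (nat_lit 4210) (.lf (nat_lit 2977)) (.lf (nat_lit 1953))))) (.nd (nat_lit 4977) (.lf (nat_lit 4001)) (.nd (nat_lit 4743) (.lf (nat_lit 97)) (.lf (nat_lit 1121))))) (.nd (nat_lit 4977) (.lf (nat_lit 3169)) (.nd (nat_lit 5047) (.nd (nat_lit 3958) (.lf (nat_lit 7265)) (.lf (nat_lit 609))) (.nd (nat_lit 5251) (.lf (nat_lit 1633)) (.lf (nat_lit 3681)))))) (.nd (nat_lit 4721) (.lf (nat_lit 7777)) (.nd (nat_lit 4726) (.nd (nat_lit 4722) (.lf (nat_lit 353)) (.lf (nat_lit 1377))) (.lf (nat_lit 3425))))) (.nd (nat_lit 4624) (.lf (nat_lit 865)) (.nd (nat_lit 4448) (.nd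 (nat_lit 4640) (.lf (nat_lit 2913)) (.lf (nat_lit 1889))) (.nd (nat_lit 4128) (.lf (nat_lit 3937)) (.lf (nat_lit 225)))))) (.nd (nat_lit 4881) (.nd (nat_lit 5136) (.lf (nat_lit 2273)) (.nd (nat_lit 5489) (.lf (nat_lit 1249)) (.nd (nat_lit 4704) (.lf (nat_lit 3297)) (.lf (nat_lit 737))))) (.nd (nat_lit 4977) (.nd (nat_lit 5648) (.lf (nat_lit 4833)) (.nd (nat_lit 4192) (.nd (nat_lit 7953) (.lf (nat_lit 2785)) (.lf (nat_lit 1761))) (.lf (nat_lit 3809)))) (.nd (nat_lit 5392) (.nd (nat_lit 6513) (.lf (nat_lit 7905)) (.nd (nat_lit 7441) (.lf (nat_lit 481)) (.nd (nat_lit 3600) (.lf (nat_lit 1505)) (.nd (nat_lit 4466) (.lf (nat_lit 3553)) (.lf (nat_lit 993)))))) (.nd (nat_lit 6673) (.lf (nat_lit 3041)) (.nd (nat_lit 4960) (.nd (nat_lit 3936) (.lf (nat_lit 2017)) (.lf (nat_lit 4065))) (.nd (nat_lit 4640) (.lf (nat_lit 17)) (.nd (nat_lit 6257) (.lf (nat_lit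 2065)) (.lf (nat_lit 1041)))))))))) (.nd (nat_lit 3362) (.nd (nat_lit 4210) (.nd (nat_lit 4977) (.lf (nat_lit 3089)) (.nd (nat_lit 1297) (.nd (nat_lit 4982) (.nd (nat_lit 3958) (.lf (nat_lit 529)) (.lf (nat_lit 1553))) (.lf (nat_lit 3601))) (.lf (nat_lit 273)))) (.nd (nat_lit 2065) (.nd (nat_lit 3958) (.nd (nat_lit 4789) (.lf (nat_lit 1297)) (.lf (nat_lit 3345))) (.nd (nat_lit 4128) (.lf (nat_lit 785)) (.lf (nat_lit 2833)))) (.nd (nat_lit 5745) (.lf (nat_lit 1809)) (.lf (nat_lit 3857))))) (.nd (nat_lit 4642) (.nd (nat_lit 4192) (.lf (nat_lit 145)) (.lf (nat_lit 1169))) (.nd (nat_lit 4210) (.nd (nat_lit 6946) (.lf (nat_lit 3217)) (.nd (nat_lit 4721) (.lf (nat_lit 7313)) (.nd (nat_lit 5047) (.lf (nat_lit 657)) (.nd (nat_lit 3186) (.lf (nat_lit 2705)) (.lf (nat_lit 1681)))))) (.nd (nat_lit 6178) (.lf (nat_lit 3729)) (.nd (nat_lit 4214) (.lf (nat_lit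 7825)) (.nd (nat_lit 4791) (.lf (nat_lit 401)) (.lf (nat_lit 1425))))))))) (.nd (nat_lit 3430) (.nd (nat_lit 4466) (.nd (nat_lit 5233) (.lf (nat_lit 3473)) (.nd (nat_lit 1314) (.nd (nat_lit 1553) (.nd (nat_lit 4470) (.nd (nat_lit 1075) (.lf (nat_lit 913)) (.lf (nat_lit 2961))) (.lf (nat_lit 1937))) (.lf (nat_lit 3985))) (.lf (nat_lit 81)))) (.nd (nat_lit 4192) (.nd (nat_lit 2065) (.nd (nat_lit 4384) (.lf (nat_lit 1105)) (.lf (nat_lit 3153))) (.lf (nat_lit 593))) (.nd (nat_lit 1553) (.nd (nat_lit 3872) (.lf (nat_lit 1617)) (.lf (nat_lit 3665))) (.lf (nat_lit 337))))) (.nd (nat_lit 4710) (.nd (nat_lit 4210) (.lf (nat_lit 1361)) (.nd (nat_lit 4128) (.lf (nat_lit 3409)) (.lf (nat_lit 849)))) (.nd (nat_lit 4214) (.nd (nat_lit 6758) (.lf (nat_lit 1873)) (.nd (nat_lit 4721) (.lf (nat_lit 3921)) (.nd (nat_lit 4999) (.lf (nat_lit 209)) (.nd (nat_lit 3190)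 (.lf (nat_lit 1233)) (.lf (nat_lit 3281)))))) (.nd (nat_lit 3698) (.lf (nat_lit 721)) (.nd (nat_lit 6246) (.lf (nat_lit 2769)) (.nd (nat_lit 4487) (.lf (nat_lit 1745)) (.lf (nat_lit 3793)))))))))⟩)) (.nd (.lf ⟨(nat_lit 0x210320430540650160761271872382983493a945a4ba56b5cb67c68c79c8ac9bca0002cdfd), (nat_lit 0), (nat_lit 0), (.nd (nat_lit 1809) (.nd (nat_lit 2747) (.nd (nat_lit 2218) (.lf (nat_lit 465)) (.lf (nat_lit 1489))) (.lf (nat_lit 5585))) (.lf (nat_lit 3537)))⟩) (.nd (.lf ⟨(nat_lit 0x210320430540650160761271372873983493a945a4ba56b5cb67c68c7dc89d8ad9bdacdb00030efe), (nat_lit 0), (nat_lit 0), (.nd (nat_lit 4369) (.nd (nat_lit 5666) (.nd (nat_lit 2730) (.lf (nat_lit 1201)) (.lf (nat_lit 689))) (.nd (nat_lit 1911) (.lf (nat_lit 2737)) (.lf (nat_lit 1713)))) (.nd (nat_lit 3874) (.nd (nat_lit 1792) (.nd (nat_lit 1843) (.lf (nat_lit 3761)) (.lf (nat_lit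 433))) (.lf (nat_lit 1457))) (.lf (nat_lit 945))))⟩) (.lf ⟨(nat_lit 0x210320430540650160761271872382483984594a95ba56b5cb67c6dc78d79d8ad9bcacda00030efe), (nat_lit 0), (nat_lit 0), (.nd (nat_lit 3259) (.lf (nat_lit 3185)) (.lf (nat_lit 625)))⟩))))) (.nd (.nd (.nd (.lf ⟨(nat_lit 0x210320430540650160761271872382483984a945a46a5ba67b6cb78c79c8dc9ad9bdacdb00030efe), (nat_lit 0), (nat_lit 0), (.nd (nat_lit 2525) (.lf (nat_lit 2673)) (.lf (nat_lit 1649)))⟩) (.lf ⟨(nat_lit 0x210320430540650160761271872382483984a945a4ba56b5cb67c6dc78d79d8ad9bdacdb00030efe), (nat_lit 0), (nat_lit 0), (.nd (nat_lit 2201) (.nd (nat_lit 2065) (.lf (nat_lit 369)) (.lf (nat_lit 2417))) (.lf (nat_lit 1393)))⟩)) (.nd (.lf ⟨(nat_lit 0x210320430540650160761271872382483984a945a4ba56b5cb67c6dc78d79d8ad9bcacda00030efe), (nat_lit 0), (nat_lit 0), (.nd (nat_lit 2491) (.lf (nat_lit 3441)) (.lf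 (nat_lit 881)))⟩) (.nd (.lf ⟨(nat_lit 0x210320430540650160761271872382483984a945a4ba56b5cb67c6dc78d79d8ac9cd9bca00030efe), (nat_lit 0), (nat_lit 0), (.nd (nat_lit 3259) (.lf (nat_lit 2929)) (.lf (nat_lit 1905)))⟩) (.lf ⟨(nat_lit 0x210320430540650160761271872382983493594a956a5ba67b6cb78c7dc89d8ad9bdacdb00030efe), (nat_lit 0), (nat_lit 0), (.nd (nat_lit 2116) (.lf (nat_lit 241)) (.nd (nat_lit 2508) (.lf (nat_lit 2289)) (.lf (nat_lit 1265))))⟩)))) (.nd (.nd (.lf ⟨(nat_lit 0x210320430540650160761271872382983493594a95ba56b5cb67c68c7dc89d8ad9bdacdb00030efe), (nat_lit 0), (nat_lit 0), (.nd (nat_lit 2577) (.nd (nat_lit 1877) (.lf (nat_lit 3313)) (.lf (nat_lit 753))) (.lf (nat_lit 2801)))⟩) (.lf ⟨(nat_lit 0x210320430540650160761271872382983493594a95ba56b5cb67c6dc78d79d8ad9bcacda00030efe), (nat_lit 0), (nat_lit 0), (.nd (nat_lit 2491) (.nd (nat_lit 2116) (.lf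 (nat_lit 1777)) (.lf (nat_lit 3825))) (.nd (nat_lit 2321) (.lf (nat_lit 497)) (.lf (nat_lit 2545))))⟩)) (.nd (.lf ⟨(nat_lit 0x210320430540650160761271872382983493a945a46a5ba67b6cb78c79c8dc9ad9bdacdb00030efe), (nat_lit 0), (nat_lit 0), (.nd (nat_lit 2781) (.nd (nat_lit 2389) (.nd (nat_lit 1996) (.lf (nat_lit 1521)) (.lf (nat_lit 3569))) (.nd (nat_lit 2065) (.lf (nat_lit 1009)) (.lf (nat_lit 3057)))) (.nd (nat_lit 2645) (.nd (nat_lit 1809) (.nd (nat_lit 1911) (.lf (nat_lit 2033)) (.lf (nat_lit 4081))) (.nd (nat_lit 1996) (.lf (nat_lit 8177)) (.lf (nat_lit 9)))) (.lf (nat_lit 1033))))⟩) (.nd (.lf ⟨(nat_lit 0x210320430540650160761271872382983493a945a4ba56b57b6cb78c79c8dc9ad9bdacdb00030efe), (nat_lit 0), (nat_lit 0), (.nd (nat_lit 2577) (.nd (nat_lit 2781) (.nd (nat_lit 2423) (.lf (nat_lit 521)) (.lf (nat_lit 1545))) (.nd (nat_lit 2338) (.lf (nat_lit 265))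 (.lf (nat_lit 1289)))) (.nd (nat_lit 3037) (.nd (nat_lit 2218) (.nd (nat_lit 2508) (.lf (nat_lit 777)) (.lf (nat_lit 1801))) (.lf (nat_lit 137))) (.nd (nat_lit 5137) (.lf (nat_lit 1161)) (.lf (nat_lit 649)))))⟩) (.lf ⟨(nat_lit 0x210320430540650160761271872382983493a945a4ba56b57b6cb78c7dc89d8ad9bdacdb00030efe), (nat_lit 0), (nat_lit 0), (.nd (nat_lit 2321) (.nd (nat_lit 2508) (.nd (nat_lit 2781) (.nd (nat_lit 2679) (.lf (nat_lit 2697)) (.lf (nat_lit 1673))) (.lf (nat_lit 393))) (.nd (nat_lit 2423) (.nd (nat_lit 2013) (.nd (nat_lit 6860) (.lf (nat_lit 1417)) (.lf (nat_lit 905))) (.nd (nat_lit 1826) (.lf (nat_lit 1929)) (.lf (nat_lit 73)))) (.lf (nat_lit 1097)))) (.nd (nat_lit 2764) (.nd (nat_lit 2269) (.nd (nat_lit 1979) (.nd (nat_lit 1928) (.nd (nat_lit 1911) (.lf (nat_lit 585)) (.lf (nat_lit 1609))) (.lf (nat_lit 329))) (.nd (nat_lit 1928) (.lf (nat_lit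 1353)) (.lf (nat_lit 841)))) (.nd (nat_lit 5085) (.nd (nat_lit 1928) (.lf (nat_lit 1865)) (.lf (nat_lit 201))) (.lf (nat_lit 1225)))) (.nd (nat_lit 4881) (.nd (nat_lit 5836) (.nd (nat_lit 2013) (.lf (nat_lit 713)) (.lf (nat_lit 1737))) (.lf (nat_lit 457))) (.lf (nat_lit 1481)))))⟩))))))

def X2t1 : Tb Job := (.nd (.nd (.nd (.nd (.lf ⟨(nat_lit 0x210320430540650160761271872382983493a945a4ba56b5cb67c68c79c8dc9ad9bdacdb00030efe), (nat_lit 0), (nat_lit 0), (.nd (nat_lit 2577) (.nd (nat_lit 3037) (.nd (nat_lit 2252) (.lf (nat_lit 969)) (.lf (nat_lit 1993))) (.nd (nat_lit 1826) (.lf (nat_lit 4041)) (.lf (nat_lit 41)))) (.nd (nat_lit 2781) (.nd (nat_lit 1962) (.lf (nat_lit 1065)) (.lf (nat_lit 3113))) (.lf (nat_lit 553))))⟩) (.lf ⟨(nat_lit 0x210320430540650160761271872382983493a945a4ba56b5cb67c68c7dc89d8ad9bdacdb00030efe), (nat_lit 0), (nat_lit 0), (.nd (nat_lit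 2833) (.nd (nat_lit 1911) (.nd (nat_lit 2150) (.nd (nat_lit 2099) (.nd (nat_lit 1826) (.nd (nat_lit 2304) (.nd (nat_lit 2764) (.nd (nat_lit 2474) (.lf (nat_lit 2601)) (.lf (nat_lit 1577))) (.lf (nat_lit 3625))) (.nd (nat_lit 1928) (.lf (nat_lit 297)) (.lf (nat_lit 2345)))) (.nd (nat_lit 2048) (.nd (nat_lit 2269) (.nd (nat_lit 2645) (.lf (nat_lit 1321)) (.lf (nat_lit 3369))) (.lf (nat_lit 809))) (.nd (nat_lit 2508) (.lf (nat_lit 2857)) (.lf (nat_lit 1833))))) (.nd (nat_lit 2252) (.nd (nat_lit 2048) (.nd (nat_lit 4915) (.lf (nat_lit 3881)) (.lf (nat_lit 169))) (.lf (nat_lit 1193))) (.nd (nat_lit 1928) (.nd (nat_lit 1792) (.lf (nat_lit 3241)) (.lf (nat_lit 681))) (.lf (nat_lit 2729))))) (.nd (nat_lit 2304) (.nd (nat_lit 4710) (.nd (nat_lit 2730) (.nd (nat_lit 2508) (.lf (nat_lit 1705)) (.lf (nat_lit 3753))) (.lf (nat_lit 425))) (.nd (nat_lit 1928) (.lf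 (nat_lit 2473)) (.lf (nat_lit 1449)))) (.nd (nat_lit 4454) (.nd (nat_lit 1826) (.lf (nat_lit 3497)) (.lf (nat_lit 937))) (.lf (nat_lit 5033))))) (.nd (nat_lit 1826) (.nd (nat_lit 2406) (.nd (nat_lit 2048) (.nd (nat_lit 2730) (.nd (nat_lit 2611) (.nd (nat_lit 2389) (.lf (nat_lit 2985)) (.lf (nat_lit 1961))) (.lf (nat_lit 4009))) (.lf (nat_lit 105))) (.nd (nat_lit 1928) (.nd (nat_lit 2355) (.lf (nat_lit 1129)) (.lf (nat_lit 3177))) (.lf (nat_lit 7273)))) (.nd (nat_lit 2304) (.nd (nat_lit 1928) (.nd (nat_lit 4966) (.lf (nat_lit 617)) (.lf (nat_lit 2665))) (.lf (nat_lit 1641))) (.lf (nat_lit 3689)))) (.nd (nat_lit 2150) (.nd (nat_lit 2304) (.nd (nat_lit 1877) (.nd (nat_lit 2218) (.nd (nat_lit 4642) (.lf (nat_lit 361)) (.lf (nat_lit 1385))) (.lf (nat_lit 3433))) (.nd (nat_lit 3925) (.lf (nat_lit 873)) (.lf (nat_lit 2921)))) (.lf (nat_lit 1897))) (.nd (nat_lit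 4454) (.lf (nat_lit 3945)) (.lf (nat_lit 233)))))) (.nd (nat_lit 1826) (.nd (nat_lit 1911) (.nd (nat_lit 6161) (.nd (nat_lit 1894) (.nd (nat_lit 2099) (.nd (nat_lit 2252) (.lf (nat_lit 1257)) (.lf (nat_lit 3305))) (.nd (nat_lit 5427) (.lf (nat_lit 745)) (.lf (nat_lit 2793)))) (.nd (nat_lit 2252) (.nd (nat_lit 1928) (.lf (nat_lit 1769)) (.lf (nat_lit 3817))) (.lf (nat_lit 489)))) (.nd (nat_lit 1843) (.nd (nat_lit 1928) (.nd (nat_lit 2508) (.nd (nat_lit 2013) (.lf (nat_lit 1513)) (.lf (nat_lit 3561))) (.lf (nat_lit 1001))) (.lf (nat_lit 3049))) (.nd (nat_lit 1928) (.nd (nat_lit 1996) (.nd (nat_lit 3379) (.lf (nat_lit 2025)) (.lf (nat_lit 4073))) (.lf (nat_lit 8169))) (.lf (nat_lit 16361))))) (.nd (nat_lit 5393) (.nd (nat_lit 1928) (.nd (nat_lit 3447) (.nd (nat_lit 2099) (.nd (nat_lit 1996) (.lf (nat_lit 25)) (.lf (nat_lit 1049))) (.lf (nat_lit 3097)))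 (.lf (nat_lit 537))) (.lf (nat_lit 1561))) (.nd (nat_lit 1928) (.nd (nat_lit 3447) (.nd (nat_lit 1843) (.nd (nat_lit 1792) (.nd (nat_lit 1996) (.lf (nat_lit 3609)) (.lf (nat_lit 281))) (.lf (nat_lit 2329))) (.lf (nat_lit 6425))) (.lf (nat_lit 1305))) (.lf (nat_lit 5401))))) (.nd (nat_lit 1911) (.nd (nat_lit 5649) (.nd (nat_lit 1928) (.nd (nat_lit 3362) (.nd (nat_lit 1792) (.nd (nat_lit 2252) (.lf (nat_lit 3353)) (.lf (nat_lit 793))) (.lf (nat_lit 4889))) (.nd (nat_lit 1996) (.lf (nat_lit 2841)) (.lf (nat_lit 1817)))) (.nd (nat_lit 1894) (.lf (nat_lit 3865)) (.lf (nat_lit 153)))) (.nd (nat_lit 1928) (.nd (nat_lit 3362) (.nd (nat_lit 1996) (.nd (nat_lit 1843) (.lf (nat_lit 1177)) (.lf (nat_lit 3225))) (.lf (nat_lit 7321))) (.lf (nat_lit 15513))) (.lf (nat_lit 665)))) (.nd (nat_lit 5137) (.nd (nat_lit 3362) (.lf (nat_lit 2713)) (.lf (nat_lit 1689)))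 (.lf (nat_lit 5785))))))⟩)) (.nd (.lf ⟨(nat_lit 0x210320430540650160761271872382983493a945a4ba56b5cb67c68c7dc89d8ab9bd9cdb00030efe), (nat_lit 0), (nat_lit 0), (.nd (nat_lit 2321) (.nd (nat_lit 2474) (.lf (nat_lit 3737)) (.lf (nat_lit 409))) (.nd (nat_lit 2218) (.nd (nat_lit 5137) (.lf (nat_lit 1433)) (.lf (nat_lit 3481))) (.lf (nat_lit 921))))⟩) (.nd (.lf ⟨(nat_lit 0x210320430540650160761271872382983493a945a4ba56b5cb67c6dc78d79d8ad9bdacdb00030efe), (nat_lit 0), (nat_lit 0), (.nd (nat_lit 2764) (.nd (nat_lit 1809) (.nd (nat_lit 2013) (.nd (nat_lit 2491) (.nd (nat_lit 1792) (.nd (nat_lit 2082) (.lf (nat_lit 2969)) (.lf (nat_lit 1945))) (.nd (nat_lit 2355) (.lf (nat_lit 3993)) (.lf (nat_lit 89)))) (.nd (nat_lit 1826) (.nd (nat_lit 2099) (.lf (nat_lit 1113)) (.lf (nat_lit 3161))) (.nd (nat_lit 1792) (.lf (nat_lit 601)) (.lf (nat_lit 2649))))) (.nd (nat_lit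 1979) (.nd (nat_lit 2048) (.nd (nat_lit 2355) (.nd (nat_lit 2133) (.lf (nat_lit 6745)) (.lf (nat_lit 1625))) (.lf (nat_lit 5721))) (.lf (nat_lit 3673))) (.nd (nat_lit 1792) (.nd (nat_lit 2338) (.lf (nat_lit 345)) (.lf (nat_lit 1369))) (.nd (nat_lit 1826) (.lf (nat_lit 3417)) (.lf (nat_lit 857)))))) (.nd (nat_lit 1979) (.nd (nat_lit 2013) (.nd (nat_lit 2474) (.nd (nat_lit 1826) (.nd (nat_lit 4369) (.lf (nat_lit 4953)) (.lf (nat_lit 2905))) (.nd (nat_lit 5666) (.nd (nat_lit 3857) (.lf (nat_lit 1881)) (.lf (nat_lit 3929))) (.lf (nat_lit 8025)))) (.nd (nat_lit 1826) (.lf (nat_lit 217)) (.lf (nat_lit 1241)))) (.nd (nat_lit 1826) (.nd (nat_lit 4369) (.nd (nat_lit 1792) (.lf (nat_lit 3289)) (.lf (nat_lit 729))) (.lf (nat_lit 2777))) (.nd (nat_lit 4130) (.lf (nat_lit 1753)) (.lf (nat_lit 3801))))) (.nd (nat_lit 1826) (.nd (nat_lit 4113) (.nd (nat_lit 1792)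 (.nd (nat_lit 2013) (.lf (nat_lit 7897)) (.lf (nat_lit 473))) (.lf (nat_lit 2521))) (.nd (nat_lit 2013) (.lf (nat_lit 1497)) (.lf (nat_lit 3545)))) (.nd (nat_lit 2013) (.nd (nat_lit 4113) (.lf (nat_lit 985)) (.lf (nat_lit 3033))) (.lf (nat_lit 7129)))))) (.nd (nat_lit 2833) (.nd (nat_lit 1826) (.nd (nat_lit 1792) (.nd (nat_lit 1894) (.nd (nat_lit 2099) (.nd (nat_lit 3754) (.lf (nat_lit 2009)) (.lf (nat_lit 4057))) (.lf (nat_lit 57))) (.nd (nat_lit 5324) (.lf (nat_lit 1081)) (.lf (nat_lit 3129)))) (.nd (nat_lit 1979) (.nd (nat_lit 5580) (.nd (nat_lit 2013) (.lf (nat_lit 569)) (.lf (nat_lit 2617))) (.lf (nat_lit 1593))) (.lf (nat_lit 3641)))) (.nd (nat_lit 1792) (.nd (nat_lit 1979) (.nd (nat_lit 3618) (.nd (nat_lit 2474) (.lf (nat_lit 313)) (.lf (nat_lit 2361))) (.lf (nat_lit 6457))) (.lf (nat_lit 1337))) (.lf (nat_lit 3385)))) (.nd (nat_lit 5836) (.nd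 (nat_lit 1979) (.nd (nat_lit 5649) (.lf (nat_lit 825)) (.lf (nat_lit 2873))) (.lf (nat_lit 6969))) (.lf (nat_lit 1849)))))⟩) (.lf ⟨(nat_lit 0x210320430540650160761271872382983493a945a4ba5cb56c57c68c7dc89d8ad9bdacdb00030efe), (nat_lit 0), (nat_lit 0), (.nd (nat_lit 2577) (.lf (nat_lit 3897)) (.nd (nat_lit 1979) (.lf (nat_lit 185)) (.lf (nat_lit 1209))))⟩)))) (.nd (.nd (.lf ⟨(nat_lit 0x210320430540650160761271872382983493a945a4ba5cb56c57c6dc78d79d8ad9bdacdb00030efe), (nat_lit 0), (nat_lit 0), (.nd (nat_lit 2321) (.nd (nat_lit 2235) (.nd (nat_lit 2269) (.lf (nat_lit 3257)) (.lf (nat_lit 697))) (.nd (nat_lit 2082) (.lf (nat_lit 2745)) (.lf (nat_lit 1721)))) (.nd (nat_lit 2491) (.nd (nat_lit 2252) (.lf (nat_lit 3769)) (.lf (nat_lit 441))) (.nd (nat_lit 1962) (.lf (nat_lit 2489)) (.lf (nat_lit 1465)))))⟩) (.lf ⟨(nat_lit 0x210320430540650160761271872382983493a945a4ba5cb56c57c6dc78d79a8ad8bdacdb00030efe),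 (nat_lit 0), (nat_lit 0), (.nd (nat_lit 2713) (.lf (nat_lit 3513)) (.lf (nat_lit 953)))⟩)) (.nd (.lf ⟨(nat_lit 0x210320430540650160761271872382983493a94ba45b46b5cb67c68c7dc89d8ad9bdacdb00030efe), (nat_lit 0), (nat_lit 0), (.nd (nat_lit 2986) (.nd (nat_lit 2833) (.nd (nat_lit 2235) (.lf (nat_lit 3001)) (.lf (nat_lit 1977))) (.nd (nat_lit 1945) (.nd (nat_lit 1979) (.lf (nat_lit 4025)) (.lf (nat_lit 121))) (.lf (nat_lit 2169)))) (.nd (nat_lit 2833) (.nd (nat_lit 1911) (.lf (nat_lit 1145)) (.lf (nat_lit 3193))) (.lf (nat_lit 633))))⟩) (.nd (.lf ⟨(nat_lit 0x210320430540650160761271872382983493a94ba45b46b5cb67c6dc78d79d8ad9bdacdb00030efe), (nat_lit 0), (nat_lit 0), (.nd (nat_lit 2218) (.nd (nat_lit 2201) (.nd (nat_lit 1809) (.nd (nat_lit 1826) (.lf (nat_lit 2681)) (.lf (nat_lit 1657))) (.nd (nat_lit 1826) (.nd (nat_lit 5393) (.lf (nat_lit 3705)) (.lf (nat_lit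 377))) (.nd (nat_lit 1979) (.lf (nat_lit 2425)) (.lf (nat_lit 1401))))) (.nd (nat_lit 1809) (.lf (nat_lit 3449)) (.nd (nat_lit 4761) (.lf (nat_lit 889)) (.lf (nat_lit 2937))))) (.nd (nat_lit 1809) (.nd (nat_lit 1826) (.nd (nat_lit 1945) (.nd (nat_lit 6826) (.lf (nat_lit 1913)) (.lf (nat_lit 3961))) (.lf (nat_lit 249))) (.nd (nat_lit 1792) (.lf (nat_lit 2297)) (.lf (nat_lit 1273)))) (.nd (nat_lit 4266) (.nd (nat_lit 1945) (.lf (nat_lit 3321)) (.lf (nat_lit 761))) (.lf (nat_lit 2809)))))⟩) (.lf ⟨(nat_lit 0x210320430540650160761271872382983493a94ba45b46b5cb67c6dc78d79a8ad8bdacdb00030efe), (nat_lit 0), (nat_lit 0), (.nd (nat_lit 2201) (.nd (nat_lit 1809) (.lf (nat_lit 1785)) (.lf (nat_lit 3833))) (.nd (nat_lit 4249) (.nd (nat_lit 1809) (.lf (nat_lit 505)) (.lf (nat_lit 2553))) (.nd (nat_lit 1996) (.lf (nat_lit 1529)) (.lf (nat_lit 3577)))))⟩))))) (.nd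 (.nd (.nd (.lf ⟨(nat_lit 0x210320430540650160761271872382983493a94ba45b46b5cb67c6dc78d79a8ad8bcacda00030efe), (nat_lit 0), (nat_lit 0), (.nd (nat_lit 1877) (.nd (nat_lit 1945) (.nd (nat_lit 1911) (.lf (nat_lit 1017)) (.nd (nat_lit 1826) (.lf (nat_lit 3065)) (.lf (nat_lit 2041)))) (.nd (nat_lit 2013) (.nd (nat_lit 1894) (.lf (nat_lit 4089)) (.lf (nat_lit 5))) (.nd (nat_lit 1860) (.lf (nat_lit 517)) (.lf (nat_lit 1541))))) (.nd (nat_lit 1809) (.nd (nat_lit 2013) (.nd (nat_lit 1860) (.lf (nat_lit 261)) (.lf (nat_lit 773))) (.lf (nat_lit 1797))) (.nd (nat_lit 1945) (.nd (nat_lit 1860) (.lf (nat_lit 133)) (.lf (nat_lit 645))) (.lf (nat_lit 1669)))))⟩) (.lf ⟨(nat_lit 0x210320430540650160761271872382983493a94ba45b4cb56c57c6dc78d79d8ad9bdacdb00030efe), (nat_lit 0), (nat_lit 0), (.nd (nat_lit 2218) (.nd (nat_lit 2321) (.lf (nat_lit 1413)) (.lf (nat_lit 901)))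 (.nd (nat_lit 2577) (.nd (nat_lit 4522) (.lf (nat_lit 1925)) (.lf (nat_lit 69))) (.lf (nat_lit 581))))⟩)) (.nd (.lf ⟨(nat_lit 0x210320430540650160761271872382983493a94ba45b4cb56c5dc67d68a7ad79a8bdacdb00030efe), (nat_lit 0), (nat_lit 0), (.nd (nat_lit 3532) (.lf (nat_lit 1605)) (.lf (nat_lit 325)))⟩) (.nd (.lf ⟨(nat_lit 0x210320430540650160761271872982392493a94ba45b46b5cb67c6dc78d79d8ad9bdacdb00030efe), (nat_lit 0), (nat_lit 0), (.nd (nat_lit 3345) (.nd (nat_lit 3362) (.nd (nat_lit 3430) (.nd (nat_lit 3464) (.nd (nat_lit 3549) (.nd (nat_lit 3532) (.lf (nat_lit 1861)) (.lf (nat_lit 197))) (.lf (nat_lit 1221))) (.lf (nat_lit 709))) (.lf (nat_lit 1733))) (.nd (nat_lit 3328) (.lf (nat_lit 453)) (.lf (nat_lit 1477)))) (.nd (nat_lit 3532) (.nd (nat_lit 3515) (.lf (nat_lit 965)) (.lf (nat_lit 1989))) (.lf (nat_lit 6085))))⟩) (.lf ⟨(nat_lit 0x210320430540650160761271872382483984a945a4ba56b5cb67c6dc78d79d8ed9ae9beacebdec00034fff),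 (nat_lit 0), (nat_lit 0), (.nd (nat_lit 3345) (.nd (nat_lit 3379) (.lf (nat_lit 229)) (.lf (nat_lit 1253))) (.nd (nat_lit 3891) (.lf (nat_lit 3301)) (.lf (nat_lit 741))))⟩)))) (.nd (.nd (.lf ⟨(nat_lit 0x210320430540650160761271872382983493594a95ba56b5cb67c6dc78d7ed89e8ae9beacebdec00034fff), (nat_lit 0), (nat_lit 0), (.nd (nat_lit 3345) (.lf (nat_lit 997)) (.lf (nat_lit 3045)))⟩) (.lf ⟨(nat_lit 0x210320430540650160761271872382983493594a95ba56b5cb67c6dc78d7ed89e8ae9bcaceadec00034fff), (nat_lit 0), (nat_lit 0), (.nd (nat_lit 3515) (.lf (nat_lit 4069)) (.lf (nat_lit 21)))⟩)) (.nd (.lf ⟨(nat_lit 0x210320430540650160761271872382983493a945a46a5ba67b6cb78c7dc89d8ed9ae9beacebdec00034fff), (nat_lit 0), (nat_lit 0), (.nd (nat_lit 3549) (.lf (nat_lit 1045)) (.lf (nat_lit 3093)))⟩) (.nd (.lf ⟨(nat_lit 0x210320430540650160761271872382983493a945a4ba56b57b6cb78c7dc89d8ad9edabeacebdec00034fff),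 (nat_lit 0), (nat_lit 0), (.nd (nat_lit 3566) (.nd (nat_lit 3345) (.lf (nat_lit 533)) (.lf (nat_lit 2581))) (.nd (nat_lit 3345) (.lf (nat_lit 1557)) (.lf (nat_lit 3605))))⟩) (.lf ⟨(nat_lit 0x210320430540650160761271872382983493a945a4ba56b5cb67c68c7dc89d8ed9ae9beacebdec00034fff), (nat_lit 0), (nat_lit 0), (.nd (nat_lit 3345) (.nd (nat_lit 3430) (.lf (nat_lit 277)) (.lf (nat_lit 2325))) (.nd (nat_lit 3549) (.lf (nat_lit 1301)) (.lf (nat_lit 3349))))⟩))))))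

def X2t2 : Tb Job := (.nd (.nd (.nd (.nd (.lf ⟨(nat_lit 0x210320430540650160761271872382983493a945a4ba56b5cb67c68c7dc89d8ed9ae9beacdbdeb00034fff), (nat_lit 0), (nat_lit 0), (.nd (nat_lit 3566) (.lf (nat_lit 789)) (.lf (nat_lit 2837)))⟩) (.lf ⟨(nat_lit 0x210320430540650160761271872382983493a945a4ba56b5cb67c6dc78d79d8ed9ae9beacebdec00034fff), (nat_lit 0), (nat_lit 0), (.nd (nat_lit 3345) (.nd (nat_lit 3430) (.nd (nat_lit 3328) (.nd (nat_lit 3447) (.nd (nat_lit 3362) (.nd (nat_lit 3515) (.lf (nat_lit 1813)) (.lf (nat_lit 3861))) (.nd (nat_lit 3566) (.lf (nat_lit 149)) (.lf (nat_lit 1173)))) (.nd (nat_lit 3362) (.lf (nat_lit 3221)) (.lf (nat_lit 661)))) (.nd (nat_lit 3447) (.nd (nat_lit 3362) (.lf (nat_lit 2709)) (.lf (nat_lit 1685))) (.lf (nat_lit 5781)))) (.nd (nat_lit 3362) (.nd (nat_lit 3447) (.nd (nat_lit 3549) (.lf (nat_lit 3733)) (.lf (nat_lit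 405))) (.lf (nat_lit 2453))) (.nd (nat_lit 6434) (.lf (nat_lit 1429)) (.lf (nat_lit 3477))))) (.nd (nat_lit 3362) (.nd (nat_lit 3464) (.nd (nat_lit 3549) (.nd (nat_lit 3328) (.nd (nat_lit 3396) (.nd (nat_lit 3447) (.nd (nat_lit 3379) (.lf (nat_lit 917)) (.lf (nat_lit 2965))) (.lf (nat_lit 1941))) (.nd (nat_lit 3566) (.lf (nat_lit 3989)) (.lf (nat_lit 85)))) (.lf (nat_lit 1109))) (.nd (nat_lit 3379) (.nd (nat_lit 3396) (.nd (nat_lit 3498) (.lf (nat_lit 3157)) (.lf (nat_lit 597))) (.lf (nat_lit 4693))) (.lf (nat_lit 2645)))) (.nd (nat_lit 3379) (.nd (nat_lit 3481) (.nd (nat_lit 3498) (.lf (nat_lit 1621)) (.lf (nat_lit 3669))) (.lf (nat_lit 7765))) (.lf (nat_lit 341)))) (.nd (nat_lit 7458) (.nd (nat_lit 3549) (.nd (nat_lit 3464) (.nd (nat_lit 3379) (.lf (nat_lit 2389)) (.lf (nat_lit 1365))) (.lf (nat_lit 5461))) (.lf (nat_lit 3413))) (.nd (nat_lit 3549)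 (.lf (nat_lit 853)) (.lf (nat_lit 2901))))))⟩)) (.nd (.lf ⟨(nat_lit 0x210320430540650160761271872382983493a945a4ba56b5cb67c6dc78d79d8ed9ae9beacdbdeb00034fff), (nat_lit 0), (nat_lit 0), (.nd (nat_lit 3345) (.nd (nat_lit 3447) (.nd (nat_lit 3566) (.lf (nat_lit 6997)) (.lf (nat_lit 1877))) (.lf (nat_lit 3925))) (.nd (nat_lit 3566) (.lf (nat_lit 213)) (.lf (nat_lit 1237))))⟩) (.nd (.lf ⟨(nat_lit 0x210320430540650160761271872382983493a945a4ba56b5cb67c6dc78d79d8ed9ae9bcaceadec00034fff), (nat_lit 0), (nat_lit 0), (.nd (nat_lit 3345) (.lf (nat_lit 3285)) (.nd (nat_lit 3515) (.lf (nat_lit 725)) (.lf (nat_lit 2773))))⟩) (.lf ⟨(nat_lit 0x210320430540650160761271872382983493a945a4ba56b5cb67c6dc78d7ed89e8ae9beacebdec00034fff), (nat_lit 0), (nat_lit 0), (.nd (nat_lit 3549) (.nd (nat_lit 3345) (.nd (nat_lit 3447) (.nd (nat_lit 3532) (.lf (nat_lit 1749)) (.lf (nat_lit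 3797))) (.lf (nat_lit 469))) (.nd (nat_lit 3566) (.nd (nat_lit 3464) (.lf (nat_lit 2517)) (.lf (nat_lit 1493))) (.lf (nat_lit 5589)))) (.nd (nat_lit 3345) (.nd (nat_lit 3328) (.nd (nat_lit 3430) (.lf (nat_lit 3541)) (.lf (nat_lit 981))) (.lf (nat_lit 5077))) (.nd (nat_lit 3532) (.nd (nat_lit 3515) (.nd (nat_lit 3498) (.lf (nat_lit 3029)) (.lf (nat_lit 2005))) (.lf (nat_lit 6101))) (.lf (nat_lit 4053)))))⟩)))) (.nd (.nd (.lf ⟨(nat_lit 0x210320430540650160761271872382983493a945a4ba56b5cb67c6dc78d7ed89e8ae9beacdbdeb00034fff), (nat_lit 0), (nat_lit 0), (.nd (nat_lit 3345) (.nd (nat_lit 3430) (.nd (nat_lit 3532) (.nd (nat_lit 3549) (.nd (nat_lit 3362) (.lf (nat_lit 53)) (.lf (nat_lit 1077))) (.lf (nat_lit 3125))) (.nd (nat_lit 3328) (.lf (nat_lit 565)) (.lf (nat_lit 2613)))) (.nd (nat_lit 3328) (.nd (nat_lit 3515) (.lf (nat_lit 1589)) (.lf (nat_lit 3637)))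 (.lf (nat_lit 7733)))) (.nd (nat_lit 3532) (.nd (nat_lit 3549) (.nd (nat_lit 3515) (.lf (nat_lit 309)) (.lf (nat_lit 2357))) (.lf (nat_lit 6453))) (.nd (nat_lit 3549) (.nd (nat_lit 3464) (.lf (nat_lit 1333)) (.lf (nat_lit 3381))) (.lf (nat_lit 7477)))))⟩) (.lf ⟨(nat_lit 0x210320430540650160761271872382983493a945a4ba56b5cb67c6dc78d7ed89e8ae9bcaceadec00034fff), (nat_lit 0), (nat_lit 0), (.nd (nat_lit 3549) (.nd (nat_lit 3532) (.lf (nat_lit 821)) (.lf (nat_lit 2869))) (.nd (nat_lit 3345) (.lf (nat_lit 1845)) (.lf (nat_lit 3893))))⟩)) (.nd (.lf ⟨(nat_lit 0x210320430540650160761271872382983493a945a4ba56b5cb67c6dc78d7ed89e8ab9be9cebdec00034fff), (nat_lit 0), (nat_lit 0), (.nd (nat_lit 3549) (.lf (nat_lit 181)) (.lf (nat_lit 1205)))⟩) (.nd (.lf ⟨(nat_lit 0x210320430540650160761271872382983493a945a4ba5cb56c57c6dc78d79d8ed9ae9beacebdec00034fff), (nat_lit 0),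 (nat_lit 0), (.nd (nat_lit 3345) (.lf (nat_lit 3253)) (.lf (nat_lit 693)))⟩) (.lf ⟨(nat_lit 0x210320430540650160761271872382983493a945a4ba5cb56c57c6dc78d7ed89e8ae9beacebdec00034fff), (nat_lit 0), (nat_lit 0), (.nd (nat_lit 3345) (.lf (nat_lit 2741)) (.nd (nat_lit 3515) (.lf (nat_lit 1717)) (.lf (nat_lit 3765))))⟩))))) (.nd (.nd (.nd (.lf ⟨(nat_lit 0x210320430540650160761271872382983493a945a4ba5cb56c57c6dc78d7ed89e8ae9beacdbdeb00034fff), (nat_lit 0), (nat_lit 0), (.nd (nat_lit 3345) (.nd (nat_lit 3328) (.nd (nat_lit 3362) (.nd (nat_lit 3430) (.lf (nat_lit 437)) (.lf (nat_lit 2485))) (.lf (nat_lit 1461))) (.lf (nat_lit 3509))) (.nd (nat_lit 3430) (.nd (nat_lit 3413) (.nd (nat_lit 3362) (.nd (nat_lit 3464) (.nd (nat_lit 3515) (.lf (nat_lit 949)) (.lf (nat_lit 2997))) (.lf (nat_lit 7093))) (.lf (nat_lit 1973))) (.lf (nat_lit 4021))) (.nd (nat_lit 3362)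 (.lf (nat_lit 117)) (.lf (nat_lit 1141)))))⟩) (.lf ⟨(nat_lit 0x210320430540650160761271872382983493a945a4ba5cb56c57c6dc78d7ed89e8ae9bdadeacdb00034fff), (nat_lit 0), (nat_lit 0), (.nd (nat_lit 3345) (.lf (nat_lit 5237)) (.lf (nat_lit 3189)))⟩)) (.nd (.lf ⟨(nat_lit 0x210320430540650160761271872382983493a945a4ba5cb56c57c6dc78d7ed89e8ab9be9cebdec00034fff), (nat_lit 0), (nat_lit 0), (.nd (nat_lit 3498) (.lf (nat_lit 629)) (.lf (nat_lit 2677)))⟩) (.nd (.lf ⟨(nat_lit 0x210320430540650160761271872382983493a945a4ba5cb56c57c6dc78d7ed89e8ab9be9cdbdeb00034fff), (nat_lit 0), (nat_lit 0), (.nd (nat_lit 3345) (.lf (nat_lit 1653)) (.lf (nat_lit 3701)))⟩) (.lf ⟨(nat_lit 0x210320430540650160761271872382983493a945a4ba5cb56c5dc67d68d7ed89e8ae9beacebdec00034fff), (nat_lit 0), (nat_lit 0), (.nd (nat_lit 3345) (.lf (nat_lit 1397)) (.lf (nat_lit 3445)))⟩)))) (.nd (.nd (.lf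 ⟨(nat_lit 0x210320430540650160761271872382983493a945a4ba5cb56c5dc67d68d7ed89e8ae9beacdbdeb00034fff), (nat_lit 0), (nat_lit 0), (.nd (nat_lit 3345) (.nd (nat_lit 3430) (.lf (nat_lit 885)) (.lf (nat_lit 2933))) (.nd (nat_lit 3532) (.lf (nat_lit 1909)) (.lf (nat_lit 3957))))⟩) (.lf ⟨(nat_lit 0x210320430540650160761271872382983493a945a4ba5cb56c5dc67d68d7ed89e8ab9be9cdbdeb00034fff), (nat_lit 0), (nat_lit 0), (.nd (nat_lit 3345) (.lf (nat_lit 8053)) (.lf (nat_lit 245)))⟩)) (.nd (.lf ⟨(nat_lit 0x210320430540650160761271872382983493a94ba45b46b5cb67c6dc78d7ed89e8ae9beacebdec00034fff), (nat_lit 0), (nat_lit 0), (.nd (nat_lit 3549) (.lf (nat_lit 1781)) (.lf (nat_lit 3829)))⟩) (.nd (.lf ⟨(nat_lit 0x210320430540650160761271872382983493a94ba45b4cb56c57c6dc78d7ed89e8ae9beacebdec00034fff), (nat_lit 0), (nat_lit 0), (.nd (nat_lit 3345) (.lf (nat_lit 501)) (.lf (nat_lit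 1525)))⟩) (.lf ⟨(nat_lit 0x210320430540650160761271872382983493a94ba45b4cb56c5dc67d6ed78e79e8ae9beacdbdeb00034fff), (nat_lit 0), (nat_lit 0), (.nd (nat_lit 3498) (.lf (nat_lit 3061)) (.lf (nat_lit 2037)))⟩))))))

def X2t3 : Tb Job := (.nd (.nd (.nd (.lf ⟨(nat_lit 0x210320430540650160761271872382983493a94ba45b4cb56c5dc67d6ed78e79a8ae8bcaceadec00034fff), (nat_lit 0), (nat_lit 0), (.nd (nat_lit 3532) (.lf (nat_lit 4085)) (.lf (nat_lit 13)))⟩) (.lf ⟨(nat_lit 0x210320430540650160761271872382983a934a35a4ba5cb56c57c6dc78d7ed89e8ae9beacebdec00034fff), (nat_lit 0), (nat_lit 0), (.nd (nat_lit 3447) (.lf (nat_lit 5133)) (.lf (nat_lit 3085)))⟩)) (.nd (.lf ⟨(nat_lit 0x210320430540650160761271872382983a934a3ba45b4cb56c5dc67d68d79d8ed9ae9beacebdec00034fff), (nat_lit 0), (nat_lit 0), (.nd (nat_lit 3345) (.nd (nat_lit 3447) (.nd (nat_lit 3549) (.nd (nat_lit 3328)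 (.lf (nat_lit 525)) (.lf (nat_lit 2573))) (.lf (nat_lit 6669))) (.lf (nat_lit 1549))) (.nd (nat_lit 3362) (.nd (nat_lit 3379) (.nd (nat_lit 3447) (.nd (nat_lit 3549) (.nd (nat_lit 3481) (.lf (nat_lit 3597)) (.lf (nat_lit 269))) (.lf (nat_lit 2317))) (.lf (nat_lit 1293))) (.lf (nat_lit 5389))) (.lf (nat_lit 3341))))⟩) (.nd (.lf ⟨(nat_lit 0x210320430540650160761871281982392a934a3ba45b4cb56c57c6dc78d79d8ed9ae9beacebdec00034fff), (nat_lit 0), (nat_lit 0), (.nd (nat_lit 3481) (.nd (nat_lit 3532) (.nd (nat_lit 3328) (.nd (nat_lit 3566) (.nd (nat_lit 3447) (.nd (nat_lit 3413) (.nd (nat_lit 3464) (.nd (nat_lit 3379) (.nd (nat_lit 3345) (.nd (nat_lit 6109) (.lf (nat_lit 1805)) (.lf (nat_lit 3853))) (.nd (nat_lit 6365) (.lf (nat_lit 141)) (.lf (nat_lit 1165)))) (.nd (nat_lit 3345) (.nd (nat_lit 5734) (.lf (nat_lit 3213)) (.lf (nat_lit 653))) (.lf (nat_lit 2701))))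 (.nd (nat_lit 3345) (.nd (nat_lit 3379) (.nd (nat_lit 6246) (.lf (nat_lit 1677)) (.lf (nat_lit 3725))) (.lf (nat_lit 397))) (.lf (nat_lit 2445)))) (.nd (nat_lit 7253) (.nd (nat_lit 3464) (.nd (nat_lit 3635) (.nd (nat_lit 5154) (.lf (nat_lit 1421)) (.lf (nat_lit 3469))) (.nd (nat_lit 5341) (.lf (nat_lit 909)) (.lf (nat_lit 2957)))) (.nd (nat_lit 3379) (.lf (nat_lit 1933)) (.lf (nat_lit 3981)))) (.nd (nat_lit 4061) (.nd (nat_lit 3498) (.nd (nat_lit 3362) (.lf (nat_lit 77)) (.lf (nat_lit 1101))) (.lf (nat_lit 3149))) (.nd (nat_lit 3379) (.lf (nat_lit 589)) (.lf (nat_lit 2637)))))) (.nd (nat_lit 3464) (.nd (nat_lit 3379) (.nd (nat_lit 3345) (.nd (nat_lit 3413) (.nd (nat_lit 6178) (.lf (nat_lit 6733)) (.lf (nat_lit 1613))) (.lf (nat_lit 3661))) (.lf (nat_lit 333))) (.nd (nat_lit 3549) (.nd (nat_lit 6963) (.lf (nat_lit 1357)) (.lf (nat_lit 3405))) (.lf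 (nat_lit 845)))) (.nd (nat_lit 3362) (.nd (nat_lit 3396) (.nd (nat_lit 3430) (.lf (nat_lit 2893)) (.lf (nat_lit 1869))) (.lf (nat_lit 5965))) (.lf (nat_lit 3917))))) (.nd (nat_lit 7406) (.nd (nat_lit 3362) (.nd (nat_lit 3498) (.nd (nat_lit 3549) (.nd (nat_lit 3396) (.nd (nat_lit 3430) (.lf (nat_lit 205)) (.lf (nat_lit 1229))) (.lf (nat_lit 3277))) (.nd (nat_lit 3430) (.lf (nat_lit 717)) (.lf (nat_lit 2765)))) (.nd (nat_lit 3396) (.lf (nat_lit 1741)) (.lf (nat_lit 3789)))) (.nd (nat_lit 3464) (.nd (nat_lit 3430) (.nd (nat_lit 3515) (.nd (nat_lit 7202) (.lf (nat_lit 461)) (.lf (nat_lit 2509))) (.lf (nat_lit 1485))) (.lf (nat_lit 3533))) (.lf (nat_lit 973)))) (.nd (nat_lit 3430) (.nd (nat_lit 3515) (.nd (nat_lit 3362) (.nd (nat_lit 3396) (.nd (nat_lit 4659) (.lf (nat_lit 3021)) (.lf (nat_lit 1997))) (.lf (nat_lit 4045))) (.nd (nat_lit 3413) (.lf (nat_lit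 45)) (.lf (nat_lit 1069)))) (.nd (nat_lit 3413) (.lf (nat_lit 3117)) (.lf (nat_lit 557)))) (.nd (nat_lit 3362) (.nd (nat_lit 7014) (.lf (nat_lit 2605)) (.lf (nat_lit 1581))) (.lf (nat_lit 3629)))))) (.nd (nat_lit 3430) (.nd (nat_lit 3515) (.nd (nat_lit 3549) (.nd (nat_lit 5614) (.nd (nat_lit 3362) (.nd (nat_lit 3498) (.lf (nat_lit 301)) (.lf (nat_lit 1325))) (.lf (nat_lit 3373))) (.lf (nat_lit 813))) (.nd (nat_lit 3379) (.nd (nat_lit 3464) (.lf (nat_lit 2861)) (.lf (nat_lit 1837))) (.lf (nat_lit 5933)))) (.nd (nat_lit 3379) (.nd (nat_lit 3413) (.nd (nat_lit 3362) (.lf (nat_lit 3885)) (.lf (nat_lit 173))) (.lf (nat_lit 2221))) (.lf (nat_lit 6317)))) (.nd (nat_lit 3362) (.nd (nat_lit 3379) (.nd (nat_lit 3549) (.lf (nat_lit 1197)) (.lf (nat_lit 3245))) (.lf (nat_lit 685))) (.lf (nat_lit 2733))))) (.nd (nat_lit 3328) (.nd (nat_lit 3413) (.nd (nat_lit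 3549) (.nd (nat_lit 3498) (.nd (nat_lit 3362) (.nd (nat_lit 4659) (.nd (nat_lit 3345) (.lf (nat_lit 1709)) (.lf (nat_lit 3757))) (.lf (nat_lit 429))) (.nd (nat_lit 3430) (.lf (nat_lit 2477)) (.lf (nat_lit 1453)))) (.nd (nat_lit 3345) (.nd (nat_lit 3379) (.lf (nat_lit 3501)) (.lf (nat_lit 941))) (.lf (nat_lit 5037)))) (.nd (nat_lit 3430) (.nd (nat_lit 3362) (.lf (nat_lit 2989)) (.lf (nat_lit 1965))) (.lf (nat_lit 4013)))) (.nd (nat_lit 3566) (.nd (nat_lit 3464) (.nd (nat_lit 3379) (.lf (nat_lit 109)) (.lf (nat_lit 1133))) (.lf (nat_lit 5229))) (.lf (nat_lit 3181)))) (.nd (nat_lit 3566) (.nd (nat_lit 3362) (.nd (nat_lit 5216) (.lf (nat_lit 621)) (.nd (nat_lit 3549) (.nd (nat_lit 3379) (.lf (nat_lit 2669)) (.lf (nat_lit 1645))) (.lf (nat_lit 5741)))) (.lf (nat_lit 3693))) (.lf (nat_lit 365))))) (.nd (nat_lit 3430) (.nd (nat_lit 3413) (.nd (nat_lit 3345)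 (.nd (nat_lit 3328) (.nd (nat_lit 3379) (.nd (nat_lit 3652) (.nd (nat_lit 3362) (.lf (nat_lit 1389)) (.lf (nat_lit 3437))) (.lf (nat_lit 877))) (.nd (nat_lit 3396) (.lf (nat_lit 2925)) (.lf (nat_lit 1901)))) (.nd (nat_lit 5152) (.lf (nat_lit 3949)) (.nd (nat_lit 5266) (.lf (nat_lit 237)) (.lf (nat_lit 1261))))) (.nd (nat_lit 3447) (.nd (nat_lit 3532) (.lf (nat_lit 3309)) (.lf (nat_lit 749))) (.lf (nat_lit 4845)))) (.nd (nat_lit 3379) (.nd (nat_lit 3362) (.nd (nat_lit 3345) (.nd (nat_lit 3328) (.nd (nat_lit 3396) (.lf (nat_lit 2797)) (.lf (nat_lit 1773))) (.lf (nat_lit 5869))) (.lf (nat_lit 3821))) (.nd (nat_lit 5200) (.lf (nat_lit 493)) (.lf (nat_lit 1517)))) (.lf (nat_lit 3565)))) (.nd (nat_lit 3549) (.nd (nat_lit 3566) (.nd (nat_lit 7014) (.nd (nat_lit 3532) (.nd (nat_lit 3328) (.lf (nat_lit 1005)) (.lf (nat_lit 3053))) (.lf (nat_lit 7149))) (.nd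 (nat_lit 3532) (.nd (nat_lit 3515) (.lf (nat_lit 2029)) (.lf (nat_lit 4077))) (.lf (nat_lit 8173)))) (.nd (nat_lit 7014) (.lf (nat_lit 29)) (.lf (nat_lit 285)))) (.nd (nat_lit 3362) (.nd (nat_lit 6758) (.lf (nat_lit 157)) (.lf (nat_lit 413))) (.lf (nat_lit 925))))))⟩) (.lf ⟨(nat_lit 0x1707606505404303202100000e8fe), (nat_lit 0), (nat_lit 0), (.nd (nat_lit 3185) (.nd (nat_lit 3190) (.lf (nat_lit 6235)) (.nd (nat_lit 3173) (.lf (nat_lit 14427)) (.nd (nat_lit 3156) (.lf (nat_lit 1115)) (.nd (nat_lit 3139) (.lf (nat_lit 3163)) (.nd (nat_lit 3122) (.lf (nat_lit 7259)) (.nd (nat_lit 3105) (.lf (nat_lit 603)) (.nd (nat_lit 6246) (.nd (nat_lit 7202) (.lf (nat_lit 1627)) (.lf (nat_lit 347))) (.lf (nat_lit 2395))))))))) (.nd (nat_lit 3190) (.nd (nat_lit 3173) (.lf (nat_lit 6491)) (.nd (nat_lit 3156) (.lf (nat_lit 1371)) (.nd (nat_lit 3139) (.lf (nat_lit 3419))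 (.nd (nat_lit 3122) (.lf (nat_lit 7515)) (.nd (nat_lit 3105) (.lf (nat_lit 859)) (.nd (nat_lit 6161) (.nd (nat_lit 7253) (.lf (nat_lit 1883)) (.lf (nat_lit 3931))) (.lf (nat_lit 12123)))))))) (.nd (nat_lit 3173) (.nd (nat_lit 3156) (.lf (nat_lit 8027)) (.nd (nat_lit 3139) (.lf (nat_lit 16219)) (.nd (nat_lit 3122) (.lf (nat_lit 219)) (.nd (nat_lit 3105) (.lf (nat_lit 2267)) (.nd (nat_lit 6212) (.nd (nat_lit 7287) (.lf (nat_lit 1243)) (.lf (nat_lit 731))) (.lf (nat_lit 4827))))))) (.nd (nat_lit 3156) (.nd (nat_lit 3139) (.lf (nat_lit 2779)) (.nd (nat_lit 3122) (.lf (nat_lit 6875)) (.nd (nat_lit 3105) (.lf (nat_lit 1755)) (.nd (nat_lit 6246) (.nd (nat_lit 7219) (.lf (nat_lit 3803)) (.lf (nat_lit 475))) (.lf (nat_lit 4571)))))) (.nd (nat_lit 3139) (.nd (nat_lit 3122) (.lf (nat_lit 2523)) (.nd (nat_lit 3105) (.lf (nat_lit 6619)) (.nd (nat_lit 6178) (.nd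 (nat_lit 7253) (.lf (nat_lit 1499)) (.lf (nat_lit 987))) (.lf (nat_lit 3035))))) (.nd (nat_lit 3122) (.nd (nat_lit 3105) (.lf (nat_lit 7131)) (.nd (nat_lit 6161) (.nd (nat_lit 7236) (.lf (nat_lit 2011)) (.lf (nat_lit 4059))) (.lf (nat_lit 8155)))) (.nd (nat_lit 3105) (.nd (nat_lit 6195) (.nd (nat_lit 7287) (.lf (nat_lit 59)) (.lf (nat_lit 1083))) (.lf (nat_lit 3131))) (.nd (nat_lit 4147) (.nd (nat_lit 2679) (.nd (nat_lit 4130) (.nd (nat_lit 7185) (.nd (nat_lit 6212) (.nd (nat_lit 6485) (.nd (nat_lit 2304) (.nd (nat_lit 6502) (.nd (nat_lit 5393) (.nd (nat_lit 4113) (.nd (nat_lit 4164) (.nd (nat_lit 4198) (.nd (nat_lit 4949) (.nd (nat_lit 3925) (.nd (nat_lit 2372) (.nd (nat_lit 2133) (.nd (nat_lit 3174) (.nd (nat_lit 2406) (.nd (nat_lit 3123) (.nd (nat_lit 2594) (.nd (nat_lit 3089) (.nd (nat_lit 2321) (.nd (nat_lit 1911) (.nd (nat_lit 2355) (.nd (nat_lit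 2082) (.nd (nat_lit 1843) (.nd (nat_lit 1860) (.nd (nat_lit 1894) (.nd (nat_lit 1809) (.nd (nat_lit 1621) (.nd (nat_lit 1570) (.nd (nat_lit 1604) (.lf (nat_lit 571)) (.lf (nat_lit 1595))) (.lf (nat_lit 5691))) (.lf (nat_lit 3643))) (.lf (nat_lit 315))) (.nd (nat_lit 1809) (.lf (nat_lit 1339)) (.lf (nat_lit 827)))) (.nd (nat_lit 1809) (.nd (nat_lit 1894) (.lf (nat_lit 1851)) (.lf (nat_lit 3899))) (.lf (nat_lit 7995)))) (.nd (nat_lit 1860) (.nd (nat_lit 1894) (.nd (nat_lit 1809) (.lf (nat_lit 187)) (.lf (nat_lit 1211))) (.lf (nat_lit 3259))) (.lf (nat_lit 7355)))) (.nd (nat_lit 1860) (.lf (nat_lit 699)) (.lf (nat_lit 1723)))) (.nd (nat_lit 2082) (.nd (nat_lit 1894) (.nd (nat_lit 1860) (.nd (nat_lit 1809) (.lf (nat_lit 3771)) (.lf (nat_lit 443))) (.lf (nat_lit 4539))) (.lf (nat_lit 2491))) (.lf (nat_lit 6587)))) (.nd (nat_lit 2355) (.nd (nat_lit 2082)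 (.nd (nat_lit 1843) (.nd (nat_lit 1809) (.nd (nat_lit 1894) (.nd (nat_lit 1860) (.nd (nat_lit 1570) (.lf (nat_lit 1467)) (.lf (nat_lit 955))) (.lf (nat_lit 3003))) (.lf (nat_lit 7099))) (.lf (nat_lit 1979))) (.lf (nat_lit 10171))) (.lf (nat_lit 6075))) (.lf (nat_lit 14267)))) (.nd (nat_lit 1911) (.nd (nat_lit 2099) (.nd (nat_lit 2082) (.nd (nat_lit 1860) (.nd (nat_lit 1894) (.lf (nat_lit 4027)) (.lf (nat_lit 123))) (.lf (nat_lit 4219))) (.lf (nat_lit 2171))) (.lf (nat_lit 6267))) (.lf (nat_lit 14459)))) (.lf (nat_lit 1147))) (.nd (nat_lit 2065) (.nd (nat_lit 2167) (.nd (nat_lit 1843) (.nd (nat_lit 1894) (.nd (nat_lit 1860) (.nd (nat_lit 1655) (.nd (nat_lit 1399) (.nd (nat_lit 3874) (.lf (nat_lit 635)) (.lf (nat_lit 1659))) (.lf (nat_lit 3707))) (.lf (nat_lit 7803))) (.lf (nat_lit 379))) (.lf (nat_lit 4475))) (.lf (nat_lit 2427))) (.lf (nat_lit 6523)))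 (.lf (nat_lit 14715)))) (.nd (nat_lit 3089) (.nd (nat_lit 2321) (.nd (nat_lit 2167) (.nd (nat_lit 2594) (.nd (nat_lit 1809) (.nd (nat_lit 1894) (.lf (nat_lit 1403)) (.lf (nat_lit 891))) (.lf (nat_lit 4987))) (.lf (nat_lit 13179))) (.lf (nat_lit 2939))) (.lf (nat_lit 7035))) (.lf (nat_lit 15227)))) (.nd (nat_lit 3123) (.nd (nat_lit 2082) (.nd (nat_lit 3089) (.nd (nat_lit 2355) (.nd (nat_lit 2321) (.nd (nat_lit 2167) (.nd (nat_lit 1843) (.nd (nat_lit 1860) (.nd (nat_lit 1809) (.lf (nat_lit 1915)) (.lf (nat_lit 3963))) (.lf (nat_lit 12155))) (.lf (nat_lit 28539))) (.lf (nat_lit 8059))) (.lf (nat_lit 24443))) (.lf (nat_lit 16251))) (.lf (nat_lit 32635))) (.lf (nat_lit 251))) (.lf (nat_lit 2299)))) (.lf (nat_lit 6395))) (.nd (nat_lit 2867) (.nd (nat_lit 2082) (.nd (nat_lit 3089) (.nd (nat_lit 1894) (.nd (nat_lit 2321) (.nd (nat_lit 2355) (.nd (nat_lit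 2167) (.nd (nat_lit 1843) (.nd (nat_lit 1809) (.nd (nat_lit 1860) (.nd (nat_lit 1655) (.nd (nat_lit 3669) (.nd (nat_lit 1553) (.nd (nat_lit 1399) (.lf (nat_lit 1275)) (.lf (nat_lit 763))) (.lf (nat_lit 2811))) (.lf (nat_lit 6907))) (.lf (nat_lit 1787))) (.lf (nat_lit 3835))) (.lf (nat_lit 7931))) (.lf (nat_lit 507))) (.lf (nat_lit 4603))) (.lf (nat_lit 2555))) (.lf (nat_lit 6651))) (.lf (nat_lit 14843))) (.lf (nat_lit 1531))) (.lf (nat_lit 3579))) (.lf (nat_lit 7675)))) (.nd (nat_lit 2082) (.nd (nat_lit 2918) (.nd (nat_lit 3089) (.nd (nat_lit 2099) (.nd (nat_lit 2133) (.nd (nat_lit 2321) (.nd (nat_lit 1911) (.nd (nat_lit 2406) (.nd (nat_lit 1809) (.nd (nat_lit 1894) (.nd (nat_lit 1570) (.nd (nat_lit 3908) (.nd (nat_lit 1314) (.nd (nat_lit 1553) (.lf (nat_lit 1019)) (.lf (nat_lit 2043))) (.lf (nat_lit 6139))) (.lf (nat_lit 14331))) (.lf (nat_lit 4091)))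 (.lf (nat_lit 8187))) (.lf (nat_lit 16379))) (.lf (nat_lit 7))) (.lf (nat_lit 2055))) (.lf (nat_lit 1031))) (.lf (nat_lit 3079))) (.lf (nat_lit 7175))) (.lf (nat_lit 519))) (.lf (nat_lit 1543))) (.lf (nat_lit 3591)))) (.lf (nat_lit 263))) (.lf (nat_lit 775))) (.nd (nat_lit 2901) (.nd (nat_lit 2099) (.lf (nat_lit 135)) (.lf (nat_lit 647))) (.lf (nat_lit 1671)))) (.nd (nat_lit 4710) (.nd (nat_lit 3925) (.nd (nat_lit 3174) (.nd (nat_lit 2065) (.nd (nat_lit 3106) (.lf (nat_lit 391)) (.lf (nat_lit 903))) (.lf (nat_lit 4999))) (.lf (nat_lit 2951))) (.lf (nat_lit 7047))) (.lf (nat_lit 15239)))) (.nd (nat_lit 4420) (.nd (nat_lit 4181) (.nd (nat_lit 4966) (.nd (nat_lit 3686) (.nd (nat_lit 2389) (.nd (nat_lit 2628) (.nd (nat_lit 1843) (.nd (nat_lit 2116) (.nd (nat_lit 2338) (.nd (nat_lit 2918) (.nd (nat_lit 1621) (.nd (nat_lit 2406) (.nd (nat_lit 1894) (.lf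 (nat_lit 1927)) (.lf (nat_lit 71))) (.lf (nat_lit 4167))) (.lf (nat_lit 12359))) (.lf (nat_lit 2119))) (.lf (nat_lit 6215))) (.lf (nat_lit 14407))) (.lf (nat_lit 1095))) (.lf (nat_lit 5191))) (.lf (nat_lit 13383))) (.lf (nat_lit 3143))) (.lf (nat_lit 11335))) (.lf (nat_lit 7239))) (.lf (nat_lit 15431)))) (.nd (nat_lit 3908) (.nd (nat_lit 4181) (.nd (nat_lit 4710) (.lf (nat_lit 583)) (.lf (nat_lit 327))) (.lf (nat_lit 1351))) (.lf (nat_lit 3399)))) (.nd (nat_lit 5393) (.nd (nat_lit 3652) (.nd (nat_lit 4113) (.nd (nat_lit 2355) (.nd (nat_lit 1621) (.nd (nat_lit 2594) (.nd (nat_lit 2577) (.nd (nat_lit 1826) (.nd (nat_lit 8806) (.lf (nat_lit 839)) (.lf (nat_lit 1863))) (.lf (nat_lit 199))) (.lf (nat_lit 1223))) (.lf (nat_lit 3271))) (.lf (nat_lit 711))) (.lf (nat_lit 455))) (.lf (nat_lit 1479))) (.lf (nat_lit 3527))) (.lf (nat_lit 967)))) (.nd (nat_lit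 6246) (.nd (nat_lit 4625) (.lf (nat_lit 1991)) (.lf (nat_lit 39))) (.lf (nat_lit 2087)))) (.nd (nat_lit 2304) (.nd (nat_lit 5393) (.nd (nat_lit 4710) (.nd (nat_lit 4113) (.nd (nat_lit 2065) (.nd (nat_lit 1860) (.nd (nat_lit 2338) (.nd (nat_lit 8789) (.lf (nat_lit 1063)) (.lf (nat_lit 551))) (.lf (nat_lit 1575))) (.lf (nat_lit 3623))) (.lf (nat_lit 295))) (.lf (nat_lit 2343))) (.lf (nat_lit 1319))) (.lf (nat_lit 3367))) (.lf (nat_lit 7463)))) (.nd (nat_lit 2304) (.nd (nat_lit 4454) (.nd (nat_lit 5393) (.nd (nat_lit 5461) (.nd (nat_lit 4113) (.nd (nat_lit 8772) (.nd (nat_lit 5696) (.lf (nat_lit 807)) (.nd (nat_lit 2065) (.nd (nat_lit 2594) (.nd (nat_lit 3430) (.nd (nat_lit 2662) (.nd (nat_lit 8260) (.nd (nat_lit 1911) (.lf (nat_lit 1831)) (.lf (nat_lit 167))) (.lf (nat_lit 4263))) (.lf (nat_lit 12455))) (.lf (nat_lit 2215))) (.lf (nat_lit 6311))) (.lf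 (nat_lit 14503)))) (.nd (nat_lit 1809) (.nd (nat_lit 1621) (.nd (nat_lit 2850) (.lf (nat_lit 1191)) (.lf (nat_lit 679))) (.lf (nat_lit 2727))) (.lf (nat_lit 6823)))) (.lf (nat_lit 1703))) (.lf (nat_lit 3751))) (.lf (nat_lit 7847))) (.lf (nat_lit 423))) (.lf (nat_lit 1447)))) (.nd (nat_lit 5188) (.nd (nat_lit 6485) (.nd (nat_lit 2304) (.nd (nat_lit 5990) (.nd (nat_lit 3413) (.nd (nat_lit 3396) (.nd (nat_lit 4198) (.nd (nat_lit 1860) (.nd (nat_lit 2133) (.nd (nat_lit 2355) (.lf (nat_lit 935)) (.lf (nat_lit 1959))) (.lf (nat_lit 6055))) (.lf (nat_lit 4007))) (.lf (nat_lit 8103))) (.lf (nat_lit 103))) (.lf (nat_lit 2151))) (.lf (nat_lit 1127))) (.lf (nat_lit 3175))) (.lf (nat_lit 615))) (.lf (nat_lit 1639)))) (.nd (nat_lit 2901) (.nd (nat_lit 2304) (.nd (nat_lit 7014) (.nd (nat_lit 7236) (.nd (nat_lit 4881) (.nd (nat_lit 8226) (.nd (nat_lit 5188) (.nd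 (nat_lit 5478) (.nd (nat_lit 4198) (.nd (nat_lit 3908) (.nd (nat_lit 7202) (.nd (nat_lit 6434) (.lf (nat_lit 359)) (.lf (nat_lit 1383))) (.lf (nat_lit 871))) (.lf (nat_lit 1895))) (.lf (nat_lit 10087))) (.lf (nat_lit 5991))) (.lf (nat_lit 14183))) (.nd (nat_lit 5188) (.nd (nat_lit 5478) (.nd (nat_lit 4198) (.nd (nat_lit 3908) (.nd (nat_lit 2406) (.nd (nat_lit 2628) (.nd (nat_lit 1877) (.lf (nat_lit 3943)) (.lf (nat_lit 231))) (.lf (nat_lit 4327))) (.lf (nat_lit 12519))) (.lf (nat_lit 2279))) (.lf (nat_lit 6375))) (.lf (nat_lit 14567))) (.lf (nat_lit 1255)))) (.lf (nat_lit 3303))) (.lf (nat_lit 7399))) (.lf (nat_lit 743))) (.lf (nat_lit 1767))) (.nd (nat_lit 8226) (.nd (nat_lit 8021) (.nd (nat_lit 2304) (.lf (nat_lit 487)) (.lf (nat_lit 1511))) (.lf (nat_lit 3559))) (.lf (nat_lit 999))))) (.nd (nat_lit 3874) (.nd (nat_lit 5700) (.nd (nat_lit 6997)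 (.nd (nat_lit 5905) (.nd (nat_lit 6000) (.nd (nat_lit 2304) (.nd (nat_lit 7014) (.nd (nat_lit 4693) (.nd (nat_lit 2150) (.nd (nat_lit 3089) (.nd (nat_lit 4420) (.nd (nat_lit 8055) (.nd (nat_lit 2116) (.nd (nat_lit 6775) (.lf (nat_lit 2023)) (.lf (nat_lit 4071))) (.lf (nat_lit 8167))) (.nd (nat_lit 3123) (.lf (nat_lit 23)) (.lf (nat_lit 1047)))) (.lf (nat_lit 5143))) (.lf (nat_lit 3095))) (.lf (nat_lit 7191))) (.lf (nat_lit 535))) (.lf (nat_lit 2583))) (.lf (nat_lit 6679))) (.nd (nat_lit 2304) (.nd (nat_lit 8055) (.nd (nat_lit 6775) (.nd (nat_lit 2662) (.nd (nat_lit 4693) (.nd (nat_lit 4420) (.nd (nat_lit 5751) (.nd (nat_lit 2099) (.lf (nat_lit 1559)) (.lf (nat_lit 279))) (.lf (nat_lit 4375))) (.lf (nat_lit 2327))) (.lf (nat_lit 6423))) (.lf (nat_lit 1303))) (.lf (nat_lit 791))) (.nd (nat_lit 3140) (.nd (nat_lit 4181) (.nd (nat_lit 3686) (.nd (nat_lit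 2355) (.nd (nat_lit 1860) (.lf (nat_lit 1815)) (.lf (nat_lit 151))) (.lf (nat_lit 4247))) (.lf (nat_lit 2199))) (.lf (nat_lit 6295))) (.lf (nat_lit 14487)))) (.lf (nat_lit 1175)))) (.lf (nat_lit 663))) (.nd (nat_lit 8055) (.lf (nat_lit 1687)) (.lf (nat_lit 407)))) (.nd (nat_lit 8055) (.nd (nat_lit 6775) (.nd (nat_lit 5751) (.nd (nat_lit 3601) (.nd (nat_lit 8772) (.lf (nat_lit 2455)) (.lf (nat_lit 1431))) (.lf (nat_lit 3479))) (.lf (nat_lit 7575))) (.lf (nat_lit 919))) (.lf (nat_lit 2967)))) (.nd (nat_lit 2304) (.nd (nat_lit 8226) (.nd (nat_lit 2389) (.nd (nat_lit 6263) (.lf (nat_lit 1943)) (.lf (nat_lit 3991))) (.lf (nat_lit 8087))) (.lf (nat_lit 87))) (.lf (nat_lit 2135))))) (.nd (nat_lit 2406) (.nd (nat_lit 3601) (.nd (nat_lit 6519) (.nd (nat_lit 5973) (.nd (nat_lit 2594) (.nd (nat_lit 4164) (.nd (nat_lit 2304) (.nd (nat_lit 8243) (.nd (nat_lit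 4983) (.nd (nat_lit 4181) (.nd (nat_lit 3959) (.nd (nat_lit 7219) (.nd (nat_lit 6451) (.lf (nat_lit 1111)) (.lf (nat_lit 599))) (.lf (nat_lit 1623))) (.lf (nat_lit 3671))) (.lf (nat_lit 343))) (.lf (nat_lit 2391))) (.nd (nat_lit 4983) (.nd (nat_lit 2679) (.nd (nat_lit 4181) (.nd (nat_lit 2645) (.nd (nat_lit 2577) (.lf (nat_lit 1367)) (.lf (nat_lit 855))) (.lf (nat_lit 4951))) (.lf (nat_lit 2903))) (.lf (nat_lit 6999))) (.lf (nat_lit 15191)))) (.lf (nat_lit 1879))) (.lf (nat_lit 5975))) (.lf (nat_lit 3927))) (.lf (nat_lit 215))) (.nd (nat_lit 8243) (.lf (nat_lit 1239)) (.lf (nat_lit 727)))) (.nd (nat_lit 7953) (.lf (nat_lit 1751)) (.lf (nat_lit 471)))) (.nd (nat_lit 7270) (.nd (nat_lit 2304) (.nd (nat_lit 2935) (.nd (nat_lit 2645) (.nd (nat_lit 6246) (.nd (nat_lit 4369) (.nd (nat_lit 2372) (.lf (nat_lit 1495)) (.lf (nat_lit 983))) (.lf (nat_lit 5079)))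 (.lf (nat_lit 13271))) (.lf (nat_lit 3031))) (.lf (nat_lit 7127))) (.lf (nat_lit 15319))) (.nd (nat_lit 8243) (.lf (nat_lit 2007)) (.lf (nat_lit 4055)))))))))))))⟩)))) (.nd (.nd (.lf ⟨(nat_lit 0x180870760650540430320210000109fe), (nat_lit 0), (nat_lit 0), (.nd (nat_lit 3096) (.lf (nat_lit 8151)) (.nd (nat_lit 3207) (.lf (nat_lit 55)) (.nd (nat_lit 3190) (.lf (nat_lit 2103)) (.nd (nat_lit 3173) (.lf (nat_lit 6199)) (.nd (nat_lit 3156) (.lf (nat_lit 1079)) (.nd (nat_lit 3139) (.lf (nat_lit 5175)) (.nd (nat_lit 3122) (.lf (nat_lit 3127)) (.nd (nat_lit 3105) (.lf (nat_lit 7223)) (.nd (nat_lit 2816) (.nd (nat_lit 1860) (.lf (nat_lit 567)) (.lf (nat_lit 1591))) (.lf (nat_lit 9783)))))))))))⟩) (.lf ⟨(nat_lit 0x1707606505404303202100000e8ff), (nat_lit 0), (nat_lit 0), (.nd (nat_lit 3095) (.nd (nat_lit 3190) (.lf (nat_lit 3639)) (.nd (nat_lit 3173) (.lf (nat_lit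 311)) (.nd (nat_lit 3156) (.lf (nat_lit 2359)) (.nd (nat_lit 3139) (.lf (nat_lit 1335)) (.nd (nat_lit 3122) (.lf (nat_lit 5431)) (.nd (nat_lit 3105) (.lf (nat_lit 13623)) (.lf (nat_lit 3383)))))))) (.nd (nat_lit 3190) (.nd (nat_lit 3173) (.lf (nat_lit 823)) (.nd (nat_lit 3156) (.lf (nat_lit 2871)) (.nd (nat_lit 3139) (.lf (nat_lit 1847)) (.nd (nat_lit 3122) (.lf (nat_lit 5943)) (.nd (nat_lit 3105) (.lf (nat_lit 14135)) (.nd (nat_lit 2816) (.nd (nat_lit 1843) (.lf (nat_lit 3895)) (.lf (nat_lit 183))) (.lf (nat_lit 1207)))))))) (.nd (nat_lit 3173) (.nd (nat_lit 3156) (.lf (nat_lit 3255)) (.nd (nat_lit 3139) (.lf (nat_lit 695)) (.nd (nat_lit 3122) (.lf (nat_lit 2743)) (.nd (nat_lit 3105) (.lf (nat_lit 6839)) (.nd (nat_lit 1792) (.lf (nat_lit 1719)) (.lf (nat_lit 3767))))))) (.nd (nat_lit 3156) (.nd (nat_lit 3139) (.lf (nat_lit 439)) (.nd (nat_lit 3122)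 (.lf (nat_lit 2487)) (.nd (nat_lit 3105) (.lf (nat_lit 6583)) (.nd (nat_lit 1792) (.lf (nat_lit 1463)) (.lf (nat_lit 3511)))))) (.nd (nat_lit 3139) (.nd (nat_lit 3122) (.lf (nat_lit 951)) (.nd (nat_lit 3105) (.lf (nat_lit 2999)) (.nd (nat_lit 1792) (.lf (nat_lit 7095)) (.lf (nat_lit 1975))))) (.nd (nat_lit 3122) (.nd (nat_lit 3105) (.lf (nat_lit 6071)) (.nd (nat_lit 1792) (.lf (nat_lit 4023)) (.lf (nat_lit 119)))) (.nd (nat_lit 3105) (.lf (nat_lit 1143)) (.nd (nat_lit 1894) (.nd (nat_lit 1792) (.nd (nat_lit 2577) (.nd (nat_lit 2628) (.nd (nat_lit 3635) (.lf (nat_lit 631)) (.lf (nat_lit 1655))) (.nd (nat_lit 2355) (.lf (nat_lit 3703)) (.lf (nat_lit 375)))) (.nd (nat_lit 7185) (.nd (nat_lit 3652) (.lf (nat_lit 1399)) (.lf (nat_lit 3447))) (.lf (nat_lit 887)))) (.nd (nat_lit 3328) (.nd (nat_lit 2372) (.nd (nat_lit 3345) (.lf (nat_lit 1911)) (.lf (nat_lit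 3959))) (.nd (nat_lit 6980) (.lf (nat_lit 247)) (.lf (nat_lit 1271)))) (.nd (nat_lit 5376) (.nd (nat_lit 1809) (.lf (nat_lit 759)) (.lf (nat_lit 1783))) (.lf (nat_lit 3831))))) (.nd (nat_lit 1792) (.nd (nat_lit 3686) (.nd (nat_lit 2321) (.nd (nat_lit 2611) (.lf (nat_lit 503)) (.lf (nat_lit 1527))) (.nd (nat_lit 2372) (.lf (nat_lit 3575)) (.lf (nat_lit 1015)))) (.nd (nat_lit 7526) (.nd (nat_lit 1826) (.nd (nat_lit 2884) (.lf (nat_lit 2039)) (.lf (nat_lit 4087))) (.nd (nat_lit 2355) (.lf (nat_lit 15)) (.lf (nat_lit 1039)))) (.nd (nat_lit 2594) (.lf (nat_lit 527)) (.lf (nat_lit 1551))))) (.nd (nat_lit 5472) (.nd (nat_lit 3328) (.nd (nat_lit 1826) (.lf (nat_lit 3599)) (.lf (nat_lit 271))) (.nd (nat_lit 6144) (.lf (nat_lit 1295)) (.lf (nat_lit 783)))) (.nd (nat_lit 3584) (.nd (nat_lit 3106) (.nd (nat_lit 5990) (.lf (nat_lit 2831)) (.lf (nat_lit 1807)))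 (.lf (nat_lit 3855))) (.nd (nat_lit 5632) (.lf (nat_lit 143)) (.lf (nat_lit 1167))))))))))))))⟩)) (.nd (.lf ⟨(nat_lit 0x180870760650540430320210000109ff), (nat_lit 0), (nat_lit 0), (.nd (nat_lit 3201) (.nd (nat_lit 3207) (.lf (nat_lit 3215)) (.lf (nat_lit 655))) (.nd (nat_lit 3207) (.lf (nat_lit 1679)) (.nd (nat_lit 3190) (.lf (nat_lit 3727)) (.nd (nat_lit 3173) (.lf (nat_lit 399)) (.nd (nat_lit 3156) (.lf (nat_lit 2447)) (.nd (nat_lit 3139) (.lf (nat_lit 1423)) (.nd (nat_lit 3122) (.lf (nat_lit 5519)) (.nd (nat_lit 3105) (.lf (nat_lit 13711)) (.nd (nat_lit 5239) (.nd (nat_lit 4625) (.nd (nat_lit 7304) (.nd (nat_lit 6434) (.lf (nat_lit 3471)) (.lf (nat_lit 911))) (.lf (nat_lit 2959))) (.lf (nat_lit 1935))) (.lf (nat_lit 3983)))))))))))⟩) (.nd (.lf ⟨(nat_lit 0x19098087076065054043032021000012aff), (nat_lit 0), (nat_lit 0), (.nd (nat_lit 3696) (.lf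 (nat_lit 79)) (.lf (nat_lit 207)))⟩) (.lf ⟨(nat_lit 0x210320430540650160761871281982392a934a3ba45b4cb56c57c6dc78d79d8ad9bdacdb00030efe), (nat_lit 0), (nat_lit 0), (.nd (nat_lit 3515) (.nd (nat_lit 3481) (.nd (nat_lit 3549) (.nd (nat_lit 3447) (.nd (nat_lit 3396) (.nd (nat_lit 3362) (.nd (nat_lit 3328) (.nd (nat_lit 3430) (.nd (nat_lit 3532) (.nd (nat_lit 3498) (.nd (nat_lit 3976) (.nd (nat_lit 4881) (.nd (nat_lit 5939) (.lf (nat_lit 47)) (.lf (nat_lit 1071))) (.lf (nat_lit 3119))) (.nd (nat_lit 3345) (.lf (nat_lit 559)) (.nd (nat_lit 6280) (.lf (nat_lit 2607)) (.lf (nat_lit 1583))))) (.nd (nat_lit 3379) (.nd (nat_lit 3464) (.lf (nat_lit 3631)) (.lf (nat_lit 303))) (.nd (nat_lit 6451) (.lf (nat_lit 1327)) (.lf (nat_lit 3375))))) (.nd (nat_lit 3413) (.nd (nat_lit 3345) (.nd (nat_lit 3379) (.nd (nat_lit 7372) (.lf (nat_lit 815)) (.lf (nat_lit 2863)))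 (.lf (nat_lit 1839))) (.nd (nat_lit 3379) (.lf (nat_lit 3887)) (.lf (nat_lit 175)))) (.nd (nat_lit 6348) (.lf (nat_lit 1199)) (.lf (nat_lit 3247))))) (.nd (nat_lit 3532) (.nd (nat_lit 3464) (.nd (nat_lit 3754) (.nd (nat_lit 4147) (.nd (nat_lit 6502) (.lf (nat_lit 687)) (.lf (nat_lit 2735))) (.lf (nat_lit 1711))) (.lf (nat_lit 3759))) (.nd (nat_lit 5512) (.lf (nat_lit 431)) (.lf (nat_lit 1455)))) (.nd (nat_lit 5734) (.lf (nat_lit 3503)) (.lf (nat_lit 943))))) (.nd (nat_lit 6912) (.nd (nat_lit 3430) (.nd (nat_lit 3413) (.nd (nat_lit 3379) (.nd (nat_lit 3345) (.nd (nat_lit 3498) (.lf (nat_lit 2991)) (.lf (nat_lit 1967))) (.lf (nat_lit 4015))) (.lf (nat_lit 111))) (.lf (nat_lit 1135))) (.lf (nat_lit 3183))) (.nd (nat_lit 5168) (.nd (nat_lit 3379) (.lf (nat_lit 623)) (.lf (nat_lit 1647))) (.nd (nat_lit 5136) (.lf (nat_lit 5743)) (.lf (nat_lit 3695))))))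 (.nd (nat_lit 3328) (.nd (nat_lit 3464) (.nd (nat_lit 3498) (.nd (nat_lit 3532) (.nd (nat_lit 3430) (.nd (nat_lit 6946) (.nd (nat_lit 3669) (.lf (nat_lit 367)) (.lf (nat_lit 1391))) (.lf (nat_lit 3439))) (.lf (nat_lit 879))) (.nd (nat_lit 6348) (.lf (nat_lit 2927)) (.lf (nat_lit 1903)))) (.nd (nat_lit 3379) (.nd (nat_lit 3532) (.nd (nat_lit 4570) (.lf (nat_lit 5999)) (.lf (nat_lit 3951))) (.lf (nat_lit 8047))) (.lf (nat_lit 239)))) (.nd (nat_lit 5666) (.nd (nat_lit 5768) (.lf (nat_lit 1263)) (.lf (nat_lit 3311))) (.lf (nat_lit 751)))) (.nd (nat_lit 5376) (.nd (nat_lit 3464) (.lf (nat_lit 2799)) (.lf (nat_lit 1775))) (.lf (nat_lit 5871))))) (.nd (nat_lit 3328) (.nd (nat_lit 3498) (.nd (nat_lit 3532) (.nd (nat_lit 3464) (.nd (nat_lit 3345) (.nd (nat_lit 3413) (.nd (nat_lit 3379) (.nd (nat_lit 7236) (.lf (nat_lit 3823)) (.lf (nat_lit 495))) (.lf (nat_lit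 1519))) (.lf (nat_lit 3567))) (.nd (nat_lit 3413) (.lf (nat_lit 1007)) (.lf (nat_lit 3055)))) (.nd (nat_lit 6024) (.nd (nat_lit 3345) (.lf (nat_lit 2031)) (.lf (nat_lit 4079))) (.lf (nat_lit 8175)))) (.nd (nat_lit 5580) (.nd (nat_lit 3464) (.lf (nat_lit 31)) (.lf (nat_lit 1055))) (.lf (nat_lit 5151)))) (.nd (nat_lit 5546) (.nd (nat_lit 3345) (.nd (nat_lit 3413) (.nd (nat_lit 3379) (.lf (nat_lit 3103)) (.lf (nat_lit 543))) (.lf (nat_lit 2591))) (.lf (nat_lit 6687))) (.lf (nat_lit 1567)))) (.nd (nat_lit 5376) (.nd (nat_lit 5444) (.nd (nat_lit 3345) (.lf (nat_lit 3615)) (.lf (nat_lit 287))) (.lf (nat_lit 2335))) (.lf (nat_lit 6431))))) (.nd (nat_lit 3430) (.nd (nat_lit 3328) (.nd (nat_lit 3345) (.nd (nat_lit 3413) (.nd (nat_lit 3362) (.nd (nat_lit 3498) (.nd (nat_lit 3379) (.nd (nat_lit 3396) (.nd (nat_lit 3532) (.lf (nat_lit 1311)) (.lf (nat_lit 3359)))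 (.lf (nat_lit 799))) (.lf (nat_lit 2847))) (.nd (nat_lit 6826) (.lf (nat_lit 1823)) (.lf (nat_lit 3871)))) (.nd (nat_lit 5410) (.lf (nat_lit 159)) (.lf (nat_lit 1183)))) (.nd (nat_lit 5461) (.nd (nat_lit 3362) (.lf (nat_lit 3231)) (.lf (nat_lit 671))) (.lf (nat_lit 2719)))) (.nd (nat_lit 5495) (.nd (nat_lit 5393) (.nd (nat_lit 3396) (.lf (nat_lit 1695)) (.lf (nat_lit 3743))) (.lf (nat_lit 7839))) (.lf (nat_lit 415)))) (.nd (nat_lit 5751) (.nd (nat_lit 6400) (.lf (nat_lit 1439)) (.lf (nat_lit 3487))) (.lf (nat_lit 7583)))) (.nd (nat_lit 3328) (.nd (nat_lit 5495) (.nd (nat_lit 3379) (.nd (nat_lit 5478) (.nd (nat_lit 3498) (.lf (nat_lit 927)) (.lf (nat_lit 2975))) (.lf (nat_lit 7071))) (.lf (nat_lit 15263))) (.lf (nat_lit 1951))) (.lf (nat_lit 3999))))) (.nd (nat_lit 4864) (.nd (nat_lit 6877) (.nd (nat_lit 3345) (.nd (nat_lit 3396) (.nd (nat_lit 3430)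 (.nd (nat_lit 3362) (.nd (nat_lit 3413) (.nd (nat_lit 3891) (.nd (nat_lit 3498) (.nd (nat_lit 2304) (.lf (nat_lit 8095)) (.lf (nat_lit 95))) (.lf (nat_lit 1119))) (.lf (nat_lit 3167))) (.lf (nat_lit 607))) (.nd (nat_lit 6434) (.lf (nat_lit 2655)) (.lf (nat_lit 1631)))) (.nd (nat_lit 6502) (.nd (nat_lit 3362) (.lf (nat_lit 3679)) (.lf (nat_lit 351))) (.lf (nat_lit 2399)))) (.nd (nat_lit 5444) (.nd (nat_lit 3413) (.lf (nat_lit 1375)) (.lf (nat_lit 3423))) (.lf (nat_lit 7519)))) (.nd (nat_lit 6161) (.nd (nat_lit 3396) (.nd (nat_lit 3430) (.nd (nat_lit 3362) (.lf (nat_lit 863)) (.lf (nat_lit 2911))) (.lf (nat_lit 11103))) (.lf (nat_lit 7007))) (.lf (nat_lit 15199)))) (.nd (nat_lit 5336) (.nd (nat_lit 3345) (.nd (nat_lit 3379) (.nd (nat_lit 3413) (.nd (nat_lit 3464) (.nd (nat_lit 5335) (.lf (nat_lit 1887)) (.lf (nat_lit 3935))) (.lf (nat_lit 8031))) (.lf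 (nat_lit 16223))) (.lf (nat_lit 223))) (.lf (nat_lit 2271))) (.nd (nat_lit 5338) (.nd (nat_lit 3396) (.nd (nat_lit 5339) (.lf (nat_lit 1247)) (.lf (nat_lit 3295))) (.lf (nat_lit 735))) (.nd (nat_lit 5335) (.lf (nat_lit 2783)) (.lf (nat_lit 1759)))))) (.nd (nat_lit 7133) (.lf (nat_lit 3807)) (.lf (nat_lit 479))))) (.nd (nat_lit 3549) (.nd (nat_lit 3362) (.nd (nat_lit 3328) (.nd (nat_lit 3379) (.nd (nat_lit 3396) (.nd (nat_lit 3345) (.nd (nat_lit 3430) (.nd (nat_lit 3532) (.nd (nat_lit 3464) (.nd (nat_lit 3413) (.nd (nat_lit 4471) (.lf (nat_lit 2527)) (.lf (nat_lit 1503))) (.lf (nat_lit 3551))) (.nd (nat_lit 5512) (.lf (nat_lit 991)) (.lf (nat_lit 3039)))) (.nd (nat_lit 3413) (.nd (nat_lit 6297) (.lf (nat_lit 2015)) (.lf (nat_lit 4063))) (.lf (nat_lit 8159)))) (.nd (nat_lit 6246) (.lf (nat_lit 63)) (.lf (nat_lit 1087)))) (.nd (nat_lit 5393) (.nd (nat_lit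 3447) (.lf (nat_lit 3135)) (.lf (nat_lit 575))) (.lf (nat_lit 2623)))) (.nd (nat_lit 5444) (.nd (nat_lit 3345) (.nd (nat_lit 3447) (.lf (nat_lit 1599)) (.lf (nat_lit 3647))) (.lf (nat_lit 7743))) (.lf (nat_lit 319)))) (.nd (nat_lit 5529) (.nd (nat_lit 3430) (.nd (nat_lit 5427) (.nd (nat_lit 3532) (.lf (nat_lit 1343)) (.lf (nat_lit 3391))) (.lf (nat_lit 7487))) (.lf (nat_lit 15679))) (.lf (nat_lit 831)))) (.nd (nat_lit 5785) (.nd (nat_lit 5376) (.nd (nat_lit 3447) (.lf (nat_lit 2879)) (.lf (nat_lit 1855))) (.lf (nat_lit 5951))) (.lf (nat_lit 14143)))) (.nd (nat_lit 3328) (.nd (nat_lit 5529) (.nd (nat_lit 5410) (.nd (nat_lit 3532) (.nd (nat_lit 3447) (.nd (nat_lit 3396) (.lf (nat_lit 3903)) (.lf (nat_lit 191))) (.lf (nat_lit 4287))) (.lf (nat_lit 2239))) (.lf (nat_lit 6335))) (.nd (nat_lit 5152) (.lf (nat_lit 1215)) (.lf (nat_lit 3263)))) (.lf (nat_lit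 7359)))) (.nd (nat_lit 3328) (.nd (nat_lit 3362) (.nd (nat_lit 5597) (.nd (nat_lit 3379) (.nd (nat_lit 3345) (.lf (nat_lit 703)) (.lf (nat_lit 1727))) (.lf (nat_lit 5823))) (.lf (nat_lit 14015))) (.lf (nat_lit 3775))) (.lf (nat_lit 7871))))) (.nd (nat_lit 3549) (.nd (nat_lit 3413) (.nd (nat_lit 3328) (.nd (nat_lit 3396) (.nd (nat_lit 3430) (.nd (nat_lit 3362) (.nd (nat_lit 3379) (.nd (nat_lit 3345) (.nd (nat_lit 3464) (.nd (nat_lit 3498) (.nd (nat_lit 3532) (.nd (nat_lit 7355) (.lf (nat_lit 447)) (.lf (nat_lit 1471))) (.lf (nat_lit 3519))) (.lf (nat_lit 959))) (.nd (nat_lit 3532) (.nd (nat_lit 6280) (.lf (nat_lit 3007)) (.lf (nat_lit 1983))) (.lf (nat_lit 6079)))) (.nd (nat_lit 5905) (.nd (nat_lit 3464) (.lf (nat_lit 4031)) (.lf (nat_lit 127))) (.lf (nat_lit 2175)))) (.nd (nat_lit 5427) (.nd (nat_lit 3345) (.nd (nat_lit 3464) (.lf (nat_lit 1151))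 (.lf (nat_lit 3199))) (.lf (nat_lit 7295))) (.lf (nat_lit 15487)))) (.nd (nat_lit 5666) (.nd (nat_lit 3379) (.nd (nat_lit 3345) (.lf (nat_lit 639)) (.lf (nat_lit 1663))) (.lf (nat_lit 5759))) (.lf (nat_lit 13951)))) (.nd (nat_lit 5478) (.nd (nat_lit 3379) (.nd (nat_lit 3362) (.nd (nat_lit 3345) (.nd (nat_lit 3464) (.lf (nat_lit 3711)) (.lf (nat_lit 383))) (.lf (nat_lit 4479))) (.lf (nat_lit 2431))) (.lf (nat_lit 6527))) (.lf (nat_lit 1407)))) (.nd (nat_lit 5444) (.nd (nat_lit 3464) (.nd (nat_lit 3532) (.nd (nat_lit 5083) (.nd (nat_lit 5563) (.nd (nat_lit 3291) (.lf (nat_lit 3455)) (.lf (nat_lit 895))) (.lf (nat_lit 4991))) (.nd (nat_lit 3447) (.nd (nat_lit 3362) (.lf (nat_lit 2943)) (.lf (nat_lit 1919))) (.lf (nat_lit 10111)))) (.lf (nat_lit 6015))) (.lf (nat_lit 14207))) (.nd (nat_lit 5339) (.lf (nat_lit 3967)) (.lf (nat_lit 255))))) (.nd (nat_lit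 5563) (.nd (nat_lit 5632) (.nd (nat_lit 3464) (.nd (nat_lit 3379) (.lf (nat_lit 1279)) (.lf (nat_lit 3327))) (.lf (nat_lit 7423))) (.lf (nat_lit 15615))) (.lf (nat_lit 767)))) (.nd (nat_lit 3328) (.nd (nat_lit 5563) (.nd (nat_lit 4432) (.nd (nat_lit 3362) (.nd (nat_lit 3447) (.lf (nat_lit 1791)) (.lf (nat_lit 3839))) (.lf (nat_lit 7935))) (.nd (nat_lit 3464) (.nd (nat_lit 3430) (.nd (nat_lit 3396) (.nd (nat_lit 3362) (.nd (nat_lit 3532) (.lf (nat_lit 511)) (.lf (nat_lit 1535))) (.lf (nat_lit 9727))) (.lf (nat_lit 5631))) (.lf (nat_lit 13823))) (.lf (nat_lit 30207)))) (.nd (nat_lit 5200) (.lf (nat_lit 3583)) (.lf (nat_lit 1023)))) (.lf (nat_lit 5119)))) (.nd (nat_lit 3328) (.nd (nat_lit 3413) (.nd (nat_lit 5853) (.nd (nat_lit 3396) (.nd (nat_lit 3379) (.nd (nat_lit 3345) (.lf (nat_lit 3071)) (.lf (nat_lit 2047))) (.lf (nat_lit 10239))) (.lf (nat_lit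 6143))) (.lf (nat_lit 14335))) (.lf (nat_lit 4095))) (.lf (nat_lit 8191)))))⟩)))))

def X2 : Tb Job := .nd X1 (.nd (.nd X2t0 X2t1) (.nd X2t2 X2t3))

theorem X2a (h : LeafS lfB) : X2.All RefJ :=
  Tb.All.nd (X1a h) (Tb.All.nd (Tb.All.nd 
  (all_ref h (X1a h) (T := X2t0) (by decide +kernel)) 
  (all_ref h (X1a h) (T := X2t1) (by decide +kernel))) (Tb.All.nd 
  (all_ref h (X1a h) (T := X2t2) (by decide +kernel)) 
  (all_ref h (X1a h) (T := X2t3) (by decide +kernel))))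

def Ix0 : Tb ℕ := (.nd (.nd (.nd (.nd (.nd (.nd (.nd (.nd (.lf (nat_lit 0)) (.lf (nat_lit 1892))) (.lf (nat_lit 1968))) (.nd (.lf (nat_lit 0x1d030)) (.lf (nat_lit 5412)))) (.nd (.nd (.lf (nat_lit 26112)) (.lf (nat_lit 21540))) (.nd (.lf (nat_lit 29232)) (.lf (nat_lit 2468))))) (.nd (.nd (.nd (.nd (.lf (nat_lit 54272)) (.lf (nat_lit 107))) (.lf (nat_lit 245))) (.nd (.lf (nat_lit 5168)) (.lf (nat_lit 22308)))) (.nd (.nd (.lf (nat_lit 7936)) (.lf (nat_lit 14884))) (.nd (.lf (nat_lit 11824)) (.lf (nat_lit 15460)))))) (.nd (.nd (.nd (.nd (.nd (.lf (nat_lit 26624)) (.lf (nat_lit 125))) (.lf (nat_lit 3952))) (.nd (.lf (nat_lit 6192)) (.lf (nat_lit 62244)))) (.nd (.nd (.lf (nat_lit 8960)) (.lf (nat_lit 57892))) (.nd (.lf (nat_lit 1584)) (.lf (nat_lit 16292))))) (.nd (.nd (.nd (.nd (.lf (nat_lit 512)) (.lf (nat_lit 1036))) (.lf (nat_lit 20516))) (.nd (.lf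 (nat_lit 15408)) (.lf (nat_lit 1188)))) (.nd (.nd (.lf (nat_lit 976)) (.lf (nat_lit 28196))) (.nd (.lf (nat_lit 11056)) (.lf (nat_lit 6500))))))) (.nd (.nd (.nd (.nd (.nd (.nd (.lf (nat_lit 53248)) (.lf (nat_lit 7908))) (.lf (nat_lit 2160))) (.nd (.lf (nat_lit 18480)) (.lf (nat_lit 8996)))) (.nd (.nd (.lf (nat_lit 7680)) (.lf (nat_lit 23588))) (.nd (.lf (nat_lit 59952)) (.lf (nat_lit 7076))))) (.nd (.nd (.nd (.nd (.lf (nat_lit 27648)) (.lf (nat_lit 2804))) (.lf (nat_lit 4036))) (.nd (.lf (nat_lit 19504)) (.lf (nat_lit 24356)))) (.nd (.nd (.lf (nat_lit 320)) (.lf (nat_lit 5668))) (.nd (.lf (nat_lit 5424)) (.lf (nat_lit 1636)))))) (.nd (.nd (.nd (.nd (.nd (.lf (nat_lit 1024)) (.lf (nat_lit 83))) (.lf (nat_lit 69))) (.nd (.lf (nat_lit 63536)) (.lf (nat_lit 56100)))) (.nd (.nd (.lf (nat_lit 27392)) (.lf (nat_lit 18980))) (.nd (.lf (nat_lit 38448)) (.lf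 (nat_lit 25700))))) (.nd (.nd (.nd (.lf (nat_lit 10752)) (.lf (nat_lit 22564))) (.nd (.lf (nat_lit 41520)) (.lf (nat_lit 2724)))) (.nd (.nd (.lf (nat_lit 41008)) (.lf (nat_lit 292))) (.nd (.lf (nat_lit 22320)) (.lf (nat_lit 23908)))))))) (.nd (.nd (.nd (.nd (.nd (.nd (.nd (.lf (nat_lit 24576)) (.lf (nat_lit 6884))) (.lf (nat_lit 16304))) (.nd (.lf (nat_lit 61488)) (.lf (nat_lit 7460)))) (.nd (.nd (.lf (nat_lit 30208)) (.lf (nat_lit 19492))) (.nd (.lf (nat_lit 51760)) (.lf (nat_lit 7588))))) (.nd (.nd (.nd (.nd (.lf (nat_lit 3072)) (.lf (nat_lit 91))) (.lf (nat_lit 45))) (.nd (.lf (nat_lit 46128)) (.lf (nat_lit 20260)))) (.nd (.nd (.lf (nat_lit 384)) (.lf (nat_lit 17956))) (.nd (.lf (nat_lit 304)) (.lf (nat_lit 2660)))))) (.nd (.nd (.nd (.nd (.nd (.lf (nat_lit 55296)) (.lf (nat_lit 35))) (.lf (nat_lit 57))) (.nd (.lf (nat_lit 0x1d830)) (.lf (nat_lit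 27428)))) (.nd (.nd (.lf (nat_lit 13056)) (.lf (nat_lit 12836))) (.nd (.lf (nat_lit 42544)) (.lf (nat_lit 6244))))) (.nd (.nd (.nd (.nd (.lf (nat_lit 20992)) (.lf (nat_lit 2828))) (.lf (nat_lit 18468))) (.nd (.lf (nat_lit 560)) (.lf (nat_lit 15524)))) (.nd (.nd (.lf (nat_lit 32816)) (.lf (nat_lit 56868))) (.nd (.lf (nat_lit 1840)) (.lf (nat_lit 3428))))))) (.nd (.nd (.nd (.nd (.nd (.nd (.lf (nat_lit 2048)) (.lf (nat_lit 29))) (.lf (nat_lit 3696))) (.nd (.lf (nat_lit 43056)) (.lf (nat_lit 21284)))) (.nd (.nd (.lf (nat_lit 256)) (.lf (nat_lit 16932))) (.nd (.lf (nat_lit 14896)) (.lf (nat_lit 14244))))) (.nd (.nd (.nd (.nd (.lf (nat_lit 56320)) (.lf (nat_lit 1012))) (.lf (nat_lit 16420))) (.nd (.lf (nat_lit 60464)) (.lf (nat_lit 4260)))) (.nd (.nd (.lf (nat_lit 225)) (.lf (nat_lit 63012))) (.nd (.lf (nat_lit 9008)) (.lf (nat_lit 3684)))))) (.nd (.nd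 (.nd (.nd (.nd (.lf (nat_lit 25600)) (.lf (nat_lit 243))) (.lf (nat_lit 21))) (.nd (.lf (nat_lit 50224)) (.lf (nat_lit 1828)))) (.nd (.nd (.lf (nat_lit 31488)) (.lf (nat_lit 59940))) (.nd (.lf (nat_lit 46640)) (.lf (nat_lit 29796))))) (.nd (.nd (.nd (.lf (nat_lit 14848)) (.lf (nat_lit 17444))) (.nd (.lf (nat_lit 21040)) (.lf (nat_lit 3748)))) (.nd (.nd (.lf (nat_lit 4144)) (.lf (nat_lit 10532))) (.nd (.lf (nat_lit 7984)) (.lf (nat_lit 4964)))))))))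

def Ix1 : Tb ℕ := (.nd (.nd (.nd (.nd (.nd (.nd (.nd (.nd (.lf (nat_lit 49152)) (.lf (nat_lit 237))) (.lf (nat_lit 12208))) (.nd (.lf (nat_lit 45104)) (.lf (nat_lit 3364)))) (.nd (.nd (.lf (nat_lit 22016)) (.lf (nat_lit 29732))) (.nd (.lf (nat_lit 2608)) (.lf (nat_lit 1444))))) (.nd (.nd (.nd (.nd (.lf (nat_lit 29696)) (.lf (nat_lit 235))) (.lf (nat_lit 388))) (.nd (.lf (nat_lit 54320)) (.lf (nat_lit 30500)))) (.nd (.nd (.lf (nat_lit 128)) (.lf (nat_lit 64036))) (.nd (.lf (nat_lit 15920)) (.lf (nat_lit 4708)))))) (.nd (.nd (.nd (.nd (.nd (.lf (nat_lit 6144)) (.lf (nat_lit 3))) (.lf (nat_lit 25))) (.nd (.lf (nat_lit 22576)) (.lf (nat_lit 19236)))) (.nd (.nd (.lf (nat_lit 4864)) (.lf (nat_lit 21028))) (.nd (.lf (nat_lit 50736)) (.lf (nat_lit 4196))))) (.nd (.nd (.nd (.nd (.lf (nat_lit 25088)) (.lf (nat_lit 23))) (.lf (nat_lit 28708))) (.nd (.lf (nat_lit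 31792)) (.lf (nat_lit 3236)))) (.nd (.nd (.lf (nat_lit 4048)) (.lf (nat_lit 7716))) (.nd (.lf (nat_lit 15152)) (.lf (nat_lit 5476))))))) (.nd (.nd (.nd (.nd (.nd (.nd (.lf (nat_lit 28672)) (.lf (nat_lit 1508))) (.lf (nat_lit 241))) (.nd (.lf (nat_lit 0x1c830)) (.lf (nat_lit 58148)))) (.nd (.nd (.lf (nat_lit 15872)) (.lf (nat_lit 31780))) (.nd (.lf (nat_lit 23088)) (.lf (nat_lit 10148))))) (.nd (.nd (.nd (.nd (.lf (nat_lit 7168)) (.lf (nat_lit 123))) (.lf (nat_lit 8132))) (.nd (.lf (nat_lit 11312)) (.lf (nat_lit 32548)))) (.nd (.nd (.lf (nat_lit 97)) (.lf (nat_lit 13860))) (.nd (.lf (nat_lit 7472)) (.lf (nat_lit 5732)))))) (.nd (.nd (.nd (.nd (.nd (.lf (nat_lit 50176)) (.lf (nat_lit 5300))) (.lf (nat_lit 101))) (.nd (.lf (nat_lit 1072)) (.lf (nat_lit 31524)))) (.nd (.nd (.lf (nat_lit 23296)) (.lf (nat_lit 10788))) (.nd (.lf (nat_lit 54832)) (.lf (nat_lit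 21604))))) (.nd (.nd (.nd (.lf (nat_lit 6656)) (.lf (nat_lit 30756))) (.nd (.lf (nat_lit 57904)) (.lf (nat_lit 15012)))) (.nd (.nd (.lf (nat_lit 57392)) (.lf (nat_lit 12580))) (.nd (.lf (nat_lit 30512)) (.lf (nat_lit 32100)))))))) (.nd (.nd (.nd (.nd (.nd (.nd (.nd (.lf (nat_lit 4096)) (.lf (nat_lit 1764))) (.lf (nat_lit 112))) (.nd (.lf (nat_lit 2096)) (.lf (nat_lit 804)))) (.nd (.nd (.lf (nat_lit 11776)) (.lf (nat_lit 27684))) (.nd (.lf (nat_lit 43568)) (.lf (nat_lit 5028))))) (.nd (.nd (.nd (.nd (.lf (nat_lit 52224)) (.lf (nat_lit 3316))) (.lf (nat_lit 2884))) (.nd (.lf (nat_lit 62512)) (.lf (nat_lit 28452)))) (.nd (.nd (.lf (nat_lit 65)) (.lf (nat_lit 26148))) (.nd (.lf (nat_lit 6448)) (.lf (nat_lit 6756)))))) (.nd (.nd (.nd (.nd (.nd (.lf (nat_lit 30720)) (.lf (nat_lit 227))) (.lf (nat_lit 249))) (.nd (.lf (nat_lit 47152)) (.lf (nat_lit 6948))))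 (.nd (.nd (.lf (nat_lit 2816)) (.lf (nat_lit 61988))) (.nd (.lf (nat_lit 58928)) (.lf (nat_lit 1124))))) (.nd (.nd (.nd (.lf (nat_lit 29184)) (.lf (nat_lit 26660))) (.nd (.lf (nat_lit 49712)) (.lf (nat_lit 4772)))) (.nd (.nd (.lf (nat_lit 49200)) (.lf (nat_lit 32292))) (.nd (.lf (nat_lit 26416)) (.lf (nat_lit 28004))))))) (.nd (.nd (.nd (.nd (.nd (.nd (.lf (nat_lit 51200)) (.lf (nat_lit 93))) (.lf (nat_lit 41))) (.nd (.lf (nat_lit 59440)) (.lf (nat_lit 13092)))) (.nd (.nd (.lf (nat_lit 3328)) (.lf (nat_lit 8740))) (.nd (.lf (nat_lit 31280)) (.lf (nat_lit 12196))))) (.nd (.nd (.nd (.nd (.lf (nat_lit 31744)) (.lf (nat_lit 7))) (.lf (nat_lit 24612))) (.nd (.lf (nat_lit 23600)) (.lf (nat_lit 6308)))) (.nd (.nd (.lf (nat_lit 81)) (.lf (nat_lit 20004))) (.nd (.lf (nat_lit 13104)) (.lf (nat_lit 356)))))) (.nd (.nd (.nd (.nd (.nd (.lf (nat_lit 5120)) (.lf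 (nat_lit 75))) (.lf (nat_lit 53))) (.nd (.lf (nat_lit 25648)) (.lf (nat_lit 26404)))) (.nd (.nd (.lf (nat_lit 5888)) (.lf (nat_lit 23076))) (.nd (.lf (nat_lit 63024)) (.lf (nat_lit 11364))))) (.nd (.nd (.nd (.lf (nat_lit 1536)) (.lf (nat_lit 25636))) (.nd (.lf (nat_lit 12848)) (.lf (nat_lit 420)))) (.nd (.nd (.lf (nat_lit 20528)) (.lf (nat_lit 14628))) (.nd (.lf (nat_lit 176)) (.lf (nat_lit 2916)))))))))

def Ix2 : Tb ℕ := (.nd (.nd (.nd (.nd (.nd (.nd (.nd (.nd (.lf (nat_lit 16384)) (.lf (nat_lit 3940))) (.lf (nat_lit 4016))) (.nd (.lf (nat_lit 12336)) (.lf (nat_lit 13604)))) (.nd (.nd (.lf (nat_lit 5632)) (.lf (nat_lit 13348))) (.nd (.lf (nat_lit 62000)) (.lf (nat_lit 6564))))) (.nd (.nd (.nd (.nd (.lf (nat_lit 13312)) (.lf (nat_lit 372))) (.lf (nat_lit 13))) (.nd (.lf (nat_lit 21552)) (.lf (nat_lit 14116)))) (.nd (.nd (.lf (nat_lit 16128)) (.lf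 (nat_lit 31268))) (.nd (.lf (nat_lit 7728)) (.lf (nat_lit 612)))))) (.nd (.nd (.nd (.nd (.nd (.lf (nat_lit 59392)) (.lf (nat_lit 253))) (.lf (nat_lit 233))) (.nd (.lf (nat_lit 38960)) (.lf (nat_lit 2852)))) (.nd (.nd (.lf (nat_lit 25344)) (.lf (nat_lit 4644))) (.nd (.lf (nat_lit 17968)) (.lf (nat_lit 100))))) (.nd (.nd (.nd (.nd (.lf (nat_lit 8704)) (.lf (nat_lit 39))) (.lf (nat_lit 12324))) (.nd (.lf (nat_lit 48176)) (.lf (nat_lit 5284)))) (.nd (.nd (.lf (nat_lit 2000)) (.lf (nat_lit 60964))) (.nd (.lf (nat_lit 6960)) (.lf (nat_lit 1380))))))) (.nd (.nd (.nd (.nd (.nd (.nd (.lf (nat_lit 12288)) (.lf (nat_lit 484))) (.lf (nat_lit 1136))) (.nd (.lf (nat_lit 51248)) (.lf (nat_lit 25380)))) (.nd (.nd (.lf (nat_lit 24064)) (.lf (nat_lit 15396))) (.nd (.lf (nat_lit 6704)) (.lf (nat_lit 1956))))) (.nd (.nd (.nd (.nd (.lf (nat_lit 60416)) (.lf (nat_lit 59)))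 (.lf (nat_lit 127))) (.nd (.lf (nat_lit 52272)) (.lf (nat_lit 16164)))) (.nd (.nd (.lf (nat_lit 33)) (.lf (nat_lit 22052))) (.nd (.lf (nat_lit 3376)) (.lf (nat_lit 9828)))))) (.nd (.nd (.nd (.nd (.nd (.lf (nat_lit 17408)) (.lf (nat_lit 51))) (.lf (nat_lit 37))) (.nd (.lf (nat_lit 0x1f830)) (.lf (nat_lit 15140)))) (.nd (.nd (.lf (nat_lit 6912)) (.lf (nat_lit 51748))) (.nd (.lf (nat_lit 22064)) (.lf (nat_lit 5220))))) (.nd (.nd (.nd (.lf (nat_lit 27136)) (.lf (nat_lit 14372))) (.nd (.lf (nat_lit 25136)) (.lf (nat_lit 6820)))) (.nd (.nd (.lf (nat_lit 24624)) (.lf (nat_lit 4388))) (.nd (.lf (nat_lit 14128)) (.lf (nat_lit 15716)))))))) (.nd (.nd (.nd (.nd (.nd (.nd (.nd (.lf (nat_lit 57344)) (.lf (nat_lit 15076))) (.lf (nat_lit 32688))) (.nd (.lf (nat_lit 0x1f030)) (.lf (nat_lit 15652)))) (.nd (.nd (.lf (nat_lit 3584)) (.lf (nat_lit 11300))) (.nd (.lf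 (nat_lit 10800)) (.lf (nat_lit 932))))) (.nd (.nd (.nd (.nd (.lf (nat_lit 19456)) (.lf (nat_lit 1268))) (.lf (nat_lit 836))) (.nd (.lf (nat_lit 29744)) (.lf (nat_lit 12068)))) (.nd (.nd (.lf (nat_lit 1)) (.lf (nat_lit 9764))) (.nd (.lf (nat_lit 2352)) (.lf (nat_lit 10852)))))) (.nd (.nd (.nd (.nd (.nd (.lf (nat_lit 14336)) (.lf (nat_lit 99))) (.lf (nat_lit 121))) (.nd (.lf (nat_lit 14384)) (.lf (nat_lit 60196)))) (.nd (.nd (.lf (nat_lit 29440)) (.lf (nat_lit 29220))) (.nd (.lf (nat_lit 26160)) (.lf (nat_lit 14436))))) (.nd (.nd (.nd (.nd (.lf (nat_lit 12800)) (.lf (nat_lit 55))) (.lf (nat_lit 10276))) (.nd (.lf (nat_lit 16944)) (.lf (nat_lit 676)))) (.nd (.nd (.lf (nat_lit 16432)) (.lf (nat_lit 15908))) (.nd (.lf (nat_lit 10032)) (.lf (nat_lit 11620))))))) (.nd (.nd (.nd (.nd (.nd (.nd (.lf (nat_lit 18432)) (.lf (nat_lit 2020))) (.lf (nat_lit 73)))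 (.nd (.lf (nat_lit 26672)) (.lf (nat_lit 54052)))) (.nd (.nd (.lf (nat_lit 1280)) (.lf (nat_lit 49700))) (.nd (.lf (nat_lit 47664)) (.lf (nat_lit 4004))))) (.nd (.nd (.nd (.nd (.lf (nat_lit 15360)) (.lf (nat_lit 251))) (.lf (nat_lit 8228))) (.nd (.lf (nat_lit 7216)) (.lf (nat_lit 2212)))) (.nd (.nd (.lf (nat_lit 17)) (.lf (nat_lit 3620))) (.nd (.lf (nat_lit 4912)) (.lf (nat_lit 7780)))))) (.nd (.nd (.nd (.nd (.nd (.lf (nat_lit 58368)) (.lf (nat_lit 11))) (.lf (nat_lit 85))) (.nd (.lf (nat_lit 9264)) (.lf (nat_lit 10020)))) (.nd (.nd (.lf (nat_lit 1792)) (.lf (nat_lit 6692))) (.nd (.lf (nat_lit 30256)) (.lf (nat_lit 3172))))) (.nd (.nd (.nd (.lf (nat_lit 31232)) (.lf (nat_lit 9252))) (.nd (.lf (nat_lit 53808)) (.lf (nat_lit 7844)))) (.nd (.nd (.lf (nat_lit 36912)) (.lf (nat_lit 6436))) (.nd (.lf (nat_lit 16176)) (.lf (nat_lit 13156)))))))))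

def Ix3 : Tb ℕ := (.nd (.nd (.nd (.nd (.nd (.nd (.nd (.nd (.lf (nat_lit 8192)) (.lf (nat_lit 2788))) (.lf (nat_lit 8112))) (.nd (.lf (nat_lit 28720)) (.lf (nat_lit 11556)))) (.nd (.nd (.lf (nat_lit 13824)) (.lf (nat_lit 3108))) (.nd (.lf (nat_lit 18992)) (.lf (nat_lit 3492))))) (.nd (.nd (.nd (.nd (.lf (nat_lit 62464)) (.lf (nat_lit 27))) (.lf (nat_lit 77))) (.nd (.lf (nat_lit 13360)) (.lf (nat_lit 3876)))) (.nd (.nd (.lf (nat_lit 640)) (.lf (nat_lit 1572))) (.nd (.lf (nat_lit 32304)) (.lf (nat_lit 12900)))))) (.nd (.nd (.nd (.nd (.nd (.lf (nat_lit 22528)) (.lf (nat_lit 67))) (.lf (nat_lit 89))) (.nd (.lf (nat_lit 55344)) (.lf (nat_lit 11044)))) (.nd (.nd (.lf (nat_lit 21248)) (.lf (nat_lit 53796))) (.nd (.lf (nat_lit 9776)) (.lf (nat_lit 2148))))) (.nd (.nd (.nd (.nd (.lf (nat_lit 4608)) (.lf (nat_lit 780))) (.lf (nat_lit 2084))) (.nd (.lf (nat_lit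 64560)) (.lf (nat_lit 7332)))) (.nd (.nd (.lf (nat_lit 48)) (.lf (nat_lit 24100))) (.nd (.lf (nat_lit 31536)) (.lf (nat_lit 13668))))))) (.nd (.nd (.nd (.nd (.nd (.nd (.lf (nat_lit 61440)) (.lf (nat_lit 3556))) (.lf (nat_lit 9))) (.nd (.lf (nat_lit 10288)) (.lf (nat_lit 4900)))) (.nd (.nd (.lf (nat_lit 32256)) (.lf (nat_lit 548))) (.nd (.lf (nat_lit 55856)) (.lf (nat_lit 6052))))) (.nd (.nd (.nd (.nd (.lf (nat_lit 23552)) (.lf (nat_lit 3572))) (.lf (nat_lit 36))) (.nd (.lf (nat_lit 27696)) (.lf (nat_lit 164)))) (.nd (.nd (.lf (nat_lit 1728)) (.lf (nat_lit 30244))) (.nd (.lf (nat_lit 816)) (.lf (nat_lit 13924)))))) (.nd (.nd (.nd (.nd (.nd (.lf (nat_lit 9216)) (.lf (nat_lit 115))) (.lf (nat_lit 229))) (.nd (.lf (nat_lit 17456)) (.lf (nat_lit 64292)))) (.nd (.nd (.lf (nat_lit 15104)) (.lf (nat_lit 27172))) (.nd (.lf (nat_lit 13872)) (.lf (nat_lit 13412)))))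 (.nd (.nd (.nd (.lf (nat_lit 23040)) (.lf (nat_lit 1060))) (.nd (.lf (nat_lit 4656)) (.lf (nat_lit 1700)))) (.nd (.nd (.lf (nat_lit 0x1e030)) (.lf (nat_lit 2340))) (.nd (.lf (nat_lit 3888)) (.lf (nat_lit 868)))))))) (.nd (.nd (.nd (.nd (.nd (.nd (.nd (.lf (nat_lit 20480)) (.lf (nat_lit 3812))) (.lf (nat_lit 4208))) (.nd (.lf (nat_lit 34864)) (.lf (nat_lit 17188)))) (.nd (.nd (.lf (nat_lit 28160)) (.lf (nat_lit 7204))) (.nd (.lf (nat_lit 27184)) (.lf (nat_lit 2980))))) (.nd (.nd (.nd (.nd (.lf (nat_lit 11264)) (.lf (nat_lit 756))) (.lf (nat_lit 109))) (.nd (.lf (nat_lit 3120)) (.lf (nat_lit 7972)))) (.nd (.nd (.lf (nat_lit 3648)) (.lf (nat_lit 58916))) (.nd (.lf (nat_lit 1328)) (.lf (nat_lit 14948)))))) (.nd (.nd (.nd (.nd (.nd (.lf (nat_lit 63488)) (.lf (nat_lit 19))) (.lf (nat_lit 5))) (.nd (.lf (nat_lit 30768)) (.lf (nat_lit 23332)))) (.nd (.nd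 (.lf (nat_lit 11008)) (.lf (nat_lit 2596))) (.nd (.lf (nat_lit 5680)) (.lf (nat_lit 9316))))) (.nd (.nd (.nd (.lf (nat_lit 2560)) (.lf (nat_lit 6180))) (.nd (.lf (nat_lit 8752)) (.lf (nat_lit 12964)))) (.nd (.nd (.lf (nat_lit 8240)) (.lf (nat_lit 65060))) (.nd (.lf (nat_lit 5936)) (.lf (nat_lit 7524))))))) (.nd (.nd (.nd (.nd (.nd (.nd (.lf (nat_lit 10240)) (.lf (nat_lit 61))) (.lf (nat_lit 105))) (.nd (.lf (nat_lit 0x1e830)) (.lf (nat_lit 29476)))) (.nd (.nd (.lf (nat_lit 768)) (.lf (nat_lit 25124))) (.nd (.lf (nat_lit 64048)) (.lf (nat_lit 8100))))) (.nd (.nd (.nd (.nd (.lf (nat_lit 64512)) (.lf (nat_lit 2060))) (.lf (nat_lit 4132))) (.nd (.lf (nat_lit 56368)) (.lf (nat_lit 14500)))) (.nd (.nd (.lf (nat_lit 49)) (.lf (nat_lit 11812))) (.nd (.lf (nat_lit 2864)) (.lf (nat_lit 2404)))))) (.nd (.nd (.nd (.nd (.nd (.lf (nat_lit 21504)) (.lf (nat_lit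 43))) (.lf (nat_lit 117))) (.nd (.lf (nat_lit 58416)) (.lf (nat_lit 5924)))) (.nd (.nd (.lf (nat_lit 3840)) (.lf (nat_lit 55844))) (.nd (.lf (nat_lit 3632)) (.lf (nat_lit 7268))))) (.nd (.nd (.nd (.lf (nat_lit 9728)) (.lf (nat_lit 5156))) (.nd (.lf (nat_lit 45616)) (.lf (nat_lit 4516)))) (.nd (.nd (.lf (nat_lit 53296)) (.lf (nat_lit 1316))) (.nd (.lf (nat_lit 113)) (.lf (nat_lit 7012)))))))))

def Ix4 : Tb ℕ := (.nd (.nd (.nd (.nd (.nd (.nd (.nd (.nd (.lf (nat_lit 92)) (.lf (nat_lit 48746))) (.lf (nat_lit 21010))) (.nd (.lf (nat_lit 5122)) (.lf (nat_lit 63858)))) (.nd (.nd (.lf (nat_lit 10428)) (.lf (nat_lit 16850))) (.nd (.lf (nat_lit 30882)) (.lf (nat_lit 9034))))) (.nd (.nd (.nd (.lf (nat_lit 42460)) (.lf (nat_lit 29586))) (.nd (.lf (nat_lit 15042)) (.lf (nat_lit 32754)))) (.nd (.nd (.lf (nat_lit 54652)) (.lf (nat_lit 7986))) (.nd (.lf (nat_lit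 41826)) (.lf (nat_lit 48298)))))) (.nd (.nd (.nd (.nd (.nd (.lf (nat_lit 52060)) (.lf (nat_lit 19434))) (.lf (nat_lit 28434))) (.nd (.lf (nat_lit 28034)) (.lf (nat_lit 31474)))) (.nd (.nd (.lf (nat_lit 56252)) (.lf (nat_lit 5170))) (.nd (.lf (nat_lit 64418)) (.lf (nat_lit 25898))))) (.nd (.nd (.nd (.lf (nat_lit 30268)) (.lf (nat_lit 30034))) (.nd (.lf (nat_lit 32290)) (.lf (nat_lit 650)))) (.nd (.nd (.lf (nat_lit 12028)) (.lf (nat_lit 29618))) (.nd (.lf (nat_lit 43490)) (.lf (nat_lit 55210))))))) (.nd (.nd (.nd (.nd (.nd (.nd (.lf (nat_lit 20828)) (.lf (nat_lit 58218))) (.lf (nat_lit 46354))) (.nd (.lf (nat_lit 9346)) (.lf (nat_lit 59250)))) (.nd (.nd (.lf (nat_lit 18876)) (.lf (nat_lit 54226))) (.nd (.lf (nat_lit 59810)) (.lf (nat_lit 15306))))) (.nd (.nd (.nd (.lf (nat_lit 30684)) (.lf (nat_lit 594))) (.nd (.lf (nat_lit 30658)) (.lf (nat_lit 6410))))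 (.nd (.nd (.lf (nat_lit 53116)) (.lf (nat_lit 8626))) (.nd (.lf (nat_lit 22754)) (.lf (nat_lit 14762)))))) (.nd (.nd (.nd (.nd (.nd (.lf (nat_lit 7388)) (.lf (nat_lit 11802))) (.lf (nat_lit 32402))) (.nd (.lf (nat_lit 2370)) (.lf (nat_lit 60914)))) (.nd (.nd (.lf (nat_lit 25212)) (.lf (nat_lit 9522))) (.nd (.lf (nat_lit 30306)) (.lf (nat_lit 3882))))) (.nd (.nd (.nd (.lf (nat_lit 828)) (.lf (nat_lit 8018))) (.nd (.lf (nat_lit 58146)) (.lf (nat_lit 10122)))) (.nd (.nd (.lf (nat_lit 17404)) (.lf (nat_lit 29810))) (.nd (.lf (nat_lit 48098)) (.lf (nat_lit 11370)))))))) (.nd (.nd (.nd (.nd (.nd (.nd (.nd (.lf (nat_lit 21084)) (.lf (nat_lit 17770))) (.lf (nat_lit 4370))) (.nd (.lf (nat_lit 7426)) (.lf (nat_lit 50034)))) (.nd (.nd (.lf (nat_lit 15036)) (.lf (nat_lit 26066))) (.nd (.lf (nat_lit 5794)) (.lf (nat_lit 714))))) (.nd (.nd (.nd (.lf (nat_lit 21468))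 (.lf (nat_lit 8082))) (.nd (.lf (nat_lit 26050)) (.lf (nat_lit 4618)))) (.nd (.nd (.lf (nat_lit 29564)) (.lf (nat_lit 15538))) (.nd (.lf (nat_lit 22370)) (.lf (nat_lit 63146)))))) (.nd (.nd (.nd (.nd (.nd (.lf (nat_lit 61276)) (.lf (nat_lit 20458))) (.lf (nat_lit 27794))) (.nd (.lf (nat_lit 32642)) (.lf (nat_lit 51698)))) (.nd (.nd (.lf (nat_lit 32700)) (.lf (nat_lit 11826))) (.nd (.lf (nat_lit 12386)) (.lf (nat_lit 13098))))) (.nd (.nd (.nd (.lf (nat_lit 14652)) (.lf (nat_lit 11090))) (.nd (.lf (nat_lit 9506)) (.lf (nat_lit 10634)))) (.nd (.nd (.lf (nat_lit 31228)) (.lf (nat_lit 53170))) (.nd (.lf (nat_lit 40418)) (.lf (nat_lit 61546))))))) (.nd (.nd (.nd (.nd (.nd (.nd (.lf (nat_lit 30044)) (.lf (nat_lit 2538))) (.lf (nat_lit 19218))) (.nd (.lf (nat_lit 13954)) (.lf (nat_lit 26866)))) (.nd (.nd (.lf (nat_lit 28092)) (.lf (nat_lit 63442))) (.nd (.lf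 (nat_lit 56738)) (.lf (nat_lit 11818))))) (.nd (.nd (.nd (.lf (nat_lit 25660)) (.lf (nat_lit 20818))) (.nd (.lf (nat_lit 7202)) (.lf (nat_lit 30474)))) (.nd (.nd (.lf (nat_lit 13564)) (.lf (nat_lit 21938))) (.nd (.lf (nat_lit 9954)) (.lf (nat_lit 25514)))))) (.nd (.nd (.nd (.nd (.lf (nat_lit 476)) (.lf (nat_lit 58770))) (.nd (.lf (nat_lit 10434)) (.lf (nat_lit 56306)))) (.nd (.nd (.lf (nat_lit 24956)) (.lf (nat_lit 62258))) (.nd (.lf (nat_lit 63842)) (.lf (nat_lit 59562))))) (.nd (.nd (.nd (.lf (nat_lit 42812)) (.lf (nat_lit 23762))) (.nd (.lf (nat_lit 14114)) (.lf (nat_lit 2634)))) (.nd (.nd (.lf (nat_lit 26620)) (.lf (nat_lit 28274))) (.nd (.lf (nat_lit 18)) (.lf (nat_lit 6762)))))))))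

def Ix5 : Tb ℕ := (.nd (.nd (.nd (.nd (.nd (.nd (.nd (.nd (.lf (nat_lit 25692)) (.lf (nat_lit 61802))) (.lf (nat_lit 30226))) (.nd (.lf (nat_lit 3586)) (.lf (nat_lit 19826)))) (.nd (.nd (.lf (nat_lit 7356)) (.lf (nat_lit 10706))) (.nd (.lf (nat_lit 8866)) (.lf (nat_lit 32586))))) (.nd (.nd (.nd (.lf (nat_lit 60892)) (.lf (nat_lit 51090))) (.nd (.lf (nat_lit 450)) (.lf (nat_lit 9226)))) (.nd (.nd (.lf (nat_lit 15740)) (.lf (nat_lit 6322))) (.nd (.lf (nat_lit 60258)) (.lf (nat_lit 27306)))))) (.nd (.nd (.nd (.nd (.nd (.lf (nat_lit 42844)) (.lf (nat_lit 0x1bbea))) (.lf (nat_lit 2194))) (.nd (.lf (nat_lit 23426)) (.lf (nat_lit 498)))) (.nd (.nd (.lf (nat_lit 47036)) (.lf (nat_lit 29234))) (.nd (.lf (nat_lit 20386)) (.lf (nat_lit 23850))))) (.nd (.nd (.nd (.lf (nat_lit 20796)) (.lf (nat_lit 850))) (.nd (.lf (nat_lit 18722)) (.lf (nat_lit 13962)))) (.nd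 (.nd (.lf (nat_lit 12796)) (.lf (nat_lit 1970))) (.nd (.lf (nat_lit 58850)) (.lf (nat_lit 49066))))))) (.nd (.nd (.nd (.nd (.nd (.nd (.lf (nat_lit 14684)) (.lf (nat_lit 64362))) (.lf (nat_lit 64786))) (.nd (.lf (nat_lit 4738)) (.lf (nat_lit 40818)))) (.nd (.nd (.lf (nat_lit 9660)) (.lf (nat_lit 48082))) (.nd (.lf (nat_lit 21922)) (.lf (nat_lit 13354))))) (.nd (.nd (.nd (.lf (nat_lit 60)) (.lf (nat_lit 13906))) (.nd (.lf (nat_lit 10274)) (.lf (nat_lit 8970)))) (.nd (.nd (.lf (nat_lit 4348)) (.lf (nat_lit 59826))) (.nd (.lf (nat_lit 31970)) (.lf (nat_lit 19882)))))) (.nd (.nd (.nd (.nd (.lf (nat_lit 15068)) (.lf (nat_lit 51602))) (.nd (.lf (nat_lit 6978)) (.lf (nat_lit 5106)))) (.nd (.nd (.lf (nat_lit 22140)) (.lf (nat_lit 23858))) (.nd (.lf (nat_lit 12642)) (.lf (nat_lit 49322))))) (.nd (.nd (.nd (.lf (nat_lit 52028)) (.lf (nat_lit 26834))) (.nd (.lf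 (nat_lit 23330)) (.lf (nat_lit 2122)))) (.nd (.nd (.lf (nat_lit 11260)) (.lf (nat_lit 10866))) (.nd (.lf (nat_lit 63458)) (.lf (nat_lit 25194)))))))) (.nd (.nd (.nd (.nd (.nd (.nd (.nd (.lf (nat_lit 30300)) (.lf (nat_lit 11626))) (.lf (nat_lit 55570))) (.nd (.lf (nat_lit 16130)) (.lf (nat_lit 43890)))) (.nd (.nd (.lf (nat_lit 32444)) (.lf (nat_lit 7634))) (.nd (.lf (nat_lit 41378)) (.lf (nat_lit 4554))))) (.nd (.nd (.nd (.lf (nat_lit 15324)) (.lf (nat_lit 6226))) (.nd (.lf (nat_lit 21442)) (.lf (nat_lit 30218)))) (.nd (.nd (.lf (nat_lit 1916)) (.lf (nat_lit 9906))) (.nd (.lf (nat_lit 57186)) (.lf (nat_lit 57770)))))) (.nd (.nd (.nd (.nd (.nd (.lf (nat_lit 10460)) (.lf (nat_lit 1050))) (.lf (nat_lit 23186))) (.nd (.lf (nat_lit 4674)) (.lf (nat_lit 42482)))) (.nd (.nd (.lf (nat_lit 1148)) (.lf (nat_lit 61746))) (.nd (.lf (nat_lit 15458)) (.lf (nat_lit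 31530))))) (.nd (.nd (.nd (.lf (nat_lit 30012)) (.lf (nat_lit 26450))) (.nd (.lf (nat_lit 27938)) (.lf (nat_lit 15754)))) (.nd (.nd (.lf (nat_lit 3580)) (.lf (nat_lit 20594))) (.nd (.lf (nat_lit 54242)) (.lf (nat_lit 17514))))))) (.nd (.nd (.nd (.nd (.nd (.nd (.lf (nat_lit 860)) (.lf (nat_lit 25578))) (.lf (nat_lit 10002))) (.nd (.lf (nat_lit 2434)) (.lf (nat_lit 23794)))) (.nd (.nd (.lf (nat_lit 5052)) (.lf (nat_lit 50))) (.nd (.lf (nat_lit 45986)) (.lf (nat_lit 18730))))) (.nd (.nd (.nd (.lf (nat_lit 21052)) (.lf (nat_lit 14674))) (.nd (.lf (nat_lit 14882)) (.lf (nat_lit 6282)))) (.nd (.nd (.lf (nat_lit 2812)) (.lf (nat_lit 15794))) (.nd (.lf (nat_lit 49634)) (.lf (nat_lit 7082)))))) (.nd (.nd (.nd (.nd (.lf (nat_lit 51676)) (.lf (nat_lit 23954))) (.nd (.lf (nat_lit 7362)) (.lf (nat_lit 47090)))) (.nd (.nd (.lf (nat_lit 6524)) (.lf (nat_lit 50994)))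 (.nd (.lf (nat_lit 52578)) (.lf (nat_lit 54442))))) (.nd (.nd (.nd (.lf (nat_lit 61244)) (.lf (nat_lit 31442))) (.nd (.lf (nat_lit 48930)) (.lf (nat_lit 12618)))) (.nd (.nd (.lf (nat_lit 8188)) (.lf (nat_lit 45426))) (.nd (.lf (nat_lit 25618)) (.lf (nat_lit 54890)))))))))

def Ix6 : Tb ℕ := (.nd (.nd (.nd (.nd (.nd (.nd (.nd (.nd (.lf (nat_lit 10332)) (.lf (nat_lit 24938))) (.lf (nat_lit 14866))) (.nd (.lf (nat_lit 12802)) (.lf (nat_lit 5490)))) (.nd (.nd (.lf (nat_lit 25788)) (.lf (nat_lit 53714))) (.nd (.lf (nat_lit 3234)) (.lf (nat_lit 1866))))) (.nd (.nd (.nd (.lf (nat_lit 30172)) (.lf (nat_lit 7058))) (.nd (.lf (nat_lit 30402)) (.lf (nat_lit 2058)))) (.nd (.nd (.lf (nat_lit 11644)) (.lf (nat_lit 8370))) (.nd (.lf (nat_lit 29538)) (.lf (nat_lit 4778)))))) (.nd (.nd (.nd (.nd (.nd (.lf (nat_lit 15196)) (.lf (nat_lit 0x1ebea))) (.lf (nat_lit 65298)))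 (.nd (.lf (nat_lit 4994)) (.lf (nat_lit 3826)))) (.nd (.nd (.lf (nat_lit 10172)) (.lf (nat_lit 23602))) (.nd (.lf (nat_lit 6050)) (.lf (nat_lit 62762))))) (.nd (.nd (.nd (.lf (nat_lit 316)) (.lf (nat_lit 60754))) (.nd (.lf (nat_lit 4386)) (.lf (nat_lit 27274)))) (.nd (.nd (.lf (nat_lit 49660)) (.lf (nat_lit 60338))) (.nd (.lf (nat_lit 31202)) (.lf (nat_lit 12202))))))) (.nd (.nd (.nd (.nd (.nd (.nd (.lf (nat_lit 51548)) (.lf (nat_lit 11114))) (.lf (nat_lit 27922))) (.nd (.lf (nat_lit 27778)) (.lf (nat_lit 3954)))) (.nd (.nd (.lf (nat_lit 55740)) (.lf (nat_lit 11218))) (.nd (.lf (nat_lit 1442)) (.lf (nat_lit 42))))) (.nd (.nd (.nd (.lf (nat_lit 61404)) (.lf (nat_lit 27218))) (.nd (.lf (nat_lit 34)) (.lf (nat_lit 29962)))) (.nd (.nd (.lf (nat_lit 57212)) (.lf (nat_lit 29106))) (.nd (.lf (nat_lit 13538)) (.lf (nat_lit 58794)))))) (.nd (.nd (.nd (.nd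 (.nd (.lf (nat_lit 21212)) (.lf (nat_lit 410))) (.lf (nat_lit 20882))) (.nd (.lf (nat_lit 11586)) (.lf (nat_lit 65010)))) (.nd (.nd (.lf (nat_lit 6780)) (.lf (nat_lit 62770))) (.nd (.lf (nat_lit 16738)) (.lf (nat_lit 24362))))) (.nd (.nd (.nd (.lf (nat_lit 21308)) (.lf (nat_lit 8402))) (.nd (.lf (nat_lit 2850)) (.lf (nat_lit 8074)))) (.nd (.nd (.lf (nat_lit 54268)) (.lf (nat_lit 626))) (.nd (.lf (nat_lit 26594)) (.lf (nat_lit 15466)))))))) (.nd (.nd (.nd (.nd (.nd (.nd (.nd (.lf (nat_lit 14940)) (.lf (nat_lit 54634))) (.lf (nat_lit 18706))) (.nd (.lf (nat_lit 15106)) (.lf (nat_lit 13170)))) (.nd (.nd (.lf (nat_lit 30396)) (.lf (nat_lit 62930))) (.nd (.lf (nat_lit 7842)) (.lf (nat_lit 9930))))) (.nd (.nd (.nd (.lf (nat_lit 52188)) (.lf (nat_lit 8274))) (.nd (.lf (nat_lit 7618)) (.lf (nat_lit 14858)))) (.nd (.nd (.lf (nat_lit 60284)) (.lf (nat_lit 2738)))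 (.nd (.lf (nat_lit 53090)) (.lf (nat_lit 16042)))))) (.nd (.nd (.nd (.nd (.nd (.lf (nat_lit 220)) (.lf (nat_lit 32746))) (.lf (nat_lit 4754))) (.nd (.lf (nat_lit 1090)) (.lf (nat_lit 14834)))) (.nd (.nd (.lf (nat_lit 28796)) (.lf (nat_lit 8498))) (.nd (.lf (nat_lit 9314)) (.lf (nat_lit 43818))))) (.nd (.nd (.nd (.lf (nat_lit 42300)) (.lf (nat_lit 47954))) (.nd (.lf (nat_lit 46370)) (.lf (nat_lit 5514)))) (.nd (.nd (.lf (nat_lit 58876)) (.lf (nat_lit 16306))) (.nd (.lf (nat_lit 17378)) (.lf (nat_lit 6250))))))) (.nd (.nd (.nd (.nd (.nd (.nd (.lf (nat_lit 60764)) (.lf (nat_lit 1002))) (.lf (nat_lit 56082))) (.nd (.lf (nat_lit 32386)) (.lf (nat_lit 5362)))) (.nd (.nd (.lf (nat_lit 64956)) (.lf (nat_lit 8146))) (.nd (.lf (nat_lit 9122)) (.lf (nat_lit 57642))))) (.nd (.nd (.nd (.lf (nat_lit 7228)) (.lf (nat_lit 51538))) (.nd (.lf (nat_lit 21026)) (.lf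 (nat_lit 8330)))) (.nd (.nd (.lf (nat_lit 31996)) (.lf (nat_lit 52658))) (.nd (.lf (nat_lit 12002)) (.lf (nat_lit 62378)))))) (.nd (.nd (.nd (.nd (.lf (nat_lit 20956)) (.lf (nat_lit 3474))) (.nd (.lf (nat_lit 25794)) (.lf (nat_lit 10226)))) (.nd (.nd (.lf (nat_lit 61820)) (.lf (nat_lit 23346))) (.nd (.lf (nat_lit 21858)) (.lf (nat_lit 1194))))) (.nd (.nd (.nd (.lf (nat_lit 30524)) (.lf (nat_lit 13010))) (.nd (.lf (nat_lit 44834)) (.lf (nat_lit 3658)))) (.nd (.nd (.lf (nat_lit 63484)) (.lf (nat_lit 8562))) (.nd (.lf (nat_lit 10258)) (.lf (nat_lit 18026)))))))))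

def Ix7 : Tb ℕ := (.nd (.nd (.nd (.nd (.nd (.nd (.nd (.nd (.lf (nat_lit 7260)) (.lf (nat_lit 6506))) (.lf (nat_lit 32274))) (.nd (.lf (nat_lit 10498)) (.lf (nat_lit 23922)))) (.nd (.nd (.lf (nat_lit 21180)) (.lf (nat_lit 47570))) (.nd (.lf (nat_lit 27298)) (.lf (nat_lit 1226))))) (.nd (.nd (.nd (.lf (nat_lit 988)) (.lf (nat_lit 30610))) (.nd (.lf (nat_lit 10690)) (.lf (nat_lit 27658)))) (.nd (.nd (.lf (nat_lit 41852)) (.lf (nat_lit 21682))) (.nd (.lf (nat_lit 1890)) (.lf (nat_lit 18090)))))) (.nd (.nd (.nd (.nd (.nd (.lf (nat_lit 30556)) (.lf (nat_lit 59370))) (.lf (nat_lit 9362))) (.nd (.lf (nat_lit 14210)) (.lf (nat_lit 20978)))) (.nd (.nd (.lf (nat_lit 28604)) (.lf (nat_lit 1586))) (.nd (.lf (nat_lit 57250)) (.lf (nat_lit 49962))))) (.nd (.nd (.nd (.lf (nat_lit 51516)) (.lf (nat_lit 54098))) (.nd (.lf (nat_lit 55586)) (.lf (nat_lit 32394)))) (.nd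 (.nd (.lf (nat_lit 43516)) (.lf (nat_lit 22450))) (.nd (.lf (nat_lit 3554)) (.lf (nat_lit 24682))))))) (.nd (.nd (.nd (.nd (.nd (.nd (.lf (nat_lit 42332)) (.lf (nat_lit 2794))) (.lf (nat_lit 4882))) (.nd (.lf (nat_lit 23170)) (.lf (nat_lit 8434)))) (.nd (.nd (.lf (nat_lit 46524)) (.lf (nat_lit 26578))) (.nd (.lf (nat_lit 52642)) (.lf (nat_lit 2602))))) (.nd (.nd (.nd (.lf (nat_lit 10300)) (.lf (nat_lit 32338))) (.nd (.lf (nat_lit 25634)) (.lf (nat_lit 6922)))) (.nd (.nd (.lf (nat_lit 22780)) (.lf (nat_lit 1458))) (.nd (.lf (nat_lit 2786)) (.lf (nat_lit 15786)))))) (.nd (.nd (.nd (.nd (.lf (nat_lit 30428)) (.lf (nat_lit 47506))) (.nd (.lf (nat_lit 16194)) (.lf (nat_lit 19442)))) (.nd (.nd (.lf (nat_lit 24188)) (.lf (nat_lit 9010))) (.nd (.lf (nat_lit 26978)) (.lf (nat_lit 45226))))) (.nd (.nd (.nd (.lf (nat_lit 15164)) (.lf (nat_lit 5330))) (.nd (.lf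 (nat_lit 50978)) (.lf (nat_lit 3146)))) (.nd (.nd (.lf (nat_lit 48124)) (.lf (nat_lit 26226))) (.nd (.lf (nat_lit 8162)) (.lf (nat_lit 62058)))))))) (.nd (.nd (.nd (.nd (.nd (.nd (.nd (.lf (nat_lit 348)) (.lf (nat_lit 15722))) (.lf (nat_lit 9490))) (.nd (.lf (nat_lit 2178)) (.lf (nat_lit 31602)))) (.nd (.nd (.lf (nat_lit 4540)) (.lf (nat_lit 17362))) (.nd (.lf (nat_lit 29090)) (.lf (nat_lit 3530))))) (.nd (.nd (.nd (.lf (nat_lit 42972)) (.lf (nat_lit 29778))) (.nd (.lf (nat_lit 15298)) (.lf (nat_lit 266)))) (.nd (.nd (.lf (nat_lit 22396)) (.lf (nat_lit 28338))) (.nd (.lf (nat_lit 4322)) (.lf (nat_lit 18858)))))) (.nd (.nd (.nd (.nd (.nd (.lf (nat_lit 25820)) (.lf (nat_lit 12826))) (.lf (nat_lit 13970))) (.nd (.lf (nat_lit 13890)) (.lf (nat_lit 30194)))) (.nd (.nd (.lf (nat_lit 11388)) (.lf (nat_lit 22834))) (.nd (.lf (nat_lit 10850)) (.lf (nat_lit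 59178))))) (.nd (.nd (.nd (.lf (nat_lit 60732)) (.lf (nat_lit 63314))) (.nd (.lf (nat_lit 32034)) (.lf (nat_lit 2954)))) (.nd (.nd (.lf (nat_lit 40444)) (.lf (nat_lit 14450))) (.nd (.lf (nat_lit 11234)) (.lf (nat_lit 54378))))))) (.nd (.nd (.nd (.nd (.nd (.nd (.lf (nat_lit 21340)) (.lf (nat_lit 13290))) (.lf (nat_lit 46866))) (.nd (.lf (nat_lit 9602)) (.lf (nat_lit 13042)))) (.nd (.nd (.lf (nat_lit 19388)) (.lf (nat_lit 26674))) (.nd (.lf (nat_lit 27554)) (.lf (nat_lit 14634))))) (.nd (.nd (.nd (.lf (nat_lit 14908)) (.lf (nat_lit 42322))) (.nd (.lf (nat_lit 30242)) (.lf (nat_lit 29834)))) (.nd (.nd (.lf (nat_lit 9980)) (.lf (nat_lit 41906))) (.nd (.lf (nat_lit 12770)) (.lf (nat_lit 18346)))))) (.nd (.nd (.nd (.nd (.lf (nat_lit 14812)) (.lf (nat_lit 50066))) (.nd (.lf (nat_lit 21186)) (.lf (nat_lit 28658)))) (.nd (.nd (.lf (nat_lit 17788)) (.lf (nat_lit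 30514))) (.nd (.lf (nat_lit 15714)) (.lf (nat_lit 11434))))) (.nd (.nd (.nd (.lf (nat_lit 188)) (.lf (nat_lit 3794))) (.nd (.lf (nat_lit 12450)) (.lf (nat_lit 5450)))) (.nd (.nd (.lf (nat_lit 2)) (.lf (nat_lit 26994))) (.nd (.lf (nat_lit 7186)) (.lf (nat_lit 11882)))))))))

def Ix8 : Tb ℕ := (.nd (.nd (.nd (.nd (.nd (.nd (.nd (.nd (.lf (nat_lit 20572)) (.lf (nat_lit 16746))) (.lf (nat_lit 10770))) (.nd (.lf (nat_lit 7170)) (.lf (nat_lit 9586)))) (.nd (.nd (.lf (nat_lit 14524)) (.lf (nat_lit 25042))) (.nd (.lf (nat_lit 5282)) (.lf (nat_lit 11082))))) (.nd (.nd (.nd (.lf (nat_lit 21980)) (.lf (nat_lit 52114))) (.nd (.lf (nat_lit 26306)) (.lf (nat_lit 24586)))) (.nd (.nd (.lf (nat_lit 62844)) (.lf (nat_lit 48946))) (.nd (.lf (nat_lit 21346)) (.lf (nat_lit 17066)))))) (.nd (.nd (.nd (.nd (.nd (.lf (nat_lit 60252)) (.lf (nat_lit 44010))) (.lf (nat_lit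 57106))) (.nd (.lf (nat_lit 32130)) (.lf (nat_lit 5874)))) (.nd (.nd (.lf (nat_lit 64444)) (.lf (nat_lit 3122))) (.nd (.lf (nat_lit 10146)) (.lf (nat_lit 54570))))) (.nd (.nd (.nd (.lf (nat_lit 7740)) (.lf (nat_lit 52562))) (.nd (.lf (nat_lit 8482)) (.lf (nat_lit 12938)))) (.nd (.nd (.lf (nat_lit 16124)) (.lf (nat_lit 52146))) (.nd (.lf (nat_lit 23010)) (.lf (nat_lit 63402))))))) (.nd (.nd (.nd (.nd (.nd (.nd (.lf (nat_lit 29020)) (.lf (nat_lit 29546))) (.lf (nat_lit 19730))) (.nd (.lf (nat_lit 13442)) (.lf (nat_lit 14194)))) (.nd (.nd (.lf (nat_lit 27068)) (.lf (nat_lit 62418))) (.nd (.lf (nat_lit 14754)) (.lf (nat_lit 4042))))) (.nd (.nd (.nd (.lf (nat_lit 53212)) (.lf (nat_lit 12882))) (.nd (.lf (nat_lit 8130)) (.lf (nat_lit 9482)))) (.nd (.nd (.lf (nat_lit 61308)) (.lf (nat_lit 20914))) (.nd (.lf (nat_lit 9442)) (.lf (nat_lit 17834)))))) (.nd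 (.nd (.nd (.nd (.nd (.lf (nat_lit 732)) (.lf (nat_lit 794))) (.lf (nat_lit 8594))) (.nd (.lf (nat_lit 1346)) (.lf (nat_lit 56818)))) (.nd (.nd (.lf (nat_lit 29308)) (.lf (nat_lit 21810))) (.nd (.lf (nat_lit 7778)) (.lf (nat_lit 44842))))) (.nd (.nd (.nd (.lf (nat_lit 41788)) (.lf (nat_lit 48978))) (.nd (.lf (nat_lit 13090)) (.lf (nat_lit 30602)))) (.nd (.nd (.lf (nat_lit 25596)) (.lf (nat_lit 7282))) (.nd (.lf (nat_lit 18402)) (.lf (nat_lit 7274)))))))) (.nd (.nd (.nd (.nd (.nd (.nd (.nd (.lf (nat_lit 10844)) (.lf (nat_lit 25962))) (.lf (nat_lit 45330))) (.nd (.lf (nat_lit 13058)) (.lf (nat_lit 58226)))) (.nd (.nd (.lf (nat_lit 26300)) (.lf (nat_lit 54738))) (.nd (.lf (nat_lit 3746)) (.lf (nat_lit 10954))))) (.nd (.nd (.nd (.lf (nat_lit 29660)) (.lf (nat_lit 49042))) (.nd (.lf (nat_lit 30146)) (.lf (nat_lit 10762)))) (.nd (.nd (.lf (nat_lit 52092))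 (.lf (nat_lit 25266))) (.nd (.lf (nat_lit 30562)) (.lf (nat_lit 28330)))))) (.nd (.nd (.nd (.nd (.nd (.lf (nat_lit 16220)) (.lf (nat_lit 8170))) (.lf (nat_lit 31890))) (.nd (.lf (nat_lit 2114)) (.lf (nat_lit 59890)))) (.nd (.nd (.lf (nat_lit 24700)) (.lf (nat_lit 15922))) (.nd (.lf (nat_lit 6242)) (.lf (nat_lit 2858))))) (.nd (.nd (.nd (.lf (nat_lit 1340)) (.lf (nat_lit 6994))) (.nd (.lf (nat_lit 5410)) (.lf (nat_lit 31114)))) (.nd (.nd (.lf (nat_lit 50684)) (.lf (nat_lit 61362))) (.nd (.lf (nat_lit 48610)) (.lf (nat_lit 10346))))))) (.nd (.nd (.nd (.nd (.nd (.nd (.lf (nat_lit 52572)) (.lf (nat_lit 5610))) (.lf (nat_lit 27410))) (.nd (.lf (nat_lit 28290)) (.lf (nat_lit 30962)))) (.nd (.nd (.lf (nat_lit 56764)) (.lf (nat_lit 12242))) (.nd (.lf (nat_lit 64930)) (.lf (nat_lit 16682))))) (.nd (.nd (.nd (.lf (nat_lit 29756)) (.lf (nat_lit 29010))) (.nd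 (.lf (nat_lit 546)) (.lf (nat_lit 7946)))) (.nd (.nd (.lf (nat_lit 27900)) (.lf (nat_lit 30130))) (.nd (.lf (nat_lit 14050)) (.lf (nat_lit 54186)))))) (.nd (.nd (.nd (.nd (.lf (nat_lit 41436)) (.lf (nat_lit 13714))) (.nd (.lf (nat_lit 14530)) (.lf (nat_lit 64498)))) (.nd (.nd (.lf (nat_lit 53628)) (.lf (nat_lit 11058))) (.nd (.lf (nat_lit 9570)) (.lf (nat_lit 14506))))) (.nd (.nd (.nd (.lf (nat_lit 22332)) (.lf (nat_lit 8914))) (.nd (.lf (nat_lit 3874)) (.lf (nat_lit 1610)))) (.nd (.nd (.lf (nat_lit 55292)) (.lf (nat_lit 32370))) (.nd (.lf (nat_lit 20498)) (.lf (nat_lit 47722)))))))))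

def Ix9 : Tb ℕ := (.nd (.nd (.nd (.nd (.nd (.nd (.nd (.nd (.lf (nat_lit 29788)) (.lf (nat_lit 10602))) (.lf (nat_lit 28178))) (.nd (.lf (nat_lit 258)) (.lf (nat_lit 28018)))) (.nd (.nd (.lf (nat_lit 700)) (.lf (nat_lit 6610))) (.nd (.lf (nat_lit 12962)) (.lf (nat_lit 2250))))) (.nd (.nd (.nd (.lf (nat_lit 15836)) (.lf (nat_lit 6034))) (.nd (.lf (nat_lit 20930)) (.lf (nat_lit 13322)))) (.nd (.nd (.lf (nat_lit 892)) (.lf (nat_lit 1202))) (.nd (.lf (nat_lit 15202)) (.lf (nat_lit 15018)))))) (.nd (.nd (.nd (.nd (.nd (.lf (nat_lit 22364)) (.lf (nat_lit 2026))) (.lf (nat_lit 22674))) (.nd (.lf (nat_lit 10114)) (.lf (nat_lit 41458)))) (.nd (.nd (.lf (nat_lit 20412)) (.lf (nat_lit 6706))) (.nd (.lf (nat_lit 28578)) (.lf (nat_lit 32042))))) (.nd (.nd (.nd (.lf (nat_lit 28988)) (.lf (nat_lit 25426))) (.nd (.lf (nat_lit 26914)) (.lf (nat_lit 28298)))) (.nd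 (.nd (.lf (nat_lit 2556)) (.lf (nat_lit 42930))) (.nd (.lf (nat_lit 13794)) (.lf (nat_lit 16490))))))) (.nd (.nd (.nd (.nd (.nd (.nd (.lf (nat_lit 1372)) (.lf (nat_lit 234))) (.lf (nat_lit 8978))) (.nd (.lf (nat_lit 2690)) (.lf (nat_lit 49010)))) (.nd (.nd (.lf (nat_lit 5564)) (.lf (nat_lit 18386))) (.nd (.lf (nat_lit 30114)) (.lf (nat_lit 15402))))) (.nd (.nd (.nd (.lf (nat_lit 20540)) (.lf (nat_lit 28242))) (.nd (.lf (nat_lit 14370)) (.lf (nat_lit 29450)))) (.nd (.nd (.lf (nat_lit 2300)) (.lf (nat_lit 14770))) (.nd (.lf (nat_lit 4834)) (.lf (nat_lit 60842)))))) (.nd (.nd (.nd (.nd (.lf (nat_lit 26332)) (.lf (nat_lit 6546))) (.nd (.lf (nat_lit 14146)) (.lf (nat_lit 46066)))) (.nd (.nd (.lf (nat_lit 20092)) (.lf (nat_lit 64818))) (.nd (.lf (nat_lit 2402)) (.lf (nat_lit 4266))))) (.nd (.nd (.nd (.lf (nat_lit 60220)) (.lf (nat_lit 30930))) (.nd (.lf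 (nat_lit 31522)) (.lf (nat_lit 1098)))) (.nd (.nd (.lf (nat_lit 7164)) (.lf (nat_lit 14962))) (.nd (.lf (nat_lit 12258)) (.lf (nat_lit 53866)))))))) (.nd (.nd (.nd (.nd (.nd (.nd (.nd (.lf (nat_lit 7772)) (.lf (nat_lit 7530))) (.lf (nat_lit 63762))) (.nd (.lf (nat_lit 4226)) (.lf (nat_lit 23410)))) (.nd (.nd (.lf (nat_lit 8636)) (.lf (nat_lit 48594))) (.nd (.lf (nat_lit 20898)) (.lf (nat_lit 14794))))) (.nd (.nd (.nd (.lf (nat_lit 2012)) (.lf (nat_lit 9298))) (.nd (.lf (nat_lit 11202)) (.lf (nat_lit 7690)))) (.nd (.nd (.lf (nat_lit 42876)) (.lf (nat_lit 14002))) (.nd (.lf (nat_lit 65378)) (.lf (nat_lit 12714)))))) (.nd (.nd (.nd (.nd (.nd (.lf (nat_lit 14556)) (.lf (nat_lit 7194))) (.lf (nat_lit 9874))) (.nd (.lf (nat_lit 6722)) (.lf (nat_lit 22002)))) (.nd (.nd (.lf (nat_lit 21628)) (.lf (nat_lit 10546))) (.nd (.lf (nat_lit 4706)) (.lf (nat_lit 50986)))))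 (.nd (.nd (.nd (.lf (nat_lit 52540)) (.lf (nat_lit 55122))) (.nd (.lf (nat_lit 23842)) (.lf (nat_lit 25482)))) (.nd (.nd (.lf (nat_lit 44540)) (.lf (nat_lit 10354))) (.nd (.lf (nat_lit 62434)) (.lf (nat_lit 25706))))))) (.nd (.nd (.nd (.nd (.nd (.nd (.lf (nat_lit 41820)) (.lf (nat_lit 37866))) (.lf (nat_lit 5906))) (.nd (.lf (nat_lit 22914)) (.lf (nat_lit 8946)))) (.nd (.nd (.lf (nat_lit 46012)) (.lf (nat_lit 12338))) (.nd (.lf (nat_lit 19362)) (.lf (nat_lit 59690))))) (.nd (.nd (.nd (.lf (nat_lit 10812)) (.lf (nat_lit 1362))) (.nd (.lf (nat_lit 26146)) (.lf (nat_lit 9354)))) (.nd (.nd (.lf (nat_lit 23292)) (.lf (nat_lit 946))) (.nd (.lf (nat_lit 57826)) (.lf (nat_lit 48042)))))) (.nd (.nd (.nd (.nd (.lf (nat_lit 59868)) (.lf (nat_lit 32146))) (.nd (.lf (nat_lit 706)) (.lf (nat_lit 20466)))) (.nd (.nd (.lf (nat_lit 47484)) (.lf (nat_lit 5938))) (.nd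 (.lf (nat_lit 60770)) (.lf (nat_lit 62634))))) (.nd (.nd (.nd (.lf (nat_lit 16188)) (.lf (nat_lit 5842))) (.nd (.lf (nat_lit 8354)) (.lf (nat_lit 14666)))) (.nd (.nd (.lf (nat_lit 16380)) (.lf (nat_lit 18802))) (.nd (.lf (nat_lit 29714)) (.lf (nat_lit 63082)))))))))

def Ix10 : Tb ℕ := (.nd (.nd (.nd (.nd (.nd (.nd (.nd (.nd (.lf (nat_lit 14428)) (.lf (nat_lit 53610))) (.lf (nat_lit 26130))) (.nd (.lf (nat_lit 14850)) (.lf (nat_lit 46450)))) (.nd (.nd (.lf (nat_lit 29884)) (.lf (nat_lit 61906))) (.nd (.lf (nat_lit 23714)) (.lf (nat_lit 3914))))) (.nd (.nd (.nd (.lf (nat_lit 52700)) (.lf (nat_lit 31634))) (.nd (.lf (nat_lit 7874)) (.lf (nat_lit 22538)))) (.nd (.nd (.lf (nat_lit 7548)) (.lf (nat_lit 28850))) (.nd (.lf (nat_lit 52066)) (.lf (nat_lit 62122)))))) (.nd (.nd (.nd (.nd (.nd (.lf (nat_lit 1884)) (.lf (nat_lit 56298))) (.lf (nat_lit 4242)))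 (.nd (.lf (nat_lit 2946)) (.lf (nat_lit 7922)))) (.nd (.nd (.lf (nat_lit 6076)) (.lf (nat_lit 8754))) (.nd (.lf (nat_lit 47010)) (.lf (nat_lit 11562))))) (.nd (.nd (.nd (.lf (nat_lit 41276)) (.lf (nat_lit 15698))) (.nd (.lf (nat_lit 45346)) (.lf (nat_lit 1674)))) (.nd (.nd (.lf (nat_lit 57852)) (.lf (nat_lit 15282))) (.nd (.lf (nat_lit 50658)) (.lf (nat_lit 8106))))))) (.nd (.nd (.nd (.nd (.nd (.nd (.lf (nat_lit 59740)) (.lf (nat_lit 23402))) (.lf (nat_lit 56594))) (.nd (.lf (nat_lit 31874)) (.lf (nat_lit 44914)))) (.nd (.nd (.lf (nat_lit 63932)) (.lf (nat_lit 7122))) (.nd (.lf (nat_lit 42402)) (.lf (nat_lit 6186))))) (.nd (.nd (.nd (.lf (nat_lit 16348)) (.lf (nat_lit 1618))) (.nd (.lf (nat_lit 20514)) (.lf (nat_lit 7434)))) (.nd (.nd (.lf (nat_lit 65404)) (.lf (nat_lit 51634))) (.nd (.lf (nat_lit 27874)) (.lf (nat_lit 13738)))))) (.nd (.nd (.nd (.nd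 (.nd (.lf (nat_lit 10972)) (.lf (nat_lit 2970))) (.lf (nat_lit 29074))) (.nd (.lf (nat_lit 4930)) (.lf (nat_lit 9202)))) (.nd (.nd (.lf (nat_lit 1660)) (.lf (nat_lit 11570))) (.nd (.lf (nat_lit 57698)) (.lf (nat_lit 32554))))) (.nd (.nd (.nd (.lf (nat_lit 29500)) (.lf (nat_lit 12498))) (.nd (.lf (nat_lit 43810)) (.lf (nat_lit 74)))) (.nd (.nd (.lf (nat_lit 62460)) (.lf (nat_lit 21106))) (.nd (.lf (nat_lit 55266)) (.lf (nat_lit 618)))))))) (.nd (.nd (.nd (.nd (.nd (.nd (.nd (.lf (nat_lit 26204)) (.lf (nat_lit 62826))) (.lf (nat_lit 26898))) (.nd (.lf (nat_lit 14082)) (.lf (nat_lit 2930)))) (.nd (.nd (.lf (nat_lit 28348)) (.lf (nat_lit 11730))) (.nd (.lf (nat_lit 418)) (.lf (nat_lit 11978))))) (.nd (.nd (.nd (.lf (nat_lit 60380)) (.lf (nat_lit 28754))) (.nd (.lf (nat_lit 962)) (.lf (nat_lit 26122)))) (.nd (.nd (.lf (nat_lit 15228)) (.lf (nat_lit 23218)))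 (.nd (.lf (nat_lit 61282)) (.lf (nat_lit 16810)))))) (.nd (.nd (.nd (.nd (.nd (.lf (nat_lit 20700)) (.lf (nat_lit 12314))) (.lf (nat_lit 2706))) (.nd (.lf (nat_lit 11330)) (.lf (nat_lit 1522)))) (.nd (.nd (.lf (nat_lit 6268)) (.lf (nat_lit 20786))) (.nd (.lf (nat_lit 3170)) (.lf (nat_lit 23338))))) (.nd (.nd (.nd (.lf (nat_lit 21820)) (.lf (nat_lit 18258))) (.nd (.lf (nat_lit 19746)) (.lf (nat_lit 11658)))) (.nd (.nd (.lf (nat_lit 13820)) (.lf (nat_lit 114))) (.nd (.lf (nat_lit 25570)) (.lf (nat_lit 47210))))))) (.nd (.nd (.nd (.nd (.nd (.nd (.lf (nat_lit 15708)) (.lf (nat_lit 0x1c3ea))) (.lf (nat_lit 64274))) (.nd (.lf (nat_lit 4482)) (.lf (nat_lit 3314)))) (.nd (.nd (.lf (nat_lit 9148)) (.lf (nat_lit 16338))) (.nd (.lf (nat_lit 5026)) (.lf (nat_lit 12586))))) (.nd (.nd (.nd (.lf (nat_lit 572)) (.lf (nat_lit 59730))) (.nd (.lf (nat_lit 10786)) (.lf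 (nat_lit 28810)))) (.nd (.nd (.lf (nat_lit 4860)) (.lf (nat_lit 60850))) (.nd (.lf (nat_lit 16098)) (.lf (nat_lit 11178)))))) (.nd (.nd (.nd (.nd (.lf (nat_lit 29148)) (.lf (nat_lit 44434))) (.nd (.lf (nat_lit 29890)) (.lf (nat_lit 6130)))) (.nd (.nd (.lf (nat_lit 10620)) (.lf (nat_lit 31538))) (.nd (.lf (nat_lit 30050)) (.lf (nat_lit 25770))))) (.nd (.nd (.nd (.lf (nat_lit 53052)) (.lf (nat_lit 27346))) (.nd (.lf (nat_lit 40738)) (.lf (nat_lit 32330)))) (.nd (.nd (.lf (nat_lit 12284)) (.lf (nat_lit 4466))) (.nd (.lf (nat_lit 14354)) (.lf (nat_lit 26218)))))))))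

def Ix11 : Tb ℕ := (.nd (.nd (.nd (.nd (.nd (.nd (.nd (.nd (.lf (nat_lit 604)) (.lf (nat_lit 47466))) (.lf (nat_lit 8466))) (.nd (.lf (nat_lit 5378)) (.lf (nat_lit 32114)))) (.nd (.nd (.lf (nat_lit 10940)) (.lf (nat_lit 17874))) (.nd (.lf (nat_lit 31394)) (.lf (nat_lit 3274))))) (.nd (.nd (.nd (.lf (nat_lit 41948)) (.lf (nat_lit 53138))) (.nd (.lf (nat_lit 14786)) (.lf (nat_lit 31754)))) (.nd (.nd (.lf (nat_lit 21372)) (.lf (nat_lit 11442))) (.nd (.lf (nat_lit 42850)) (.lf (nat_lit 5802)))))) (.nd (.nd (.nd (.nd (.nd (.lf (nat_lit 53084)) (.lf (nat_lit 14314))) (.lf (nat_lit 13458))) (.nd (.lf (nat_lit 28546)) (.lf (nat_lit 29170)))) (.nd (.nd (.lf (nat_lit 24508)) (.lf (nat_lit 22066))) (.nd (.lf (nat_lit 65442)) (.lf (nat_lit 58154))))) (.nd (.nd (.nd (.lf (nat_lit 59708)) (.lf (nat_lit 62290))) (.nd (.lf (nat_lit 63778)) (.lf (nat_lit 4490))))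 (.nd (.nd (.lf (nat_lit 23036)) (.lf (nat_lit 30642))) (.nd (.lf (nat_lit 44514)) (.lf (nat_lit 53354))))))) (.nd (.nd (.nd (.nd (.nd (.nd (.lf (nat_lit 21852)) (.lf (nat_lit 3818))) (.lf (nat_lit 45842))) (.nd (.lf (nat_lit 9858)) (.lf (nat_lit 12530)))) (.nd (.nd (.lf (nat_lit 19900)) (.lf (nat_lit 55250))) (.nd (.lf (nat_lit 60834)) (.lf (nat_lit 1578))))) (.nd (.nd (.nd (.lf (nat_lit 14396)) (.lf (nat_lit 8530))) (.nd (.lf (nat_lit 29730)) (.lf (nat_lit 9994)))) (.nd (.nd (.lf (nat_lit 9468)) (.lf (nat_lit 42418))) (.nd (.lf (nat_lit 23266)) (.lf (nat_lit 17322)))))) (.nd (.nd (.nd (.nd (.lf (nat_lit 7900)) (.lf (nat_lit 17810))) (.nd (.lf (nat_lit 4290)) (.lf (nat_lit 27634)))) (.nd (.nd (.lf (nat_lit 16764)) (.lf (nat_lit 21298))) (.nd (.lf (nat_lit 55650)) (.lf (nat_lit 18602))))) (.nd (.nd (.nd (.lf (nat_lit 1852)) (.lf (nat_lit 3282))) (.nd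 (.lf (nat_lit 59170)) (.lf (nat_lit 586)))) (.nd (.nd (.lf (nat_lit 18428)) (.lf (nat_lit 30322))) (.nd (.lf (nat_lit 16354)) (.lf (nat_lit 10858)))))))) (.nd (.nd (.nd (.nd (.nd (.nd (.nd (.lf (nat_lit 41308)) (.lf (nat_lit 874))) (.lf (nat_lit 5394))) (.nd (.lf (nat_lit 22658)) (.lf (nat_lit 51058)))) (.nd (.nd (.lf (nat_lit 45500)) (.lf (nat_lit 25554))) (.nd (.lf (nat_lit 51618)) (.lf (nat_lit 5066))))) (.nd (.nd (.nd (.lf (nat_lit 22492)) (.lf (nat_lit 7250))) (.nd (.lf (nat_lit 26562)) (.lf (nat_lit 28938)))) (.nd (.nd (.lf (nat_lit 30588)) (.lf (nat_lit 32434))) (.nd (.lf (nat_lit 2274)) (.lf (nat_lit 59818)))))) (.nd (.nd (.nd (.nd (.nd (.lf (nat_lit 29916)) (.lf (nat_lit 1562))) (.lf (nat_lit 28306))) (.nd (.lf (nat_lit 15938)) (.lf (nat_lit 52722)))) (.nd (.nd (.lf (nat_lit 15484)) (.lf (nat_lit 63794))) (.nd (.lf (nat_lit 1634)) (.lf (nat_lit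 14122))))) (.nd (.nd (.nd (.lf (nat_lit 15676)) (.lf (nat_lit 12114))) (.nd (.lf (nat_lit 49954)) (.lf (nat_lit 23434)))) (.nd (.nd (.lf (nat_lit 48636)) (.lf (nat_lit 25714))) (.nd (.lf (nat_lit 7138)) (.lf (nat_lit 62570))))))) (.nd (.nd (.nd (.nd (.nd (.nd (.lf (nat_lit 29532)) (.lf (nat_lit 62442))) (.lf (nat_lit 20242))) (.nd (.lf (nat_lit 13698)) (.lf (nat_lit 27378)))) (.nd (.nd (.lf (nat_lit 27580)) (.lf (nat_lit 30770))) (.nd (.lf (nat_lit 56226)) (.lf (nat_lit 1322))))) (.nd (.nd (.nd (.lf (nat_lit 26172)) (.lf (nat_lit 21842))) (.nd (.lf (nat_lit 28194)) (.lf (nat_lit 7306)))) (.nd (.nd (.lf (nat_lit 14076)) (.lf (nat_lit 21426))) (.nd (.lf (nat_lit 2530)) (.lf (nat_lit 26538)))))) (.nd (.nd (.nd (.nd (.lf (nat_lit 1500)) (.lf (nat_lit 5010))) (.nd (.lf (nat_lit 10946)) (.lf (nat_lit 24562)))) (.nd (.nd (.lf (nat_lit 25980)) (.lf (nat_lit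 53042))) (.nd (.lf (nat_lit 866)) (.lf (nat_lit 7338))))) (.nd (.nd (.nd (.lf (nat_lit 20668)) (.lf (nat_lit 24274))) (.nd (.lf (nat_lit 26786)) (.lf (nat_lit 7498)))) (.nd (.nd (.lf (nat_lit 10242)) (.lf (nat_lit 55666))) (.nd (.lf (nat_lit 530)) (.lf (nat_lit 7786)))))))))

def Ix12 : Tb ℕ := (.nd (.nd (.nd (.nd (.nd (.nd (.nd (.nd (.lf (nat_lit 24668)) (.lf (nat_lit 65130))) (.lf (nat_lit 29202))) (.nd (.lf (nat_lit 3074)) (.lf (nat_lit 17778)))) (.nd (.nd (.lf (nat_lit 6332)) (.lf (nat_lit 8658))) (.nd (.lf (nat_lit 9378)) (.lf (nat_lit 13130))))) (.nd (.nd (.nd (.lf (nat_lit 58844)) (.lf (nat_lit 2962))) (.nd (.lf (nat_lit 1730)) (.lf (nat_lit 10)))) (.nd (.nd (.lf (nat_lit 46460)) (.lf (nat_lit 57138))) (.nd (.lf (nat_lit 58210)) (.lf (nat_lit 64682)))))) (.nd (.nd (.nd (.nd (.nd (.lf (nat_lit 43868)) (.lf (nat_lit 0x1cbea))) (.lf (nat_lit 7954)))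 (.nd (.lf (nat_lit 23938)) (.lf (nat_lit 9970)))) (.nd (.nd (.lf (nat_lit 48060)) (.lf (nat_lit 13362))) (.nd (.lf (nat_lit 18338)) (.lf (nat_lit 5418))))) (.nd (.nd (.nd (.lf (nat_lit 11836)) (.lf (nat_lit 3410))) (.nd (.lf (nat_lit 16674)) (.lf (nat_lit 25226)))) (.nd (.nd (.lf (nat_lit 7932)) (.lf (nat_lit 2994))) (.nd (.lf (nat_lit 59874)) (.lf (nat_lit 47018))))))) (.nd (.nd (.nd (.nd (.nd (.nd (.lf (nat_lit 12636)) (.lf (nat_lit 21354))) (.lf (nat_lit 62738))) (.nd (.lf (nat_lit 5250)) (.lf (nat_lit 22386)))) (.nd (.nd (.lf (nat_lit 10684)) (.lf (nat_lit 46034))) (.nd (.lf (nat_lit 22946)) (.lf (nat_lit 6090))))) (.nd (.nd (.nd (.lf (nat_lit 4060)) (.lf (nat_lit 25170))) (.nd (.lf (nat_lit 12226)) (.lf (nat_lit 30986)))) (.nd (.nd (.lf (nat_lit 44924)) (.lf (nat_lit 57778))) (.nd (.lf (nat_lit 30946)) (.lf (nat_lit 63914)))))) (.nd (.nd (.nd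 (.nd (.nd (.lf (nat_lit 15580)) (.lf (nat_lit 15898))) (.lf (nat_lit 16786))) (.nd (.lf (nat_lit 6466)) (.lf (nat_lit 40434)))) (.nd (.nd (.lf (nat_lit 21116)) (.lf (nat_lit 58674))) (.nd (.lf (nat_lit 11874)) (.lf (nat_lit 53034))))) (.nd (.nd (.nd (.lf (nat_lit 49980)) (.lf (nat_lit 57170))) (.nd (.lf (nat_lit 21282)) (.lf (nat_lit 6026)))) (.nd (.nd (.lf (nat_lit 9212)) (.lf (nat_lit 11378))) (.nd (.lf (nat_lit 64482)) (.lf (nat_lit 27754)))))))) (.nd (.nd (.nd (.nd (.nd (.nd (.nd (.lf (nat_lit 29276)) (.lf (nat_lit 9578))) (.lf (nat_lit 53522))) (.nd (.lf (nat_lit 770)) (.lf (nat_lit 41842)))) (.nd (.nd (.lf (nat_lit 1724)) (.lf (nat_lit 5586))) (.nd (.lf (nat_lit 13986)) (.lf (nat_lit 13002))))) (.nd (.nd (.nd (.lf (nat_lit 13276)) (.lf (nat_lit 57234))) (.nd (.lf (nat_lit 21954)) (.lf (nat_lit 29194)))) (.nd (.nd (.lf (nat_lit 2940)) (.lf (nat_lit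 690))) (.nd (.lf (nat_lit 14178)) (.lf (nat_lit 20138)))))) (.nd (.nd (.nd (.nd (.nd (.lf (nat_lit 24412)) (.lf (nat_lit 28650))) (.lf (nat_lit 23698))) (.nd (.lf (nat_lit 4162)) (.lf (nat_lit 43506)))) (.nd (.nd (.lf (nat_lit 124)) (.lf (nat_lit 7730))) (.nd (.lf (nat_lit 2146)) (.lf (nat_lit 29482))))) (.nd (.nd (.nd (.lf (nat_lit 31036)) (.lf (nat_lit 27474))) (.nd (.lf (nat_lit 25890)) (.lf (nat_lit 6538)))) (.nd (.nd (.lf (nat_lit 1532)) (.lf (nat_lit 44978))) (.nd (.lf (nat_lit 56802)) (.lf (nat_lit 18538))))))) (.nd (.nd (.nd (.nd (.nd (.nd (.lf (nat_lit 3420)) (.lf (nat_lit 14826))) (.lf (nat_lit 11026))) (.nd (.lf (nat_lit 3714)) (.lf (nat_lit 22770)))) (.nd (.nd (.lf (nat_lit 7612)) (.lf (nat_lit 20434))) (.nd (.lf (nat_lit 48546)) (.lf (nat_lit 15914))))) (.nd (.nd (.nd (.lf (nat_lit 21564)) (.lf (nat_lit 12626))) (.nd (.lf (nat_lit 15394))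 (.lf (nat_lit 12042)))) (.nd (.nd (.lf (nat_lit 3324)) (.lf (nat_lit 13746))) (.nd (.lf (nat_lit 5858)) (.lf (nat_lit 5034)))))) (.nd (.nd (.nd (.nd (.lf (nat_lit 49628)) (.lf (nat_lit 21906))) (.nd (.lf (nat_lit 6338)) (.lf (nat_lit 48114)))) (.nd (.nd (.lf (nat_lit 4476)) (.lf (nat_lit 19250))) (.nd (.lf (nat_lit 17762)) (.lf (nat_lit 22698))))) (.nd (.nd (.nd (.lf (nat_lit 59196)) (.lf (nat_lit 31954))) (.nd (.lf (nat_lit 30498)) (.lf (nat_lit 6730)))) (.nd (.nd (.lf (nat_lit 6140)) (.lf (nat_lit 24178))) (.nd (.lf (nat_lit 24594)) (.lf (nat_lit 55914)))))))))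

def Ix13 : Tb ℕ := (.nd (.nd (.nd (.nd (.nd (.nd (.nd (.nd (.lf (nat_lit 21596)) (.lf (nat_lit 18794))) (.lf (nat_lit 19986))) (.nd (.lf (nat_lit 7682)) (.lf (nat_lit 11634)))) (.nd (.nd (.lf (nat_lit 15548)) (.lf (nat_lit 27090))) (.nd (.lf (nat_lit 4770)) (.lf (nat_lit 4298))))) (.nd (.nd (.nd (.lf (nat_lit 24028)) (.lf (nat_lit 26514))) (.nd (.lf (nat_lit 25026)) (.lf (nat_lit 5130)))) (.nd (.nd (.lf (nat_lit 32124)) (.lf (nat_lit 14514))) (.nd (.lf (nat_lit 23394)) (.lf (nat_lit 6826)))))) (.nd (.nd (.nd (.nd (.nd (.lf (nat_lit 59228)) (.lf (nat_lit 64490))) (.lf (nat_lit 26770))) (.nd (.lf (nat_lit 31618)) (.lf (nat_lit 49650)))) (.nd (.nd (.lf (nat_lit 63420)) (.lf (nat_lit 10802))) (.nd (.lf (nat_lit 12194)) (.lf (nat_lit 15658))))) (.nd (.nd (.nd (.lf (nat_lit 12604)) (.lf (nat_lit 50002))) (.nd (.lf (nat_lit 10530)) (.lf (nat_lit 3722))))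 (.nd (.nd (.lf (nat_lit 29180)) (.lf (nat_lit 51122))) (.nd (.lf (nat_lit 21986)) (.lf (nat_lit 65450))))))) (.nd (.nd (.nd (.nd (.nd (.nd (.lf (nat_lit 31068)) (.lf (nat_lit 3946))) (.lf (nat_lit 17170))) (.nd (.lf (nat_lit 12930)) (.lf (nat_lit 57202)))) (.nd (.nd (.lf (nat_lit 26044)) (.lf (nat_lit 64466))) (.nd (.lf (nat_lit 13730)) (.lf (nat_lit 11306))))) (.nd (.nd (.nd (.lf (nat_lit 24636)) (.lf (nat_lit 3666))) (.nd (.lf (nat_lit 6178)) (.lf (nat_lit 4874)))) (.nd (.nd (.lf (nat_lit 12540)) (.lf (nat_lit 22962))) (.nd (.lf (nat_lit 8930)) (.lf (nat_lit 11690)))))) (.nd (.nd (.nd (.nd (.lf (nat_lit 1756)) (.lf (nat_lit 27026))) (.nd (.lf (nat_lit 1858)) (.lf (nat_lit 54258)))) (.nd (.nd (.lf (nat_lit 30332)) (.lf (nat_lit 15666))) (.nd (.lf (nat_lit 29026)) (.lf (nat_lit 24746))))) (.nd (.nd (.nd (.lf (nat_lit 43836)) (.lf (nat_lit 22738)))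 (.nd (.lf (nat_lit 15138)) (.lf (nat_lit 6218)))) (.nd (.nd (.lf (nat_lit 27644)) (.lf (nat_lit 6770))) (.nd (.lf (nat_lit 20450)) (.lf (nat_lit 4714)))))))) (.nd (.nd (.nd (.nd (.nd (.nd (.nd (.lf (nat_lit 11868)) (.lf (nat_lit 28010))) (.lf (nat_lit 47378))) (.nd (.lf (nat_lit 8322)) (.lf (nat_lit 60274)))) (.nd (.nd (.lf (nat_lit 16828)) (.lf (nat_lit 56786))) (.nd (.lf (nat_lit 57762)) (.lf (nat_lit 2506))))) (.nd (.nd (.nd (.lf (nat_lit 31708)) (.lf (nat_lit 30802))) (.nd (.lf (nat_lit 29634)) (.lf (nat_lit 11786)))) (.nd (.nd (.lf (nat_lit 51068)) (.lf (nat_lit 5810))) (.nd (.lf (nat_lit 48994)) (.lf (nat_lit 20906)))))) (.nd (.nd (.nd (.nd (.nd (.lf (nat_lit 6364)) (.lf (nat_lit 13338))) (.lf (nat_lit 31378))) (.nd (.lf (nat_lit 2626)) (.lf (nat_lit 58866)))) (.nd (.nd (.lf (nat_lit 25724)) (.lf (nat_lit 18738))) (.nd (.lf (nat_lit 610)) (.lf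 (nat_lit 1834))))) (.nd (.nd (.nd (.lf (nat_lit 3388)) (.lf (nat_lit 5970))) (.nd (.lf (nat_lit 7458)) (.lf (nat_lit 906)))) (.nd (.nd (.lf (nat_lit 52732)) (.lf (nat_lit 28786))) (.nd (.lf (nat_lit 46050)) (.lf (nat_lit 9322))))))) (.nd (.nd (.nd (.nd (.nd (.nd (.lf (nat_lit 50012)) (.lf (nat_lit 0x1e3ea))) (.lf (nat_lit 26386))) (.nd (.lf (nat_lit 27010)) (.lf (nat_lit 31986)))) (.nd (.nd (.lf (nat_lit 54204)) (.lf (nat_lit 24626))) (.nd (.lf (nat_lit 62370)) (.lf (nat_lit 10538))))) (.nd (.nd (.nd (.lf (nat_lit 29244)) (.lf (nat_lit 31058))) (.nd (.lf (nat_lit 1570)) (.lf (nat_lit 30858)))) (.nd (.nd (.lf (nat_lit 27388)) (.lf (nat_lit 32178))) (.nd (.lf (nat_lit 41442)) (.lf (nat_lit 56234)))))) (.nd (.nd (.nd (.nd (.lf (nat_lit 43484)) (.lf (nat_lit 15762))) (.nd (.lf (nat_lit 15554)) (.lf (nat_lit 63474)))) (.nd (.nd (.lf (nat_lit 55676)) (.lf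 (nat_lit 26418))) (.nd (.lf (nat_lit 44386)) (.lf (nat_lit 46250))))) (.nd (.nd (.nd (.lf (nat_lit 24380)) (.lf (nat_lit 9938))) (.nd (.lf (nat_lit 65314)) (.lf (nat_lit 10570)))) (.nd (.nd (.lf (nat_lit 24572)) (.lf (nat_lit 61810))) (.nd (.lf (nat_lit 21522)) (.lf (nat_lit 46698)))))))))

def Ix14 : Tb ℕ := (.nd (.nd (.nd (.nd (.nd (.nd (.nd (.nd (.lf (nat_lit 6236)) (.lf (nat_lit 4458))) (.lf (nat_lit 1554))) (.nd (.lf (nat_lit 10754)) (.lf (nat_lit 54642)))) (.nd (.nd (.lf (nat_lit 21692)) (.lf (nat_lit 45522))) (.nd (.lf (nat_lit 27810)) (.lf (nat_lit 5962))))) (.nd (.nd (.nd (.lf (nat_lit 3548)) (.lf (nat_lit 56210))) (.nd (.lf (nat_lit 11970)) (.lf (nat_lit 26634)))) (.nd (.nd (.lf (nat_lit 28028)) (.lf (nat_lit 4274))) (.nd (.lf (nat_lit 2914)) (.lf (nat_lit 12970)))))) (.nd (.nd (.nd (.nd (.nd (.lf (nat_lit 31580)) (.lf (nat_lit 39914)))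 (.lf (nat_lit 8338))) (.nd (.lf (nat_lit 13186)) (.lf (nat_lit 12018)))) (.nd (.nd (.lf (nat_lit 26556)) (.lf (nat_lit 31794))) (.nd (.lf (nat_lit 55202)) (.lf (nat_lit 19754))))) (.nd (.nd (.nd (.lf (nat_lit 49468)) (.lf (nat_lit 23890))) (.nd (.lf (nat_lit 53538)) (.lf (nat_lit 14986)))) (.nd (.nd (.lf (nat_lit 41468)) (.lf (nat_lit 23474))) (.nd (.lf (nat_lit 1506)) (.lf (nat_lit 28586))))))) (.nd (.nd (.nd (.nd (.nd (.nd (.lf (nat_lit 43356)) (.lf (nat_lit 60266))) (.lf (nat_lit 7442))) (.nd (.lf (nat_lit 23682)) (.lf (nat_lit 53106)))) (.nd (.nd (.lf (nat_lit 47548)) (.lf (nat_lit 27602))) (.nd (.lf (nat_lit 50594)) (.lf (nat_lit 12330))))) (.nd (.nd (.nd (.lf (nat_lit 24540)) (.lf (nat_lit 14930))) (.nd (.lf (nat_lit 24610)) (.lf (nat_lit 11530)))) (.nd (.nd (.lf (nat_lit 49020)) (.lf (nat_lit 2482))) (.nd (.lf (nat_lit 3298)) (.lf (nat_lit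 21930)))))) (.nd (.nd (.nd (.nd (.nd (.lf (nat_lit 29404)) (.lf (nat_lit 3482))) (.lf (nat_lit 12690))) (.nd (.lf (nat_lit 15682)) (.lf (nat_lit 17394)))) (.nd (.nd (.lf (nat_lit 14972)) (.lf (nat_lit 19762))) (.nd (.lf (nat_lit 8546)) (.lf (nat_lit 16170))))) (.nd (.nd (.nd (.lf (nat_lit 13116)) (.lf (nat_lit 4306))) (.nd (.lf (nat_lit 52002)) (.lf (nat_lit 16266)))) (.nd (.nd (.lf (nat_lit 46076)) (.lf (nat_lit 25202))) (.nd (.lf (nat_lit 6114)) (.lf (nat_lit 31850)))))))) (.nd (.nd (.nd (.nd (.nd (.nd (.nd (.lf (nat_lit 1628)) (.lf (nat_lit 46442))) (.lf (nat_lit 10514))) (.nd (.lf (nat_lit 9986)) (.lf (nat_lit 29554)))) (.nd (.nd (.lf (nat_lit 20156)) (.lf (nat_lit 19922))) (.nd (.lf (nat_lit 16034)) (.lf (nat_lit 14026))))) (.nd (.nd (.nd (.lf (nat_lit 43996)) (.lf (nat_lit 4178))) (.nd (.lf (nat_lit 15810)) (.lf (nat_lit 1546)))) (.nd (.nd (.lf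 (nat_lit 23420)) (.lf (nat_lit 27314))) (.nd (.lf (nat_lit 44898)) (.lf (nat_lit 65194)))))) (.nd (.nd (.nd (.nd (.nd (.lf (nat_lit 24796)) (.lf (nat_lit 26))) (.lf (nat_lit 12946))) (.nd (.lf (nat_lit 13378)) (.lf (nat_lit 31218)))) (.nd (.nd (.lf (nat_lit 10364)) (.lf (nat_lit 57650))) (.nd (.lf (nat_lit 13410)) (.lf (nat_lit 60202))))) (.nd (.nd (.nd (.lf (nat_lit 58684)) (.lf (nat_lit 64338))) (.nd (.lf (nat_lit 62754)) (.lf (nat_lit 30090)))) (.nd (.nd (.lf (nat_lit 22012)) (.lf (nat_lit 32690))) (.nd (.lf (nat_lit 9186)) (.lf (nat_lit 55402))))))) (.nd (.nd (.nd (.nd (.nd (.nd (.lf (nat_lit 23900)) (.lf (nat_lit 17386))) (.lf (nat_lit 47890))) (.nd (.lf (nat_lit 8578)) (.lf (nat_lit 13554)))) (.nd (.nd (.lf (nat_lit 17340)) (.lf (nat_lit 24530))) (.nd (.lf (nat_lit 25506)) (.lf (nat_lit 20778))))) (.nd (.nd (.nd (.lf (nat_lit 15420)) (.lf (nat_lit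 43346))) (.nd (.lf (nat_lit 29218)) (.lf (nat_lit 4234)))) (.nd (.nd (.lf (nat_lit 8956)) (.lf (nat_lit 44466))) (.nd (.lf (nat_lit 7906)) (.lf (nat_lit 19370)))))) (.nd (.nd (.nd (.nd (.lf (nat_lit 12764)) (.lf (nat_lit 52626))) (.nd (.lf (nat_lit 21698)) (.lf (nat_lit 26610)))) (.nd (.nd (.lf (nat_lit 18812)) (.lf (nat_lit 15154))) (.nd (.lf (nat_lit 13666)) (.lf (nat_lit 50346))))) (.nd (.nd (.nd (.lf (nat_lit 3900)) (.lf (nat_lit 2770))) (.nd (.lf (nat_lit 61218)) (.lf (nat_lit 7754)))) (.nd (.nd (.lf (nat_lit 20476)) (.lf (nat_lit 24946))) (.nd (.lf (nat_lit 6162)) (.lf (nat_lit 9834)))))))))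

def Ix15 : Tb ℕ := (.nd (.nd (.nd (.nd (.nd (.nd (.nd (.nd (.lf (nat_lit 15452)) (.lf (nat_lit 55658))) (.lf (nat_lit 16658))) (.nd (.lf (nat_lit 14594)) (.lf (nat_lit 15730)))) (.nd (.nd (.lf (nat_lit 29372)) (.lf (nat_lit 63954))) (.nd (.lf (nat_lit 23202)) (.lf (nat_lit 5322))))) (.nd (.nd (.nd (.lf (nat_lit 50140)) (.lf (nat_lit 3986))) (.nd (.lf (nat_lit 6594)) (.lf (nat_lit 23562)))) (.nd (.nd (.lf (nat_lit 58236)) (.lf (nat_lit 29874))) (.nd (.lf (nat_lit 51042)) (.lf (nat_lit 26282)))))) (.nd (.nd (.nd (.nd (.nd (.lf (nat_lit 3932)) (.lf (nat_lit 22506))) (.lf (nat_lit 5266))) (.nd (.lf (nat_lit 3970)) (.lf (nat_lit 12786)))) (.nd (.nd (.lf (nat_lit 8124)) (.lf (nat_lit 26162))) (.nd (.lf (nat_lit 49058)) (.lf (nat_lit 41770))))) (.nd (.nd (.nd (.lf (nat_lit 43324)) (.lf (nat_lit 45906))) (.nd (.lf (nat_lit 47394)) (.lf (nat_lit 8586))))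 (.nd (.nd (.lf (nat_lit 59900)) (.lf (nat_lit 14258))) (.nd (.lf (nat_lit 52706)) (.lf (nat_lit 4202))))))) (.nd (.nd (.nd (.nd (.nd (.nd (.lf (nat_lit 58716)) (.lf (nat_lit 1770))) (.lf (nat_lit 54034))) (.nd (.lf (nat_lit 31362)) (.lf (nat_lit 4338)))) (.nd (.nd (.lf (nat_lit 62908)) (.lf (nat_lit 6098))) (.nd (.lf (nat_lit 44450)) (.lf (nat_lit 6698))))) (.nd (.nd (.nd (.lf (nat_lit 6204)) (.lf (nat_lit 16722))) (.nd (.lf (nat_lit 21538)) (.lf (nat_lit 31498)))) (.nd (.nd (.lf (nat_lit 30972)) (.lf (nat_lit 50610))) (.nd (.lf (nat_lit 27362)) (.lf (nat_lit 64938)))))) (.nd (.nd (.nd (.nd (.lf (nat_lit 11996)) (.lf (nat_lit 63890))) (.nd (.lf (nat_lit 8386)) (.lf (nat_lit 11250)))) (.nd (.nd (.lf (nat_lit 32380)) (.lf (nat_lit 58162))) (.nd (.lf (nat_lit 6498)) (.lf (nat_lit 61610))))) (.nd (.nd (.nd (.lf (nat_lit 31548)) (.lf (nat_lit 13522)))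 (.nd (.lf (nat_lit 42786)) (.lf (nat_lit 7242)))) (.nd (.nd (.lf (nat_lit 64508)) (.lf (nat_lit 22130))) (.nd (.lf (nat_lit 24546)) (.lf (nat_lit 19050)))))))) (.nd (.nd (.nd (.nd (.nd (.nd (.nd (.lf (nat_lit 49500)) (.lf (nat_lit 32106))) (.lf (nat_lit 25874))) (.nd (.lf (nat_lit 26754)) (.lf (nat_lit 1906)))) (.nd (.nd (.lf (nat_lit 53692)) (.lf (nat_lit 9170))) (.nd (.lf (nat_lit 2466)) (.lf (nat_lit 15818))))) (.nd (.nd (.nd (.lf (nat_lit 59356)) (.lf (nat_lit 11346))) (.nd (.lf (nat_lit 1986)) (.lf (nat_lit 4362)))) (.nd (.nd (.lf (nat_lit 14204)) (.lf (nat_lit 24242))) (.nd (.lf (nat_lit 12514)) (.lf (nat_lit 10666)))))) (.nd (.nd (.nd (.nd (.nd (.lf (nat_lit 21724)) (.lf (nat_lit 6682))) (.lf (nat_lit 3730))) (.nd (.lf (nat_lit 11842)) (.lf (nat_lit 3570)))) (.nd (.nd (.lf (nat_lit 7292)) (.lf (nat_lit 14642))) (.nd (.lf (nat_lit 14946)) (.lf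 (nat_lit 22314))))) (.nd (.nd (.nd (.lf (nat_lit 23868)) (.lf (nat_lit 20306))) (.nd (.lf (nat_lit 802)) (.lf (nat_lit 27530)))) (.nd (.nd (.lf (nat_lit 56828)) (.lf (nat_lit 1138))) (.nd (.lf (nat_lit 27618)) (.lf (nat_lit 46186))))))) (.nd (.nd (.nd (.nd (.nd (.nd (.lf (nat_lit 13148)) (.lf (nat_lit 0x1b3ea))) (.lf (nat_lit 63250))) (.nd (.lf (nat_lit 5506)) (.lf (nat_lit 2802)))) (.nd (.nd (.lf (nat_lit 11196)) (.lf (nat_lit 22578))) (.nd (.lf (nat_lit 7074)) (.lf (nat_lit 31018))))) (.nd (.nd (.nd (.lf (nat_lit 1596)) (.lf (nat_lit 58706))) (.nd (.lf (nat_lit 20002)) (.lf (nat_lit 11402)))) (.nd (.nd (.lf (nat_lit 5884)) (.lf (nat_lit 58290))) (.nd (.lf (nat_lit 29154)) (.lf (nat_lit 10154)))))) (.nd (.nd (.nd (.nd (.lf (nat_lit 31196)) (.lf (nat_lit 25490))) (.nd (.lf (nat_lit 29378)) (.lf (nat_lit 8178)))) (.nd (.nd (.lf (nat_lit 9596)) (.lf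 (nat_lit 3890))) (.nd (.lf (nat_lit 32098)) (.lf (nat_lit 27818))))) (.nd (.nd (.nd (.lf (nat_lit 24764)) (.lf (nat_lit 28370))) (.nd (.lf (nat_lit 2210)) (.lf (nat_lit 3402)))) (.nd (.nd (.lf (nat_lit 12290)) (.lf (nat_lit 6514))) (.nd (.lf (nat_lit 15378)) (.lf (nat_lit 28266)))))))))

def Ix16 : Tb ℕ := (.nd (.nd (.nd (.nd (.nd (.nd (.nd (.nd (.lf (nat_lit 28764)) (.lf (nat_lit 8554))) (.lf (nat_lit 6674))) (.nd (.lf (nat_lit 514)) (.lf (nat_lit 25970)))) (.nd (.nd (.lf (nat_lit 1212)) (.lf (nat_lit 4562))) (.nd (.lf (nat_lit 13474)) (.lf (nat_lit 15178))))) (.nd (.nd (.nd (.lf (nat_lit 13788)) (.lf (nat_lit 27538))) (.nd (.lf (nat_lit 22210)) (.lf (nat_lit 12298)))) (.nd (.nd (.lf (nat_lit 19836)) (.lf (nat_lit 65330))) (.nd (.lf (nat_lit 13154)) (.lf (nat_lit 25258)))))) (.nd (.nd (.nd (.nd (.nd (.lf (nat_lit 23388)) (.lf (nat_lit 27626))) (.lf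 (nat_lit 48914))) (.nd (.lf (nat_lit 9090)) (.lf (nat_lit 14066)))) (.nd (.nd (.lf (nat_lit 18364)) (.lf (nat_lit 27698))) (.nd (.lf (nat_lit 26530)) (.lf (nat_lit 46378))))) (.nd (.nd (.nd (.lf (nat_lit 15932)) (.lf (nat_lit 44370))) (.nd (.lf (nat_lit 24866)) (.lf (nat_lit 2698)))) (.nd (.nd (.lf (nat_lit 508)) (.lf (nat_lit 43954))) (.nd (.lf (nat_lit 14818)) (.lf (nat_lit 20394))))))) (.nd (.nd (.nd (.nd (.nd (.nd (.lf (nat_lit 2396)) (.lf (nat_lit 2922))) (.lf (nat_lit 11538))) (.nd (.lf (nat_lit 3202)) (.lf (nat_lit 30578)))) (.nd (.nd (.lf (nat_lit 6588)) (.lf (nat_lit 19410))) (.nd (.lf (nat_lit 31138)) (.lf (nat_lit 8138))))) (.nd (.nd (.nd (.lf (nat_lit 45020)) (.lf (nat_lit 2642))) (.nd (.lf (nat_lit 16322)) (.lf (nat_lit 5386)))) (.nd (.nd (.lf (nat_lit 40828)) (.lf (nat_lit 12722))) (.nd (.lf (nat_lit 5346)) (.lf (nat_lit 9642)))))) (.nd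 (.nd (.nd (.nd (.nd (.lf (nat_lit 25308)) (.lf (nat_lit 154))) (.lf (nat_lit 57746))) (.nd (.lf (nat_lit 13634)) (.lf (nat_lit 48626)))) (.nd (.nd (.lf (nat_lit 10876)) (.lf (nat_lit 13618))) (.nd (.lf (nat_lit 32354)) (.lf (nat_lit 61226))))) (.nd (.nd (.nd (.lf (nat_lit 58172)) (.lf (nat_lit 65362))) (.nd (.lf (nat_lit 29474)) (.lf (nat_lit 12170)))) (.nd (.nd (.lf (nat_lit 5116)) (.lf (nat_lit 15474))) (.nd (.lf (nat_lit 10210)) (.lf (nat_lit 23658)))))))) (.nd (.nd (.nd (.nd (.nd (.nd (.nd (.lf (nat_lit 6748)) (.lf (nat_lit 5482))) (.lf (nat_lit 61714))) (.nd (.lf (nat_lit 11010)) (.lf (nat_lit 21362)))) (.nd (.nd (.lf (nat_lit 22204)) (.lf (nat_lit 46546))) (.nd (.lf (nat_lit 11938)) (.lf (nat_lit 15050))))) (.nd (.nd (.nd (.lf (nat_lit 3036)) (.lf (nat_lit 65426))) (.nd (.lf (nat_lit 11714)) (.lf (nat_lit 6666)))) (.nd (.nd (.lf (nat_lit 43900))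 (.lf (nat_lit 12978))) (.nd (.lf (nat_lit 3938)) (.lf (nat_lit 7850)))))) (.nd (.nd (.nd (.nd (.nd (.lf (nat_lit 32604)) (.lf (nat_lit 57322))) (.lf (nat_lit 8850))) (.nd (.lf (nat_lit 6210)) (.lf (nat_lit 23026)))) (.nd (.nd (.lf (nat_lit 20604)) (.lf (nat_lit 306))) (.nd (.lf (nat_lit 30818)) (.lf (nat_lit 52010))))) (.nd (.nd (.nd (.lf (nat_lit 50492)) (.lf (nat_lit 56146))) (.nd (.lf (nat_lit 54562)) (.lf (nat_lit 9610)))) (.nd (.nd (.lf (nat_lit 42492)) (.lf (nat_lit 24498))) (.nd (.lf (nat_lit 64994)) (.lf (nat_lit 26730))))))) (.nd (.nd (.nd (.nd (.nd (.nd (.lf (nat_lit 44380)) (.lf (nat_lit 7658))) (.lf (nat_lit 6930))) (.nd (.lf (nat_lit 24194)) (.lf (nat_lit 9458)))) (.nd (.nd (.lf (nat_lit 48572)) (.lf (nat_lit 28626))) (.nd (.lf (nat_lit 17314)) (.lf (nat_lit 8490))))) (.nd (.nd (.nd (.lf (nat_lit 11324)) (.lf (nat_lit 2386))) (.nd (.lf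 (nat_lit 25122)) (.lf (nat_lit 32522)))) (.nd (.nd (.lf (nat_lit 23804)) (.lf (nat_lit 3506))) (.nd (.lf (nat_lit 3810)) (.lf (nat_lit 45994)))))) (.nd (.nd (.nd (.nd (.lf (nat_lit 57820)) (.lf (nat_lit 30098))) (.nd (.lf (nat_lit 1218)) (.lf (nat_lit 18418)))) (.nd (.nd (.lf (nat_lit 45436)) (.lf (nat_lit 60210))) (.nd (.lf (nat_lit 58722)) (.lf (nat_lit 30890))))) (.nd (.nd (.nd (.lf (nat_lit 14140)) (.lf (nat_lit 4818))) (.nd (.lf (nat_lit 53026)) (.lf (nat_lit 5706)))) (.nd (.nd (.lf (nat_lit 47100)) (.lf (nat_lit 16754))) (.nd (.lf (nat_lit 28690)) (.lf (nat_lit 64106)))))))))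

def Ix17 : Tb ℕ := (.nd (.nd (.nd (.nd (.nd (.nd (.nd (.nd (.lf (nat_lit 11356)) (.lf (nat_lit 26986))) (.lf (nat_lit 24082))) (.nd (.lf (nat_lit 12546)) (.lf (nat_lit 7538)))) (.nd (.nd (.lf (nat_lit 25276)) (.lf (nat_lit 55762))) (.nd (.lf (nat_lit 2722)) (.lf (nat_lit 6346))))) (.nd (.nd (.nd (.lf (nat_lit 32220)) (.lf (nat_lit 55186))) (.nd (.lf (nat_lit 29122)) (.lf (nat_lit 3082)))) (.nd (.nd (.lf (nat_lit 50044)) (.lf (nat_lit 25778))) (.nd (.lf (nat_lit 31586)) (.lf (nat_lit 64170)))))) (.nd (.nd (.nd (.nd (.nd (.lf (nat_lit 14172)) (.lf (nat_lit 10218))) (.lf (nat_lit 30866))) (.nd (.lf (nat_lit 6018)) (.lf (nat_lit 57842)))) (.nd (.nd (.lf (nat_lit 12220)) (.lf (nat_lit 14898))) (.nd (.lf (nat_lit 8098)) (.lf (nat_lit 810))))) (.nd (.nd (.nd (.lf (nat_lit 2364)) (.lf (nat_lit 4946))) (.nd (.lf (nat_lit 6434)) (.lf (nat_lit 24202)))) (.nd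 (.nd (.lf (nat_lit 51708)) (.lf (nat_lit 59314))) (.nd (.lf (nat_lit 30178)) (.lf (nat_lit 8298))))))) (.nd (.nd (.nd (.nd (.nd (.nd (.lf (nat_lit 50524)) (.lf (nat_lit 3306))) (.lf (nat_lit 25362))) (.nd (.lf (nat_lit 27266)) (.lf (nat_lit 65394)))) (.nd (.nd (.lf (nat_lit 54716)) (.lf (nat_lit 10194))) (.nd (.lf (nat_lit 3490)) (.lf (nat_lit 4650))))) (.nd (.nd (.nd (.lf (nat_lit 28732)) (.lf (nat_lit 24146))) (.nd (.lf (nat_lit 1058)) (.lf (nat_lit 11018)))) (.nd (.nd (.lf (nat_lit 26876)) (.lf (nat_lit 31154))) (.nd (.lf (nat_lit 13026)) (.lf (nat_lit 23978)))))) (.nd (.nd (.nd (.nd (.lf (nat_lit 22236)) (.lf (nat_lit 55698))) (.nd (.lf (nat_lit 12098)) (.lf (nat_lit 62450)))) (.nd (.nd (.lf (nat_lit 28284)) (.lf (nat_lit 17202))) (.nd (.lf (nat_lit 51554)) (.lf (nat_lit 53418))))) (.nd (.nd (.nd (.lf (nat_lit 23356)) (.lf (nat_lit 9426))) (.nd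 (.lf (nat_lit 1826)) (.lf (nat_lit 5194)))) (.nd (.nd (.lf (nat_lit 56316)) (.lf (nat_lit 1650))) (.nd (.lf (nat_lit 28642)) (.lf (nat_lit 45674)))))))) (.nd (.nd (.nd (.nd (.nd (.nd (.nd (.lf (nat_lit 15964)) (.lf (nat_lit 23914))) (.lf (nat_lit 17682))) (.nd (.lf (nat_lit 12418)) (.lf (nat_lit 15218)))) (.nd (.nd (.lf (nat_lit 25020)) (.lf (nat_lit 64978))) (.nd (.lf (nat_lit 12706)) (.lf (nat_lit 5578))))) (.nd (.nd (.nd (.lf (nat_lit 51164)) (.lf (nat_lit 5202))) (.nd (.lf (nat_lit 7106)) (.lf (nat_lit 15882)))) (.nd (.nd (.lf (nat_lit 59260)) (.lf (nat_lit 3762))) (.nd (.lf (nat_lit 8418)) (.lf (nat_lit 61866)))))) (.nd (.nd (.nd (.nd (.nd (.lf (nat_lit 1244)) (.lf (nat_lit 538))) (.lf (nat_lit 5778))) (.nd (.lf (nat_lit 1602)) (.lf (nat_lit 13810)))) (.nd (.nd (.lf (nat_lit 29820)) (.lf (nat_lit 59698))) (.nd (.lf (nat_lit 29282)) (.lf (nat_lit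 42794))))) (.nd (.nd (.nd (.lf (nat_lit 44348)) (.lf (nat_lit 46930))) (.nd (.lf (nat_lit 15650)) (.lf (nat_lit 13194)))) (.nd (.nd (.lf (nat_lit 60924)) (.lf (nat_lit 6258))) (.nd (.lf (nat_lit 19426)) (.lf (nat_lit 5226))))))) (.nd (.nd (.nd (.nd (.nd (.nd (.lf (nat_lit 58204)) (.lf (nat_lit 54250))) (.lf (nat_lit 55058))) (.nd (.lf (nat_lit 31106)) (.lf (nat_lit 4850)))) (.nd (.nd (.lf (nat_lit 62396)) (.lf (nat_lit 2098))) (.nd (.lf (nat_lit 11170)) (.lf (nat_lit 22826))))) (.nd (.nd (.nd (.lf (nat_lit 6716)) (.lf (nat_lit 50514))) (.nd (.lf (nat_lit 22050)) (.lf (nat_lit 5258)))) (.nd (.nd (.lf (nat_lit 31484)) (.lf (nat_lit 50098))) (.nd (.lf (nat_lit 20962)) (.lf (nat_lit 64426)))))) (.nd (.nd (.nd (.nd (.lf (nat_lit 23004)) (.lf (nat_lit 914))) (.nd (.lf (nat_lit 25282)) (.lf (nat_lit 12274)))) (.nd (.nd (.lf (nat_lit 63868)) (.lf (nat_lit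 55090))) (.nd (.lf (nat_lit 23906)) (.lf (nat_lit 19626))))) (.nd (.nd (.nd (.lf (nat_lit 32572)) (.lf (nat_lit 14034))) (.nd (.lf (nat_lit 4258)) (.lf (nat_lit 1354)))) (.nd (.nd (.lf (nat_lit 32764)) (.lf (nat_lit 10610))) (.nd (.lf (nat_lit 11282)) (.lf (nat_lit 20074)))))))))

def Ix18 : Tb ℕ := (.nd (.nd (.nd (.nd (.nd (.nd (.nd (.nd (.lf (nat_lit 1116)) (.lf (nat_lit 45418))) (.lf (nat_lit 22034))) (.nd (.lf (nat_lit 5634)) (.lf (nat_lit 62834)))) (.nd (.nd (.lf (nat_lit 11452)) (.lf (nat_lit 18898))) (.nd (.lf (nat_lit 31906)) (.lf (nat_lit 8010))))) (.nd (.nd (.nd (.lf (nat_lit 44508)) (.lf (nat_lit 1938))) (.nd (.lf (nat_lit 16066)) (.lf (nat_lit 30730)))) (.nd (.nd (.lf (nat_lit 23932)) (.lf (nat_lit 10418))) (.nd (.lf (nat_lit 43874)) (.lf (nat_lit 19114)))))) (.nd (.nd (.nd (.nd (.nd (.lf (nat_lit 51036)) (.lf (nat_lit 15338))) (.lf (nat_lit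 12434))) (.nd (.lf (nat_lit 27522)) (.lf (nat_lit 16114)))) (.nd (.nd (.lf (nat_lit 55228)) (.lf (nat_lit 4658))) (.nd (.lf (nat_lit 63394)) (.lf (nat_lit 60714))))) (.nd (.nd (.nd (.lf (nat_lit 57660)) (.lf (nat_lit 32082))) (.nd (.lf (nat_lit 61730)) (.lf (nat_lit 26250)))) (.nd (.nd (.lf (nat_lit 20988)) (.lf (nat_lit 31666))) (.nd (.lf (nat_lit 42466)) (.lf (nat_lit 57258))))))) (.nd (.nd (.nd (.nd (.nd (.nd (.lf (nat_lit 22876)) (.lf (nat_lit 15210))) (.lf (nat_lit 48402))) (.nd (.lf (nat_lit 8834)) (.lf (nat_lit 61298)))) (.nd (.nd (.lf (nat_lit 17852)) (.lf (nat_lit 56274))) (.nd (.lf (nat_lit 58786)) (.lf (nat_lit 1066))))) (.nd (.nd (.nd (.lf (nat_lit 32732)) (.lf (nat_lit 26194))) (.nd (.lf (nat_lit 28706)) (.lf (nat_lit 32010)))) (.nd (.nd (.lf (nat_lit 8444)) (.lf (nat_lit 43442))) (.nd (.lf (nat_lit 23778)) (.lf (nat_lit 62890)))))) (.nd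 (.nd (.nd (.nd (.nd (.lf (nat_lit 6876)) (.lf (nat_lit 3994))) (.lf (nat_lit 2450))) (.nd (.lf (nat_lit 2882)) (.lf (nat_lit 25586)))) (.nd (.nd (.lf (nat_lit 26236)) (.lf (nat_lit 60722))) (.nd (.lf (nat_lit 20834)) (.lf (nat_lit 170))))) (.nd (.nd (.nd (.lf (nat_lit 2876)) (.lf (nat_lit 2258))) (.nd (.lf (nat_lit 60194)) (.lf (nat_lit 4170)))) (.nd (.nd (.lf (nat_lit 19452)) (.lf (nat_lit 29298))) (.nd (.lf (nat_lit 47074)) (.lf (nat_lit 49770)))))))) (.nd (.nd (.nd (.nd (.nd (.nd (.nd (.lf (nat_lit 22108)) (.lf (nat_lit 19818))) (.lf (nat_lit 6418))) (.nd (.lf (nat_lit 12034)) (.lf (nat_lit 52082)))) (.nd (.nd (.lf (nat_lit 24252)) (.lf (nat_lit 28114))) (.nd (.lf (nat_lit 49570)) (.lf (nat_lit 16074))))) (.nd (.nd (.nd (.lf (nat_lit 23516)) (.lf (nat_lit 10322))) (.nd (.lf (nat_lit 25538)) (.lf (nat_lit 22026)))) (.nd (.nd (.lf (nat_lit 31612))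 (.lf (nat_lit 31410))) (.nd (.lf (nat_lit 40802)) (.lf (nat_lit 8618)))))) (.nd (.nd (.nd (.nd (.nd (.lf (nat_lit 28892)) (.lf (nat_lit 6170))) (.lf (nat_lit 27282))) (.nd (.lf (nat_lit 15426)) (.lf (nat_lit 50674)))) (.nd (.nd (.lf (nat_lit 14460)) (.lf (nat_lit 12594))) (.nd (.lf (nat_lit 27746)) (.lf (nat_lit 15146))))) (.nd (.nd (.nd (.lf (nat_lit 13628)) (.lf (nat_lit 10066))) (.nd (.lf (nat_lit 11554)) (.lf (nat_lit 7562)))) (.nd (.nd (.lf (nat_lit 30204)) (.lf (nat_lit 24690))) (.nd (.lf (nat_lit 5090)) (.lf (nat_lit 63594))))))) (.nd (.nd (.nd (.nd (.nd (.nd (.lf (nat_lit 32092)) (.lf (nat_lit 41962))) (.lf (nat_lit 18194))) (.nd (.lf (nat_lit 12674)) (.lf (nat_lit 27890)))) (.nd (.nd (.lf (nat_lit 25532)) (.lf (nat_lit 32722))) (.nd (.lf (nat_lit 54178)) (.lf (nat_lit 61738))))) (.nd (.nd (.nd (.lf (nat_lit 25148)) (.lf (nat_lit 22866)))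 (.nd (.lf (nat_lit 6690)) (.lf (nat_lit 10378)))) (.nd (.nd (.lf (nat_lit 13052)) (.lf (nat_lit 23986))) (.nd (.lf (nat_lit 482)) (.lf (nat_lit 27562)))))) (.nd (.nd (.nd (.nd (.lf (nat_lit 2524)) (.lf (nat_lit 60818))) (.nd (.lf (nat_lit 11458)) (.lf (nat_lit 55282)))) (.nd (.nd (.lf (nat_lit 27004)) (.lf (nat_lit 1842))) (.nd (.lf (nat_lit 3426)) (.lf (nat_lit 5290))))) (.nd (.nd (.nd (.lf (nat_lit 44860)) (.lf (nat_lit 23250))) (.nd (.lf (nat_lit 57122)) (.lf (nat_lit 8522)))) (.nd (.nd (.lf (nat_lit 28668)) (.lf (nat_lit 53618))) (.nd (.lf (nat_lit 1042)) (.lf (nat_lit 5738)))))))))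

def Ix19 : Tb ℕ := (.nd (.nd (.nd (.nd (.nd (.nd (.nd (.nd (.lf (nat_lit 25180)) (.lf (nat_lit 63850))) (.lf (nat_lit 24850))) (.nd (.lf (nat_lit 3330)) (.lf (nat_lit 882)))) (.nd (.nd (.lf (nat_lit 6844)) (.lf (nat_lit 9682))) (.nd (.lf (nat_lit 9890)) (.lf (nat_lit 7370))))) (.nd (.nd (.nd (.lf (nat_lit 58332)) (.lf (nat_lit 28562))) (.nd (.lf (nat_lit 1474)) (.lf (nat_lit 8714)))) (.nd (.nd (.lf (nat_lit 13180)) (.lf (nat_lit 7346))) (.nd (.lf (nat_lit 59234)) (.lf (nat_lit 13994)))))) (.nd (.nd (.nd (.nd (.nd (.lf (nat_lit 44892)) (.lf (nat_lit 63466))) (.lf (nat_lit 3218))) (.nd (.lf (nat_lit 24450)) (.lf (nat_lit 2546)))) (.nd (.nd (.lf (nat_lit 16316)) (.lf (nat_lit 30258))) (.nd (.lf (nat_lit 8290)) (.lf (nat_lit 21290))))) (.nd (.nd (.nd (.lf (nat_lit 22844)) (.lf (nat_lit 19282))) (.nd (.lf (nat_lit 17698)) (.lf (nat_lit 29066)))) (.nd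 (.nd (.lf (nat_lit 14844)) (.lf (nat_lit 4018))) (.nd (.lf (nat_lit 60898)) (.lf (nat_lit 45162))))))) (.nd (.nd (.nd (.nd (.nd (.nd (.lf (nat_lit 13660)) (.lf (nat_lit 490))) (.lf (nat_lit 62226))) (.nd (.lf (nat_lit 5762)) (.lf (nat_lit 2290)))) (.nd (.nd (.lf (nat_lit 11708)) (.lf (nat_lit 47058))) (.nd (.lf (nat_lit 40354)) (.lf (nat_lit 13866))))) (.nd (.nd (.nd (.lf (nat_lit 1084)) (.lf (nat_lit 57682))) (.nd (.lf (nat_lit 11298)) (.lf (nat_lit 5898)))) (.nd (.nd (.lf (nat_lit 5372)) (.lf (nat_lit 58802))) (.nd (.lf (nat_lit 31458)) (.lf (nat_lit 9130)))))) (.nd (.nd (.nd (.nd (.lf (nat_lit 16092)) (.lf (nat_lit 9618))) (.nd (.lf (nat_lit 28866)) (.lf (nat_lit 7154)))) (.nd (.nd (.lf (nat_lit 8572)) (.lf (nat_lit 13106))) (.nd (.lf (nat_lit 47458)) (.lf (nat_lit 10410))))) (.nd (.nd (.nd (.lf (nat_lit 51004)) (.lf (nat_lit 27858))) (.nd (.lf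 (nat_lit 22306)) (.lf (nat_lit 4682)))) (.nd (.nd (.lf (nat_lit 10236)) (.lf (nat_lit 20082))) (.nd (.lf (nat_lit 32738)) (.lf (nat_lit 27242)))))))) (.nd (.nd (.nd (.nd (.nd (.nd (.nd (.lf (nat_lit 57692)) (.lf (nat_lit 9066))) (.lf (nat_lit 54546))) (.nd (.lf (nat_lit 30850)) (.lf (nat_lit 42866)))) (.nd (.nd (.lf (nat_lit 61884)) (.lf (nat_lit 5074))) (.nd (.lf (nat_lit 43426)) (.lf (nat_lit 3018))))) (.nd (.nd (.nd (.lf (nat_lit 14300)) (.lf (nat_lit 15442))) (.nd (.lf (nat_lit 22466)) (.lf (nat_lit 10506)))) (.nd (.nd (.lf (nat_lit 3964)) (.lf (nat_lit 16818))) (.nd (.lf (nat_lit 26850)) (.lf (nat_lit 22954)))))) (.nd (.nd (.nd (.nd (.nd (.lf (nat_lit 11484)) (.lf (nat_lit 13850))) (.lf (nat_lit 24210))) (.nd (.lf (nat_lit 4418)) (.lf (nat_lit 44530)))) (.nd (.nd (.lf (nat_lit 636)) (.lf (nat_lit 17714))) (.nd (.lf (nat_lit 5730)) (.lf (nat_lit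 30506))))) (.nd (.nd (.nd (.lf (nat_lit 32060)) (.lf (nat_lit 28498))) (.nd (.lf (nat_lit 41762)) (.lf (nat_lit 31626)))) (.nd (.nd (.lf (nat_lit 65020)) (.lf (nat_lit 21618))) (.nd (.lf (nat_lit 56290)) (.lf (nat_lit 19562))))))) (.nd (.nd (.nd (.nd (.nd (.nd (.lf (nat_lit 2908)) (.lf (nat_lit 3050))) (.lf (nat_lit 12050))) (.nd (.lf (nat_lit 3458)) (.lf (nat_lit 23282)))) (.nd (.nd (.lf (nat_lit 7100)) (.lf (nat_lit 9266))) (.nd (.lf (nat_lit 48034)) (.lf (nat_lit 50474))))) (.nd (.nd (.nd (.lf (nat_lit 22076)) (.lf (nat_lit 13650))) (.nd (.lf (nat_lit 24098)) (.lf (nat_lit 15498)))) (.nd (.nd (.lf (nat_lit 3836)) (.lf (nat_lit 13234))) (.nd (.lf (nat_lit 51682)) (.lf (nat_lit 6058)))))) (.nd (.nd (.nd (.nd (.lf (nat_lit 50652)) (.lf (nat_lit 54162))) (.nd (.lf (nat_lit 6850)) (.lf (nat_lit 16370)))) (.nd (.nd (.lf (nat_lit 5500)) (.lf (nat_lit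 28466))) (.nd (.lf (nat_lit 50018)) (.lf (nat_lit 56490))))) (.nd (.nd (.nd (.lf (nat_lit 28860)) (.lf (nat_lit 32466))) (.nd (.lf (nat_lit 22690)) (.lf (nat_lit 32074)))) (.nd (.nd (.lf (nat_lit 14338)) (.lf (nat_lit 47474))) (.nd (.lf (nat_lit 25106)) (.lf (nat_lit 56938)))))))))

def Ix20 : Tb ℕ := (.nd (.nd (.nd (.nd (.nd (.nd (.nd (.nd (.lf (nat_lit 8284)) (.lf (nat_lit 32362))) (.lf (nat_lit 12818))) (.nd (.lf (nat_lit 13314)) (.lf (nat_lit 1394)))) (.nd (.nd (.lf (nat_lit 26812)) (.lf (nat_lit 49618))) (.nd (.lf (nat_lit 1186)) (.lf (nat_lit 4938))))) (.nd (.nd (.nd (.lf (nat_lit 26076)) (.lf (nat_lit 62354))) (.nd (.lf (nat_lit 31426)) (.lf (nat_lit 65522)))) (.nd (.nd (.lf (nat_lit 13692)) (.lf (nat_lit 24370))) (.nd (.lf (nat_lit 25442)) (.lf (nat_lit 31914)))))) (.nd (.nd (.nd (.nd (.nd (.lf (nat_lit 11100)) (.lf (nat_lit 52202))) (.lf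 (nat_lit 61202))) (.nd (.lf (nat_lit 7554)) (.lf (nat_lit 1778)))) (.nd (.nd (.lf (nat_lit 15292)) (.lf (nat_lit 21554))) (.nd (.lf (nat_lit 1954)) (.lf (nat_lit 58666))))) (.nd (.nd (.nd (.lf (nat_lit 3644)) (.lf (nat_lit 62802))) (.nd (.lf (nat_lit 290)) (.lf (nat_lit 8842)))) (.nd (.nd (.lf (nat_lit 28412)) (.lf (nat_lit 62386))) (.nd (.lf (nat_lit 27106)) (.lf (nat_lit 14250))))))) (.nd (.nd (.nd (.nd (.nd (.nd (.lf (nat_lit 53596)) (.lf (nat_lit 4970))) (.lf (nat_lit 29970))) (.nd (.lf (nat_lit 25730)) (.lf (nat_lit 6002)))) (.nd (.nd (.lf (nat_lit 51644)) (.lf (nat_lit 13266))) (.nd (.lf (nat_lit 6562)) (.lf (nat_lit 1994))))) (.nd (.nd (.nd (.lf (nat_lit 63452)) (.lf (nat_lit 8786))) (.nd (.lf (nat_lit 4034)) (.lf (nat_lit 14602)))) (.nd (.nd (.lf (nat_lit 12156)) (.lf (nat_lit 25010))) (.nd (.lf (nat_lit 14562)) (.lf (nat_lit 31146)))))) (.nd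 (.nd (.nd (.nd (.nd (.lf (nat_lit 23772)) (.lf (nat_lit 7706))) (.lf (nat_lit 402))) (.nd (.lf (nat_lit 10562)) (.lf (nat_lit 7666)))) (.nd (.nd (.lf (nat_lit 4732)) (.lf (nat_lit 25906))) (.nd (.lf (nat_lit 3682)) (.lf (nat_lit 20266))))) (.nd (.nd (.nd (.lf (nat_lit 17212)) (.lf (nat_lit 24402))) (.nd (.lf (nat_lit 4898)) (.lf (nat_lit 26506)))) (.nd (.nd (.lf (nat_lit 50172)) (.lf (nat_lit 3186))) (.nd (.lf (nat_lit 31714)) (.lf (nat_lit 44138)))))))) (.nd (.nd (.nd (.nd (.nd (.nd (.nd (.lf (nat_lit 12892)) (.lf (nat_lit 50538))) (.lf (nat_lit 20754))) (.nd (.lf (nat_lit 15618)) (.lf (nat_lit 9074)))) (.nd (.nd (.lf (nat_lit 31420)) (.lf (nat_lit 58834))) (.nd (.lf (nat_lit 22178)) (.lf (nat_lit 4810))))) (.nd (.nd (.nd (.lf (nat_lit 54236)) (.lf (nat_lit 24466))) (.nd (.lf (nat_lit 5570)) (.lf (nat_lit 12810)))) (.nd (.nd (.lf (nat_lit 62332))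 (.lf (nat_lit 31922))) (.nd (.lf (nat_lit 55138)) (.lf (nat_lit 3754)))))) (.nd (.nd (.nd (.nd (.nd (.lf (nat_lit 8028)) (.lf (nat_lit 12266))) (.lf (nat_lit 7314))) (.nd (.lf (nat_lit 66)) (.lf (nat_lit 10738)))) (.nd (.nd (.lf (nat_lit 65468)) (.lf (nat_lit 28210))) (.nd (.lf (nat_lit 28770)) (.lf (nat_lit 45866))))) (.nd (.nd (.nd (.lf (nat_lit 47420)) (.lf (nat_lit 43858))) (.nd (.lf (nat_lit 42274)) (.lf (nat_lit 27018)))) (.nd (.nd (.lf (nat_lit 63996)) (.lf (nat_lit 12210))) (.nd (.lf (nat_lit 24034)) (.lf (nat_lit 2154))))))) (.nd (.nd (.nd (.nd (.nd (.nd (.lf (nat_lit 62812)) (.lf (nat_lit 6634))) (.lf (nat_lit 51986))) (.nd (.lf (nat_lit 30338)) (.lf (nat_lit 6386)))) (.nd (.nd (.lf (nat_lit 60860)) (.lf (nat_lit 4050))) (.nd (.lf (nat_lit 15778)) (.lf (nat_lit 7722))))) (.nd (.nd (.nd (.lf (nat_lit 5180)) (.lf (nat_lit 53586))) (.nd (.lf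 (nat_lit 23586)) (.lf (nat_lit 3850)))) (.nd (.nd (.lf (nat_lit 29948)) (.lf (nat_lit 54706))) (.nd (.lf (nat_lit 26338)) (.lf (nat_lit 58282)))))) (.nd (.nd (.nd (.nd (.lf (nat_lit 16860)) (.lf (nat_lit 5522))) (.nd (.lf (nat_lit 26818)) (.lf (nat_lit 15346)))) (.nd (.nd (.lf (nat_lit 57724)) (.lf (nat_lit 2866))) (.nd (.lf (nat_lit 1378)) (.lf (nat_lit 6314))))) (.nd (.nd (.nd (.lf (nat_lit 26428)) (.lf (nat_lit 15570))) (.nd (.lf (nat_lit 46882)) (.lf (nat_lit 10826)))) (.nd (.nd (.lf (nat_lit 59388)) (.lf (nat_lit 7794))) (.nd (.lf (nat_lit 8210)) (.lf (nat_lit 23146)))))))))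

def Ix21 : Tb ℕ := (.nd (.nd (.nd (.nd (.nd (.nd (.nd (.nd (.lf (nat_lit 5212)) (.lf (nat_lit 2410))) (.lf (nat_lit 3602))) (.nd (.lf (nat_lit 11778)) (.lf (nat_lit 52594)))) (.nd (.nd (.lf (nat_lit 23740)) (.lf (nat_lit 43474))) (.nd (.lf (nat_lit 25250)) (.lf (nat_lit 202))))) (.nd (.nd (.nd (.lf (nat_lit 7644)) (.lf (nat_lit 10130))) (.nd (.lf (nat_lit 8642)) (.lf (nat_lit 25610)))) (.nd (.nd (.lf (nat_lit 48508)) (.lf (nat_lit 22706))) (.nd (.lf (nat_lit 7010)) (.lf (nat_lit 60074)))))) (.nd (.nd (.nd (.nd (.nd (.lf (nat_lit 26460)) (.lf (nat_lit 31722))) (.lf (nat_lit 10386))) (.nd (.lf (nat_lit 15234)) (.lf (nat_lit 16882)))) (.nd (.nd (.lf (nat_lit 30652)) (.lf (nat_lit 2610))) (.nd (.lf (nat_lit 53154)) (.lf (nat_lit 56618))))) (.nd (.nd (.nd (.lf (nat_lit 53564)) (.lf (nat_lit 17234))) (.nd (.lf (nat_lit 51490)) (.lf (nat_lit 30346)))) (.nd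 (.nd (.lf (nat_lit 45564)) (.lf (nat_lit 18354))) (.nd (.lf (nat_lit 5602)) (.lf (nat_lit 32682))))))) (.nd (.nd (.nd (.nd (.nd (.nd (.lf (nat_lit 47452)) (.lf (nat_lit 1898))) (.lf (nat_lit 786))) (.nd (.lf (nat_lit 21122)) (.lf (nat_lit 24434)))) (.nd (.nd (.lf (nat_lit 42428)) (.lf (nat_lit 31698))) (.nd (.lf (nat_lit 54690)) (.lf (nat_lit 3114))))) (.nd (.nd (.nd (.lf (nat_lit 8252)) (.lf (nat_lit 30290))) (.nd (.lf (nat_lit 26658)) (.lf (nat_lit 25354)))) (.nd (.nd (.lf (nat_lit 20732)) (.lf (nat_lit 6578))) (.nd (.lf (nat_lit 738)) (.lf (nat_lit 52650)))))) (.nd (.nd (.nd (.nd (.lf (nat_lit 31452)) (.lf (nat_lit 10642))) (.nd (.lf (nat_lit 15170)) (.lf (nat_lit 21490)))) (.nd (.nd (.lf (nat_lit 13948)) (.lf (nat_lit 56626))) (.nd (.lf (nat_lit 45410)) (.lf (nat_lit 8362))))) (.nd (.nd (.nd (.lf (nat_lit 11068)) (.lf (nat_lit 6354))) (.nd (.lf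 (nat_lit 56098)) (.lf (nat_lit 10314)))) (.nd (.nd (.lf (nat_lit 44028)) (.lf (nat_lit 27250))) (.nd (.lf (nat_lit 4066)) (.lf (nat_lit 57962)))))))) (.nd (.nd (.nd (.nd (.nd (.nd (.nd (.lf (nat_lit 3676)) (.lf (nat_lit 44394))) (.lf (nat_lit 14610))) (.nd (.lf (nat_lit 130)) (.lf (nat_lit 27506)))) (.nd (.nd (.lf (nat_lit 444)) (.lf (nat_lit 24018))) (.nd (.lf (nat_lit 24994)) (.lf (nat_lit 12746))))) (.nd (.nd (.nd (.lf (nat_lit 48092)) (.lf (nat_lit 14418))) (.nd (.lf (nat_lit 13250)) (.lf (nat_lit 3594)))) (.nd (.nd (.lf (nat_lit 18300)) (.lf (nat_lit 26290))) (.nd (.lf (nat_lit 16226)) (.lf (nat_lit 4522)))))) (.nd (.nd (.nd (.nd (.nd (.lf (nat_lit 26844)) (.lf (nat_lit 5146))) (.lf (nat_lit 14994))) (.nd (.lf (nat_lit 12866)) (.lf (nat_lit 26098)))) (.nd (.nd (.lf (nat_lit 9340)) (.lf (nat_lit 2354))) (.nd (.lf (nat_lit 31842)) (.lf (nat_lit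 64298))))) (.nd (.nd (.nd (.lf (nat_lit 62780)) (.lf (nat_lit 59218))) (.nd (.lf (nat_lit 60706)) (.lf (nat_lit 32138)))) (.nd (.nd (.lf (nat_lit 19964)) (.lf (nat_lit 12402))) (.nd (.lf (nat_lit 13282)) (.lf (nat_lit 50282))))))) (.nd (.nd (.nd (.nd (.nd (.nd (.lf (nat_lit 17244)) (.lf (nat_lit 58346))) (.lf (nat_lit 42770))) (.nd (.lf (nat_lit 10626)) (.lf (nat_lit 15602)))) (.nd (.nd (.lf (nat_lit 21436)) (.lf (nat_lit 8242))) (.nd (.lf (nat_lit 29602)) (.lf (nat_lit 51498))))) (.nd (.nd (.nd (.lf (nat_lit 12860)) (.lf (nat_lit 47442))) (.nd (.lf (nat_lit 31266)) (.lf (nat_lit 14474)))) (.nd (.nd (.lf (nat_lit 11004)) (.lf (nat_lit 48562))) (.nd (.lf (nat_lit 8674)) (.lf (nat_lit 23466)))))) (.nd (.nd (.nd (.nd (.lf (nat_lit 10716)) (.lf (nat_lit 56722))) (.nd (.lf (nat_lit 23746)) (.lf (nat_lit 30706)))) (.nd (.nd (.lf (nat_lit 22908)) (.lf (nat_lit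 10034))) (.nd (.lf (nat_lit 11618)) (.lf (nat_lit 13482))))) (.nd (.nd (.nd (.lf (nat_lit 7996)) (.lf (nat_lit 1746))) (.nd (.lf (nat_lit 32546)) (.lf (nat_lit 2378)))) (.nd (.nd (.lf (nat_lit 40956)) (.lf (nat_lit 29042))) (.nd (.lf (nat_lit 5138)) (.lf (nat_lit 13930)))))))))

def Ix22 : Tb ℕ := (.nd (.nd (.nd (.nd (.nd (.nd (.nd (.nd (.lf (nat_lit 26716)) (.lf (nat_lit 57706))) (.lf (nat_lit 31250))) (.nd (.lf (nat_lit 2562)) (.lf (nat_lit 21874)))) (.nd (.nd (.lf (nat_lit 5308)) (.lf (nat_lit 12754))) (.nd (.lf (nat_lit 11426)) (.lf (nat_lit 10058))))) (.nd (.nd (.nd (.lf (nat_lit 62940)) (.lf (nat_lit 23442))) (.nd (.lf (nat_lit 3778)) (.lf (nat_lit 10250)))) (.nd (.nd (.lf (nat_lit 44412)) (.lf (nat_lit 24754))) (.nd (.lf (nat_lit 62306)) (.lf (nat_lit 21162)))))) (.nd (.nd (.nd (.nd (.nd (.lf (nat_lit 47964)) (.lf (nat_lit 7146))) (.lf (nat_lit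 146))) (.nd (.lf (nat_lit 21378)) (.lf (nat_lit 20210)))) (.nd (.nd (.lf (nat_lit 42940)) (.lf (nat_lit 15410))) (.nd (.lf (nat_lit 22434)) (.lf (nat_lit 3370))))) (.nd (.nd (.nd (.lf (nat_lit 16700)) (.lf (nat_lit 7506))) (.nd (.lf (nat_lit 20770)) (.lf (nat_lit 6794)))) (.nd (.nd (.lf (nat_lit 8700)) (.lf (nat_lit 7090))) (.nd (.lf (nat_lit 63970)) (.lf (nat_lit 44970))))))) (.nd (.nd (.nd (.nd (.nd (.nd (.lf (nat_lit 10588)) (.lf (nat_lit 27498))) (.lf (nat_lit 60690))) (.nd (.lf (nat_lit 7298)) (.lf (nat_lit 20338)))) (.nd (.nd (.lf (nat_lit 14780)) (.lf (nat_lit 43986))) (.nd (.lf (nat_lit 17826)) (.lf (nat_lit 4138))))) (.nd (.nd (.nd (.lf (nat_lit 8156)) (.lf (nat_lit 6738))) (.nd (.lf (nat_lit 8226)) (.lf (nat_lit 3338)))) (.nd (.nd (.lf (nat_lit 16252)) (.lf (nat_lit 61874))) (.nd (.lf (nat_lit 29922)) (.lf (nat_lit 5546)))))) (.nd (.nd (.nd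 (.nd (.nd (.lf (nat_lit 13020)) (.lf (nat_lit 1434))) (.lf (nat_lit 53650))) (.nd (.lf (nat_lit 7490)) (.lf (nat_lit 1010)))) (.nd (.nd (.lf (nat_lit 23164)) (.lf (nat_lit 3378))) (.nd (.lf (nat_lit 49506)) (.lf (nat_lit 57130))))) (.nd (.nd (.nd (.lf (nat_lit 54076)) (.lf (nat_lit 24786))) (.nd (.lf (nat_lit 19234)) (.lf (nat_lit 24458)))) (.nd (.nd (.lf (nat_lit 13308)) (.lf (nat_lit 8818))) (.nd (.lf (nat_lit 59362)) (.lf (nat_lit 48234)))))))) (.nd (.nd (.nd (.nd (.nd (.nd (.nd (.lf (nat_lit 31324)) (.lf (nat_lit 13674))) (.lf (nat_lit 51474))) (.nd (.lf (nat_lit 1794)) (.lf (nat_lit 45938)))) (.nd (.nd (.lf (nat_lit 3772)) (.lf (nat_lit 3538))) (.nd (.lf (nat_lit 24226)) (.lf (nat_lit 5834))))) (.nd (.nd (.nd (.lf (nat_lit 11228)) (.lf (nat_lit 24658))) (.nd (.lf (nat_lit 24002)) (.lf (nat_lit 31242)))) (.nd (.nd (.lf (nat_lit 7036)) (.lf (nat_lit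 10930))) (.nd (.lf (nat_lit 12130)) (.lf (nat_lit 32426)))))) (.nd (.nd (.nd (.nd (.nd (.lf (nat_lit 8412)) (.lf (nat_lit 65514))) (.lf (nat_lit 21138))) (.nd (.lf (nat_lit 5186)) (.lf (nat_lit 47602)))) (.nd (.nd (.lf (nat_lit 2172)) (.lf (nat_lit 24882))) (.nd (.lf (nat_lit 5218)) (.lf (nat_lit 27434))))) (.nd (.nd (.nd (.lf (nat_lit 25916)) (.lf (nat_lit 31570))) (.nd (.lf (nat_lit 29986)) (.lf (nat_lit 13706)))) (.nd (.nd (.lf (nat_lit 5628)) (.lf (nat_lit 49074))) (.nd (.lf (nat_lit 50146)) (.lf (nat_lit 22634))))))) (.nd (.nd (.nd (.nd (.nd (.nd (.lf (nat_lit 7516)) (.lf (nat_lit 33770))) (.lf (nat_lit 15122))) (.nd (.lf (nat_lit 386)) (.lf (nat_lit 21746)))) (.nd (.nd (.lf (nat_lit 956)) (.lf (nat_lit 40914))) (.nd (.lf (nat_lit 41890)) (.lf (nat_lit 4394))))) (.nd (.nd (.nd (.lf (nat_lit 23612)) (.lf (nat_lit 10578))) (.nd (.lf (nat_lit 12834))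 (.lf (nat_lit 24714)))) (.nd (.nd (.lf (nat_lit 764)) (.lf (nat_lit 11698))) (.nd (.lf (nat_lit 28386)) (.lf (nat_lit 2986)))))) (.nd (.nd (.nd (.nd (.lf (nat_lit 53724)) (.lf (nat_lit 19858))) (.nd (.lf (nat_lit 5314)) (.lf (nat_lit 42994)))) (.nd (.nd (.lf (nat_lit 2428)) (.lf (nat_lit 56114))) (.nd (.lf (nat_lit 54626)) (.lf (nat_lit 17578))))) (.nd (.nd (.nd (.lf (nat_lit 63292)) (.lf (nat_lit 29394))) (.nd (.lf (nat_lit 28450)) (.lf (nat_lit 11850)))) (.nd (.nd (.lf (nat_lit 4092)) (.lf (nat_lit 41330))) (.nd (.lf (nat_lit 26642)) (.lf (nat_lit 50794)))))))))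

def Ix23 : Tb ℕ := (.nd (.nd (.nd (.nd (.nd (.nd (.nd (.nd (.lf (nat_lit 23644)) (.lf (nat_lit 22890))) (.lf (nat_lit 274))) (.nd (.lf (nat_lit 6402)) (.lf (nat_lit 56690)))) (.nd (.nd (.lf (nat_lit 12988)) (.lf (nat_lit 31186))) (.nd (.lf (nat_lit 6818)) (.lf (nat_lit 9418))))) (.nd (.nd (.nd (.lf (nat_lit 17372)) (.lf (nat_lit 63378))) (.nd (.lf (nat_lit 27074)) (.lf (nat_lit 7178)))) (.nd (.nd (.lf (nat_lit 25468)) (.lf (nat_lit 13490))) (.nd (.lf (nat_lit 18274)) (.lf (nat_lit 9898)))))) (.nd (.nd (.nd (.nd (.nd (.lf (nat_lit 63324)) (.lf (nat_lit 6122))) (.lf (nat_lit 25746))) (.nd (.lf (nat_lit 30594)) (.lf (nat_lit 53746)))) (.nd (.nd (.lf (nat_lit 61372)) (.lf (nat_lit 9778))) (.nd (.lf (nat_lit 16290)) (.lf (nat_lit 9002))))) (.nd (.nd (.nd (.lf (nat_lit 10556)) (.lf (nat_lit 13138))) (.nd (.lf (nat_lit 14626)) (.lf (nat_lit 394)))) (.nd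 (.nd (.lf (nat_lit 27132)) (.lf (nat_lit 55218))) (.nd (.lf (nat_lit 19938)) (.lf (nat_lit 57450))))))) (.nd (.nd (.nd (.nd (.nd (.nd (.lf (nat_lit 25948)) (.lf (nat_lit 6890))) (.lf (nat_lit 21266))) (.nd (.lf (nat_lit 14978)) (.lf (nat_lit 24818)))) (.nd (.nd (.lf (nat_lit 30140)) (.lf (nat_lit 59346))) (.nd (.lf (nat_lit 11682)) (.lf (nat_lit 10794))))) (.nd (.nd (.nd (.lf (nat_lit 26684)) (.lf (nat_lit 338))) (.nd (.lf (nat_lit 5154)) (.lf (nat_lit 15114)))) (.nd (.nd (.lf (nat_lit 14588)) (.lf (nat_lit 17842))) (.nd (.lf (nat_lit 10978)) (.lf (nat_lit 32170)))))) (.nd (.nd (.nd (.nd (.lf (nat_lit 3804)) (.lf (nat_lit 31122))) (.nd (.lf (nat_lit 194)) (.lf (nat_lit 52210)))) (.nd (.nd (.lf (nat_lit 15996)) (.lf (nat_lit 25394))) (.nd (.lf (nat_lit 59746)) (.lf (nat_lit 28842))))) (.nd (.nd (.nd (.lf (nat_lit 47932)) (.lf (nat_lit 21714))) (.nd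 (.lf (nat_lit 10018)) (.lf (nat_lit 11338)))) (.nd (.nd (.lf (nat_lit 31740)) (.lf (nat_lit 5746))) (.nd (.lf (nat_lit 40930)) (.lf (nat_lit 2666)))))))) (.nd (.nd (.nd (.nd (.nd (.nd (.nd (.lf (nat_lit 16732)) (.lf (nat_lit 48490))) (.lf (nat_lit 42258))) (.nd (.lf (nat_lit 10370)) (.lf (nat_lit 64370)))) (.nd (.nd (.lf (nat_lit 20924)) (.lf (nat_lit 50130))) (.nd (.lf (nat_lit 61858)) (.lf (nat_lit 7626))))) (.nd (.nd (.nd (.lf (nat_lit 26588)) (.lf (nat_lit 3154))) (.nd (.lf (nat_lit 31682)) (.lf (nat_lit 8458)))) (.nd (.nd (.lf (nat_lit 55164)) (.lf (nat_lit 7858))) (.nd (.lf (nat_lit 20706)) (.lf (nat_lit 51626)))))) (.nd (.nd (.nd (.nd (.nd (.lf (nat_lit 5340)) (.lf (nat_lit 2586))) (.lf (nat_lit 30354))) (.nd (.lf (nat_lit 3650)) (.lf (nat_lit 62962)))) (.nd (.nd (.lf (nat_lit 27772)) (.lf (nat_lit 55602))) (.nd (.lf (nat_lit 6754)) (.lf (nat_lit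 5930))))) (.nd (.nd (.nd (.lf (nat_lit 7484)) (.lf (nat_lit 3922))) (.nd (.lf (nat_lit 64802)) (.lf (nat_lit 11146)))) (.nd (.nd (.lf (nat_lit 24060)) (.lf (nat_lit 30834))) (.nd (.lf (nat_lit 44002)) (.lf (nat_lit 13418))))))) (.nd (.nd (.nd (.nd (.nd (.nd (.lf (nat_lit 54108)) (.lf (nat_lit 46058))) (.lf (nat_lit 30482))) (.nd (.lf (nat_lit 25986)) (.lf (nat_lit 29426)))) (.nd (.nd (.lf (nat_lit 52156)) (.lf (nat_lit 6194))) (.nd (.lf (nat_lit 60322)) (.lf (nat_lit 47402))))) (.nd (.nd (.nd (.lf (nat_lit 31292)) (.lf (nat_lit 25938))) (.nd (.lf (nat_lit 3618)) (.lf (nat_lit 3210)))) (.nd (.nd (.lf (nat_lit 26364)) (.lf (nat_lit 25522))) (.nd (.lf (nat_lit 45538)) (.lf (nat_lit 51114)))))) (.nd (.nd (.nd (.nd (.lf (nat_lit 47580)) (.lf (nat_lit 9106))) (.nd (.lf (nat_lit 12994)) (.lf (nat_lit 61426)))) (.nd (.nd (.lf (nat_lit 50556)) (.lf (nat_lit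 63282))) (.nd (.lf (nat_lit 48482)) (.lf (nat_lit 44202))))) (.nd (.nd (.nd (.lf (nat_lit 8380)) (.lf (nat_lit 11986))) (.nd (.lf (nat_lit 28834)) (.lf (nat_lit 13642)))) (.nd (.nd (.lf (nat_lit 4098)) (.lf (nat_lit 59762))) (.nd (.lf (nat_lit 23570)) (.lf (nat_lit 44650)))))))))

def Ix24 : Tb ℕ := (.nd (.nd (.nd (.nd (.nd (.nd (.nd (.nd (.lf (nat_lit 12380)) (.lf (nat_lit 49514))) (.lf (nat_lit 27154))) (.nd (.lf (nat_lit 15362)) (.lf (nat_lit 42354)))) (.nd (.nd (.lf (nat_lit 30908)) (.lf (nat_lit 57810))) (.nd (.lf (nat_lit 21666)) (.lf (nat_lit 6986))))) (.nd (.nd (.nd (.lf (nat_lit 54748)) (.lf (nat_lit 11154))) (.nd (.lf (nat_lit 5826)) (.lf (nat_lit 4106)))) (.nd (.nd (.lf (nat_lit 3452)) (.lf (nat_lit 32562))) (.nd (.lf (nat_lit 54114)) (.lf (nat_lit 8874)))))) (.nd (.nd (.nd (.nd (.nd (.lf (nat_lit 7004)) (.lf (nat_lit 0x1abea))) (.lf (nat_lit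 16146))) (.nd (.lf (nat_lit 898)) (.lf (nat_lit 22258)))) (.nd (.nd (.lf (nat_lit 1980)) (.lf (nat_lit 11314))) (.nd (.lf (nat_lit 42914)) (.lf (nat_lit 13610))))) (.nd (.nd (.nd (.lf (nat_lit 24124)) (.lf (nat_lit 11602))) (.nd (.lf (nat_lit 41250)) (.lf (nat_lit 29322)))) (.nd (.nd (.lf (nat_lit 32508)) (.lf (nat_lit 11186))) (.nd (.lf (nat_lit 55778)) (.lf (nat_lit 4010))))))) (.nd (.nd (.nd (.nd (.nd (.nd (.lf (nat_lit 61788)) (.lf (nat_lit 62314))) (.lf (nat_lit 52498))) (.nd (.lf (nat_lit 29826)) (.lf (nat_lit 46962)))) (.nd (.nd (.lf (nat_lit 59836)) (.lf (nat_lit 3026))) (.nd (.lf (nat_lit 47522)) (.lf (nat_lit 12234))))) (.nd (.nd (.nd (.lf (nat_lit 12252)) (.lf (nat_lit 29266))) (.nd (.lf (nat_lit 24514)) (.lf (nat_lit 25866)))) (.nd (.nd (.lf (nat_lit 8060)) (.lf (nat_lit 53682))) (.nd (.lf (nat_lit 25826)) (.lf (nat_lit 50602)))))) (.nd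 (.nd (.nd (.nd (.nd (.lf (nat_lit 8924)) (.lf (nat_lit 1818))) (.lf (nat_lit 24978))) (.nd (.lf (nat_lit 5442)) (.lf (nat_lit 15858)))) (.nd (.nd (.lf (nat_lit 2684)) (.lf (nat_lit 54578))) (.nd (.lf (nat_lit 15970)) (.lf (nat_lit 28458))))) (.nd (.nd (.nd (.lf (nat_lit 25404)) (.lf (nat_lit 32594))) (.nd (.lf (nat_lit 45858)) (.lf (nat_lit 3978)))) (.nd (.nd (.lf (nat_lit 58364)) (.lf (nat_lit 23666))) (.nd (.lf (nat_lit 51170)) (.lf (nat_lit 40042)))))))) (.nd (.nd (.nd (.nd (.nd (.nd (.nd (.lf (nat_lit 27228)) (.lf (nat_lit 58730))) (.lf (nat_lit 28946))) (.nd (.lf (nat_lit 2818)) (.lf (nat_lit 4978)))) (.nd (.nd (.lf (nat_lit 5820)) (.lf (nat_lit 13778))) (.nd (.lf (nat_lit 20130)) (.lf (nat_lit 6858))))) (.nd (.nd (.nd (.lf (nat_lit 62428)) (.lf (nat_lit 32658))) (.nd (.lf (nat_lit 3522)) (.lf (nat_lit 27146)))) (.nd (.nd (.lf (nat_lit 11132))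 (.lf (nat_lit 4786))) (.nd (.lf (nat_lit 63330)) (.lf (nat_lit 61098)))))) (.nd (.nd (.nd (.nd (.nd (.lf (nat_lit 48988)) (.lf (nat_lit 24554))) (.lf (nat_lit 658))) (.nd (.lf (nat_lit 10306)) (.lf (nat_lit 6642)))) (.nd (.nd (.lf (nat_lit 4220)) (.lf (nat_lit 32306))) (.nd (.lf (nat_lit 14434)) (.lf (nat_lit 19242))))) (.nd (.nd (.nd (.lf (nat_lit 17724)) (.lf (nat_lit 23378))) (.nd (.lf (nat_lit 21794)) (.lf (nat_lit 1418)))) (.nd (.nd (.lf (nat_lit 9724)) (.lf (nat_lit 8114))) (.nd (.lf (nat_lit 32226)) (.lf (nat_lit 43114))))))) (.nd (.nd (.nd (.nd (.nd (.nd (.lf (nat_lit 11612)) (.lf (nat_lit 3562))) (.lf (nat_lit 60178))) (.nd (.lf (nat_lit 7810)) (.lf (nat_lit 1266)))) (.nd (.nd (.lf (nat_lit 15804)) (.lf (nat_lit 45010))) (.nd (.lf (nat_lit 930)) (.lf (nat_lit 49450))))) (.nd (.nd (.nd (.lf (nat_lit 3132)) (.lf (nat_lit 61778))) (.nd (.lf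 (nat_lit 8738)) (.lf (nat_lit 16138)))) (.nd (.nd (.lf (nat_lit 7420)) (.lf (nat_lit 62898))) (.nd (.lf (nat_lit 30434)) (.lf (nat_lit 13226)))))) (.nd (.nd (.nd (.nd (.lf (nat_lit 25052)) (.lf (nat_lit 46482))) (.nd (.lf (nat_lit 30914)) (.lf (nat_lit 2034)))) (.nd (.nd (.lf (nat_lit 12668)) (.lf (nat_lit 27442))) (.nd (.lf (nat_lit 25954)) (.lf (nat_lit 47274))))) (.nd (.nd (.nd (.lf (nat_lit 55100)) (.lf (nat_lit 25298))) (.nd (.lf (nat_lit 20258)) (.lf (nat_lit 9802)))) (.nd (.nd (.lf (nat_lit 14332)) (.lf (nat_lit 370))) (.nd (.lf (nat_lit 12306)) (.lf (nat_lit 31338)))))))))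

def Ix25 : Tb ℕ := (.nd (.nd (.nd (.nd (.nd (.nd (.nd (.nd (.lf (nat_lit 3164)) (.lf (nat_lit 43370))) (.lf (nat_lit 7698))) (.nd (.lf (nat_lit 4354)) (.lf (nat_lit 60786)))) (.nd (.nd (.lf (nat_lit 8892)) (.lf (nat_lit 22994))) (.nd (.lf (nat_lit 29346)) (.lf (nat_lit 10442))))) (.nd (.nd (.nd (.lf (nat_lit 48604)) (.lf (nat_lit 22418))) (.nd (.lf (nat_lit 12738)) (.lf (nat_lit 29706)))) (.nd (.nd (.lf (nat_lit 17276)) (.lf (nat_lit 9394))) (.nd (.lf (nat_lit 47970)) (.lf (nat_lit 31402)))))) (.nd (.nd (.nd (.nd (.nd (.lf (nat_lit 55132)) (.lf (nat_lit 18410))) (.lf (nat_lit 14482))) (.nd (.lf (nat_lit 26498)) (.lf (nat_lit 25074)))) (.nd (.nd (.lf (nat_lit 53180)) (.lf (nat_lit 23090))) (.nd (.lf (nat_lit 61346)) (.lf (nat_lit 64810))))) (.nd (.nd (.nd (.lf (nat_lit 61756)) (.lf (nat_lit 58194))) (.nd (.lf (nat_lit 59682)) (.lf (nat_lit 7818))))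 (.nd (.nd (.lf (nat_lit 18940)) (.lf (nat_lit 26546))) (.nd (.lf (nat_lit 46562)) (.lf (nat_lit 49258))))))) (.nd (.nd (.nd (.nd (.nd (.nd (.lf (nat_lit 17756)) (.lf (nat_lit 1258))) (.lf (nat_lit 41746))) (.nd (.lf (nat_lit 10882)) (.lf (nat_lit 32626)))) (.nd (.nd (.lf (nat_lit 21948)) (.lf (nat_lit 51154))) (.nd (.lf (nat_lit 62882)) (.lf (nat_lit 554))))) (.nd (.nd (.nd (.lf (nat_lit 12348)) (.lf (nat_lit 7762))) (.nd (.lf (nat_lit 30754)) (.lf (nat_lit 2826)))) (.nd (.nd (.lf (nat_lit 10492)) (.lf (nat_lit 47538))) (.nd (.lf (nat_lit 21218)) (.lf (nat_lit 7594)))))) (.nd (.nd (.nd (.nd (.lf (nat_lit 5852)) (.lf (nat_lit 22930))) (.nd (.lf (nat_lit 3906)) (.lf (nat_lit 29682)))) (.nd (.nd (.lf (nat_lit 11900)) (.lf (nat_lit 818))) (.nd (.lf (nat_lit 18786)) (.lf (nat_lit 20650))))) (.nd (.nd (.nd (.lf (nat_lit 6972)) (.lf (nat_lit 1234))) (.nd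 (.lf (nat_lit 64290)) (.lf (nat_lit 9290)))) (.nd (.nd (.lf (nat_lit 23548)) (.lf (nat_lit 31346))) (.nd (.lf (nat_lit 45026)) (.lf (nat_lit 12906)))))))) (.nd (.nd (.nd (.nd (.nd (.nd (.nd (.lf (nat_lit 24156)) (.lf (nat_lit 40298))) (.lf (nat_lit 1298))) (.nd (.lf (nat_lit 20610)) (.lf (nat_lit 56178)))) (.nd (.nd (.lf (nat_lit 41404)) (.lf (nat_lit 32210))) (.nd (.lf (nat_lit 53666)) (.lf (nat_lit 1482))))) (.nd (.nd (.nd (.lf (nat_lit 18396)) (.lf (nat_lit 25682))) (.nd (.lf (nat_lit 27586)) (.lf (nat_lit 24074)))) (.nd (.nd (.lf (nat_lit 26492)) (.lf (nat_lit 30386))) (.nd (.lf (nat_lit 226)) (.lf (nat_lit 29098)))))) (.nd (.nd (.nd (.nd (.nd (.lf (nat_lit 30940)) (.lf (nat_lit 15386))) (.lf (nat_lit 26258))) (.nd (.lf (nat_lit 14914)) (.lf (nat_lit 54770)))) (.nd (.nd (.lf (nat_lit 13436)) (.lf (nat_lit 26930))) (.nd (.lf (nat_lit 12898)) (.lf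 (nat_lit 10026))))) (.nd (.nd (.nd (.lf (nat_lit 11580)) (.lf (nat_lit 14162))) (.nd (.lf (nat_lit 56610)) (.lf (nat_lit 5002)))) (.nd (.nd (.lf (nat_lit 28156)) (.lf (nat_lit 26738))) (.nd (.lf (nat_lit 3042)) (.lf (nat_lit 58474))))))) (.nd (.nd (.nd (.nd (.nd (.nd (.lf (nat_lit 25436)) (.lf (nat_lit 21482))) (.lf (nat_lit 22290))) (.nd (.lf (nat_lit 14722)) (.lf (nat_lit 25330)))) (.nd (.nd (.lf (nat_lit 29628)) (.lf (nat_lit 28722))) (.nd (.lf (nat_lit 52130)) (.lf (nat_lit 6442))))) (.nd (.nd (.nd (.lf (nat_lit 27196)) (.lf (nat_lit 17746))) (.nd (.lf (nat_lit 5666)) (.lf (nat_lit 25738)))) (.nd (.nd (.lf (nat_lit 15100)) (.lf (nat_lit 17330))) (.nd (.lf (nat_lit 4578)) (.lf (nat_lit 31658)))))) (.nd (.nd (.nd (.nd (.lf (nat_lit 6620)) (.lf (nat_lit 64914))) (.nd (.lf (nat_lit 8898)) (.lf (nat_lit 53234)))) (.nd (.nd (.lf (nat_lit 31100)) (.lf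 (nat_lit 22322))) (.nd (.lf (nat_lit 7522)) (.lf (nat_lit 3242))))) (.nd (.nd (.nd (.lf (nat_lit 48956)) (.lf (nat_lit 22226))) (.nd (.lf (nat_lit 24738)) (.lf (nat_lit 31050)))) (.nd (.nd (.lf (nat_lit 49148)) (.lf (nat_lit 51570))) (.nd (.lf (nat_lit 3090)) (.lf (nat_lit 3690)))))))))

def Ix26 : Tb ℕ := (.nd (.nd (.nd (.nd (.nd (.nd (.nd (.nd (.lf (nat_lit 30812)) (.lf (nat_lit 12650))) (.lf (nat_lit 5650))) (.nd (.lf (nat_lit 1538)) (.lf (nat_lit 30066)))) (.nd (.nd (.lf (nat_lit 3260)) (.lf (nat_lit 2514))) (.nd (.lf (nat_lit 15522)) (.lf (nat_lit 12106))))) (.nd (.nd (.nd (.lf (nat_lit 11740)) (.lf (nat_lit 64402))) (.nd (.lf (nat_lit 24258)) (.lf (nat_lit 14346)))) (.nd (.nd (.lf (nat_lit 40316)) (.lf (nat_lit 2226))) (.nd (.lf (nat_lit 11106)) (.lf (nat_lit 2730)))))) (.nd (.nd (.nd (.nd (.nd (.lf (nat_lit 18268)) (.lf (nat_lit 0x1dbea)))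 (.lf (nat_lit 20626))) (.nd (.lf (nat_lit 11138)) (.lf (nat_lit 24306)))) (.nd (.nd (.lf (nat_lit 22460)) (.lf (nat_lit 25138))) (.nd (.lf (nat_lit 30626)) (.lf (nat_lit 27946))))) (.nd (.nd (.nd (.lf (nat_lit 24892)) (.lf (nat_lit 48466))) (.nd (.lf (nat_lit 28962)) (.lf (nat_lit 9866)))) (.nd (.nd (.lf (nat_lit 4604)) (.lf (nat_lit 48050))) (.nd (.lf (nat_lit 9698)) (.lf (nat_lit 24490))))))) (.nd (.nd (.nd (.nd (.nd (.nd (.lf (nat_lit 6492)) (.lf (nat_lit 56170))) (.lf (nat_lit 15634))) (.nd (.lf (nat_lit 642)) (.lf (nat_lit 28530)))) (.nd (.nd (.lf (nat_lit 1468)) (.lf (nat_lit 23506))) (.nd (.lf (nat_lit 26018)) (.lf (nat_lit 14378))))) (.nd (.nd (.nd (.lf (nat_lit 49116)) (.lf (nat_lit 9810))) (.nd (.lf (nat_lit 12322)) (.lf (nat_lit 15626)))) (.nd (.nd (.lf (nat_lit 252)) (.lf (nat_lit 10674))) (.nd (.lf (nat_lit 7394)) (.lf (nat_lit 30122))))))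 (.nd (.nd (.nd (.nd (.nd (.lf (nat_lit 27356)) (.lf (nat_lit 1946))) (.lf (nat_lit 61842))) (.nd (.lf (nat_lit 13122)) (.lf (nat_lit 41970)))) (.nd (.nd (.lf (nat_lit 9852)) (.lf (nat_lit 27954))) (.nd (.lf (nat_lit 4450)) (.lf (nat_lit 65322))))) (.nd (.nd (.nd (.lf (nat_lit 62268)) (.lf (nat_lit 28882))) (.nd (.lf (nat_lit 27426)) (.lf (nat_lit 8266)))) (.nd (.nd (.lf (nat_lit 3068)) (.lf (nat_lit 12914))) (.nd (.lf (nat_lit 14306)) (.lf (nat_lit 17002)))))))) (.nd (.nd (.nd (.nd (.nd (.nd (.nd (.lf (nat_lit 5724)) (.lf (nat_lit 3434))) (.lf (nat_lit 59666))) (.nd (.lf (nat_lit 3842)) (.lf (nat_lit 19314)))) (.nd (.nd (.lf (nat_lit 7868)) (.lf (nat_lit 44498))) (.nd (.lf (nat_lit 16802)) (.lf (nat_lit 7882))))) (.nd (.nd (.nd (.lf (nat_lit 7132)) (.lf (nat_lit 2130))) (.nd (.lf (nat_lit 9154)) (.lf (nat_lit 5642)))) (.nd (.nd (.lf (nat_lit 47996))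 (.lf (nat_lit 15026))) (.nd (.lf (nat_lit 8034)) (.lf (nat_lit 49578)))))) (.nd (.nd (.nd (.nd (.nd (.lf (nat_lit 12508)) (.lf (nat_lit 2074))) (.lf (nat_lit 10898))) (.nd (.lf (nat_lit 7234)) (.lf (nat_lit 17906)))) (.nd (.nd (.lf (nat_lit 22652)) (.lf (nat_lit 53554))) (.nd (.lf (nat_lit 11362)) (.lf (nat_lit 56106))))) (.nd (.nd (.nd (.lf (nat_lit 54588)) (.lf (nat_lit 51026))) (.nd (.lf (nat_lit 52514)) (.lf (nat_lit 28042)))) (.nd (.nd (.lf (nat_lit 46588)) (.lf (nat_lit 8306))) (.nd (.lf (nat_lit 58338)) (.lf (nat_lit 30826))))))) (.nd (.nd (.nd (.nd (.nd (.nd (.lf (nat_lit 48476)) (.lf (nat_lit 9194))) (.lf (nat_lit 1810))) (.nd (.lf (nat_lit 20866)) (.lf (nat_lit 11506)))) (.nd (.nd (.lf (nat_lit 41916)) (.lf (nat_lit 49106))) (.nd (.lf (nat_lit 21410)) (.lf (nat_lit 28970))))) (.nd (.nd (.nd (.lf (nat_lit 8764)) (.lf (nat_lit 6482))) (.nd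 (.lf (nat_lit 27170)) (.lf (nat_lit 2186)))) (.nd (.nd (.lf (nat_lit 21244)) (.lf (nat_lit 7602))) (.nd (.lf (nat_lit 32482)) (.lf (nat_lit 43946)))))) (.nd (.nd (.nd (.nd (.lf (nat_lit 61916)) (.lf (nat_lit 28050))) (.nd (.lf (nat_lit 3266)) (.lf (nat_lit 22514)))) (.nd (.nd (.lf (nat_lit 43388)) (.lf (nat_lit 64306))) (.nd (.lf (nat_lit 62818)) (.lf (nat_lit 58538))))) (.nd (.nd (.nd (.lf (nat_lit 12092)) (.lf (nat_lit 6866))) (.nd (.lf (nat_lit 24354)) (.lf (nat_lit 330)))) (.nd (.nd (.lf (nat_lit 45052)) (.lf (nat_lit 20850))) (.nd (.lf (nat_lit 30738)) (.lf (nat_lit 58986)))))))))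

def Ix27 : Tb ℕ := (.nd (.nd (.nd (.nd (.nd (.nd (.nd (.nd (.lf (nat_lit 8796)) (.lf (nat_lit 31082))) (.lf (nat_lit 41234))) (.nd (.lf (nat_lit 13570)) (.lf (nat_lit 64882)))) (.nd (.nd (.lf (nat_lit 27324)) (.lf (nat_lit 50642))) (.nd (.lf (nat_lit 1698)) (.lf (nat_lit 11466))))) (.nd (.nd (.nd (.lf (nat_lit 25564)) (.lf (nat_lit 12178))) (.nd (.lf (nat_lit 31170)) (.lf (nat_lit 522)))) (.nd (.nd (.lf (nat_lit 54140)) (.lf (nat_lit 27826))) (.nd (.lf (nat_lit 26466)) (.lf (nat_lit 22186)))))) (.nd (.nd (.nd (.nd (.nd (.lf (nat_lit 12124)) (.lf (nat_lit 30698))) (.lf (nat_lit 29842))) (.nd (.lf (nat_lit 8066)) (.lf (nat_lit 61938)))) (.nd (.nd (.lf (nat_lit 57276)) (.lf (nat_lit 13874))) (.nd (.lf (nat_lit 98)) (.lf (nat_lit 4906))))) (.nd (.nd (.nd (.lf (nat_lit 6460)) (.lf (nat_lit 2898))) (.nd (.lf (nat_lit 1314)) (.lf (nat_lit 12682)))) (.nd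 (.nd (.lf (nat_lit 55804)) (.lf (nat_lit 63410))) (.nd (.lf (nat_lit 28130)) (.lf (nat_lit 12394))))))) (.nd (.nd (.nd (.nd (.nd (.nd (.lf (nat_lit 54620)) (.lf (nat_lit 7914))) (.lf (nat_lit 29458))) (.nd (.lf (nat_lit 26242)) (.lf (nat_lit 28914)))) (.nd (.nd (.lf (nat_lit 52668)) (.lf (nat_lit 14290))) (.nd (.lf (nat_lit 7586)) (.lf (nat_lit 5674))))) (.nd (.nd (.nd (.lf (nat_lit 30780)) (.lf (nat_lit 24914))) (.nd (.lf (nat_lit 3106)) (.lf (nat_lit 26378)))) (.nd (.nd (.lf (nat_lit 25852)) (.lf (nat_lit 26034))) (.nd (.lf (nat_lit 15074)) (.lf (nat_lit 50090)))))) (.nd (.nd (.nd (.nd (.lf (nat_lit 24284)) (.lf (nat_lit 50578))) (.nd (.lf (nat_lit 12482)) (.lf (nat_lit 60402)))) (.nd (.nd (.lf (nat_lit 49532)) (.lf (nat_lit 54066))) (.nd (.lf (nat_lit 14690)) (.lf (nat_lit 51370))))) (.nd (.nd (.nd (.lf (nat_lit 18236)) (.lf (nat_lit 11474))) (.nd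 (.lf (nat_lit 5922)) (.lf (nat_lit 8778)))) (.nd (.nd (.lf (nat_lit 51196)) (.lf (nat_lit 3698))) (.nd (.lf (nat_lit 49122)) (.lf (nat_lit 43626)))))))) (.nd (.nd (.nd (.nd (.nd (.nd (.nd (.lf (nat_lit 24924)) (.lf (nat_lit 17258))) (.lf (nat_lit 21778))) (.nd (.lf (nat_lit 14466)) (.lf (nat_lit 10098)))) (.nd (.nd (.lf (nat_lit 29116)) (.lf (nat_lit 58322))) (.nd (.lf (nat_lit 10658)) (.lf (nat_lit 13258))))) (.nd (.nd (.nd (.lf (nat_lit 55260)) (.lf (nat_lit 23634))) (.nd (.lf (nat_lit 6082)) (.lf (nat_lit 2314)))) (.nd (.nd (.lf (nat_lit 63356)) (.lf (nat_lit 434))) (.nd (.lf (nat_lit 10466)) (.lf (nat_lit 6570)))))) (.nd (.nd (.nd (.nd (.nd (.lf (nat_lit 3292)) (.lf (nat_lit 5658))) (.lf (nat_lit 7826))) (.nd (.lf (nat_lit 322)) (.lf (nat_lit 11762)))) (.nd (.nd (.lf (nat_lit 31868)) (.lf (nat_lit 1330))) (.nd (.lf (nat_lit 9826)) (.lf (nat_lit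 46890))))) (.nd (.nd (.nd (.lf (nat_lit 48444)) (.lf (nat_lit 44882))) (.nd (.lf (nat_lit 8994)) (.lf (nat_lit 15242)))) (.nd (.nd (.lf (nat_lit 32252)) (.lf (nat_lit 5234))) (.nd (.lf (nat_lit 23522)) (.lf (nat_lit 3178))))))) (.nd (.nd (.nd (.nd (.nd (.nd (.lf (nat_lit 62300)) (.lf (nat_lit 0x1f3ea))) (.lf (nat_lit 53010))) (.nd (.lf (nat_lit 30082)) (.lf (nat_lit 6898)))) (.nd (.nd (.lf (nat_lit 60348)) (.lf (nat_lit 1074))) (.nd (.lf (nat_lit 15266)) (.lf (nat_lit 17706))))) (.nd (.nd (.nd (.lf (nat_lit 5692)) (.lf (nat_lit 54610))) (.nd (.lf (nat_lit 7714)) (.lf (nat_lit 23690)))) (.nd (.nd (.lf (nat_lit 30460)) (.lf (nat_lit 54194))) (.nd (.lf (nat_lit 18914)) (.lf (nat_lit 59306)))))) (.nd (.nd (.nd (.nd (.lf (nat_lit 17884)) (.lf (nat_lit 21394))) (.nd (.lf (nat_lit 27330)) (.lf (nat_lit 57330)))) (.nd (.nd (.lf (nat_lit 58748)) (.lf (nat_lit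 12082))) (.nd (.lf (nat_lit 17250)) (.lf (nat_lit 23722))))) (.nd (.nd (.nd (.lf (nat_lit 12476)) (.lf (nat_lit 16082))) (.nd (.lf (nat_lit 6306)) (.lf (nat_lit 15690)))) (.nd (.nd (.lf (nat_lit 6146)) (.lf (nat_lit 14706))) (.nd (.lf (nat_lit 8722)) (.lf (nat_lit 24170)))))))))

def Ix28 : Tb ℕ := (.nd (.nd (.nd (.nd (.nd (.nd (.nd (.nd (.lf (nat_lit 4188)) (.lf (nat_lit 362))) (.lf (nat_lit 2578))) (.nd (.lf (nat_lit 11266)) (.lf (nat_lit 50546)))) (.nd (.nd (.lf (nat_lit 22716)) (.lf (nat_lit 41426))) (.nd (.lf (nat_lit 25762)) (.lf (nat_lit 2890))))) (.nd (.nd (.nd (.lf (nat_lit 5596)) (.lf (nat_lit 19346))) (.nd (.lf (nat_lit 9922)) (.lf (nat_lit 8202)))) (.nd (.nd (.lf (nat_lit 30076)) (.lf (nat_lit 16178))) (.nd (.lf (nat_lit 4962)) (.lf (nat_lit 682)))))) (.nd (.nd (.nd (.nd (.nd (.lf (nat_lit 27484)) (.lf (nat_lit 11242))) (.lf (nat_lit 24338)))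 (.nd (.lf (nat_lit 15746)) (.lf (nat_lit 26354)))) (.nd (.nd (.lf (nat_lit 31676)) (.lf (nat_lit 29746))) (.nd (.lf (nat_lit 51106)) (.lf (nat_lit 21802))))) (.nd (.nd (.nd (.lf (nat_lit 28220)) (.lf (nat_lit 19794))) (.nd (.lf (nat_lit 49442)) (.lf (nat_lit 4746)))) (.nd (.nd (.lf (nat_lit 24316)) (.lf (nat_lit 19378))) (.nd (.lf (nat_lit 6626)) (.lf (nat_lit 30634))))))) (.nd (.nd (.nd (.nd (.nd (.nd (.lf (nat_lit 45404)) (.lf (nat_lit 13162))) (.lf (nat_lit 3346))) (.nd (.lf (nat_lit 21634)) (.lf (nat_lit 55154)))) (.nd (.nd (.lf (nat_lit 43452)) (.lf (nat_lit 29650))) (.nd (.lf (nat_lit 55714)) (.lf (nat_lit 14282))))) (.nd (.nd (.nd (.lf (nat_lit 20444)) (.lf (nat_lit 4690))) (.nd (.lf (nat_lit 28610)) (.lf (nat_lit 1290)))) (.nd (.nd (.lf (nat_lit 28540)) (.lf (nat_lit 4530))) (.nd (.lf (nat_lit 1250)) (.lf (nat_lit 1450)))))) (.nd (.nd (.nd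 (.nd (.nd (.lf (nat_lit 31964)) (.lf (nat_lit 282))) (.lf (nat_lit 49554))) (.nd (.lf (nat_lit 14658)) (.lf (nat_lit 24050)))) (.nd (.nd (.lf (nat_lit 12924)) (.lf (nat_lit 5426))) (.nd (.lf (nat_lit 28258)) (.lf (nat_lit 12074))))) (.nd (.nd (.nd (.lf (nat_lit 9020)) (.lf (nat_lit 16210))) (.nd (.lf (nat_lit 54050)) (.lf (nat_lit 14218)))) (.nd (.nd (.lf (nat_lit 41980)) (.lf (nat_lit 27762))) (.nd (.lf (nat_lit 2018)) (.lf (nat_lit 60522)))))))) (.nd (.nd (.nd (.nd (.nd (.nd (.nd (.lf (nat_lit 2652)) (.lf (nat_lit 42346))) (.lf (nat_lit 12562))) (.nd (.lf (nat_lit 4866)) (.lf (nat_lit 25458)))) (.nd (.nd (.lf (nat_lit 9916)) (.lf (nat_lit 21970))) (.nd (.lf (nat_lit 30370)) (.lf (nat_lit 2762))))) (.nd (.nd (.nd (.lf (nat_lit 46044)) (.lf (nat_lit 16274))) (.nd (.lf (nat_lit 13762)) (.lf (nat_lit 2570)))) (.nd (.nd (.lf (nat_lit 19324)) (.lf (nat_lit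 8882))) (.nd (.lf (nat_lit 46946)) (.lf (nat_lit 11946)))))) (.nd (.nd (.nd (.nd (.nd (.lf (nat_lit 57180)) (.lf (nat_lit 61418))) (.lf (nat_lit 15506))) (.nd (.lf (nat_lit 12354)) (.lf (nat_lit 27122)))) (.nd (.nd (.lf (nat_lit 8316)) (.lf (nat_lit 24114))) (.nd (.lf (nat_lit 10338)) (.lf (nat_lit 62250))))) (.nd (.nd (.nd (.lf (nat_lit 63804)) (.lf (nat_lit 60242))) (.nd (.lf (nat_lit 58658)) (.lf (nat_lit 14730)))) (.nd (.nd (.lf (nat_lit 17916)) (.lf (nat_lit 28594))) (.nd (.lf (nat_lit 15842)) (.lf (nat_lit 51306))))))) (.nd (.nd (.nd (.nd (.nd (.nd (.lf (nat_lit 19804)) (.lf (nat_lit 1514))) (.lf (nat_lit 43794))) (.nd (.lf (nat_lit 11906)) (.lf (nat_lit 14578)))) (.nd (.nd (.lf (nat_lit 23996)) (.lf (nat_lit 53202))) (.nd (.lf (nat_lit 32162)) (.lf (nat_lit 298))))) (.nd (.nd (.nd (.lf (nat_lit 13372)) (.lf (nat_lit 45394))) (.nd (.lf (nat_lit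 31778)) (.lf (nat_lit 28426)))) (.nd (.nd (.lf (nat_lit 11516)) (.lf (nat_lit 46514))) (.nd (.lf (nat_lit 22242)) (.lf (nat_lit 21418)))))) (.nd (.nd (.nd (.nd (.lf (nat_lit 8668)) (.lf (nat_lit 54674))) (.nd (.lf (nat_lit 22722)) (.lf (nat_lit 31730)))) (.nd (.nd (.lf (nat_lit 20860)) (.lf (nat_lit 52018))) (.nd (.lf (nat_lit 50530)) (.lf (nat_lit 55466))))) (.nd (.nd (.nd (.lf (nat_lit 5948)) (.lf (nat_lit 722))) (.nd (.lf (nat_lit 63266)) (.lf (nat_lit 14922)))) (.nd (.nd (.lf (nat_lit 22524)) (.lf (nat_lit 15986))) (.nd (.lf (nat_lit 4114)) (.lf (nat_lit 14954)))))))))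

def Ix29 : Tb ℕ := (.nd (.nd (.nd (.nd (.nd (.nd (.nd (.nd (.lf (nat_lit 13404)) (.lf (nat_lit 51562))) (.lf (nat_lit 11794))) (.nd (.lf (nat_lit 15874)) (.lf (nat_lit 44402)))) (.nd (.nd (.lf (nat_lit 31932)) (.lf (nat_lit 59858))) (.nd (.lf (nat_lit 21154)) (.lf (nat_lit 12490))))) (.nd (.nd (.nd (.lf (nat_lit 56796)) (.lf (nat_lit 59282))) (.nd (.lf (nat_lit 4546)) (.lf (nat_lit 21514)))) (.nd (.nd (.lf (nat_lit 64892)) (.lf (nat_lit 30898))) (.nd (.lf (nat_lit 56162)) (.lf (nat_lit 23210)))))) (.nd (.nd (.nd (.nd (.nd (.lf (nat_lit 5980)) (.lf (nat_lit 0x1fbea))) (.lf (nat_lit 6290))) (.nd (.lf (nat_lit 1922)) (.lf (nat_lit 8690)))) (.nd (.nd (.lf (nat_lit 4028)) (.lf (nat_lit 27186))) (.nd (.lf (nat_lit 44962)) (.lf (nat_lit 48426))))) (.nd (.nd (.nd (.lf (nat_lit 45372)) (.lf (nat_lit 9042))) (.nd (.lf (nat_lit 43298)) (.lf (nat_lit 11914))))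 (.nd (.nd (.lf (nat_lit 61948)) (.lf (nat_lit 10162))) (.nd (.lf (nat_lit 54754)) (.lf (nat_lit 106))))))) (.nd (.nd (.nd (.nd (.nd (.nd (.lf (nat_lit 63836)) (.lf (nat_lit 8042))) (.lf (nat_lit 49938))) (.nd (.lf (nat_lit 29314)) (.lf (nat_lit 16242)))) (.nd (.nd (.lf (nat_lit 58812)) (.lf (nat_lit 2002))) (.nd (.lf (nat_lit 46498)) (.lf (nat_lit 7210))))) (.nd (.nd (.nd (.lf (nat_lit 4156)) (.lf (nat_lit 11858))) (.nd (.lf (nat_lit 22562)) (.lf (nat_lit 13066)))) (.nd (.nd (.lf (nat_lit 28924)) (.lf (nat_lit 55730))) (.nd (.lf (nat_lit 25314)) (.lf (nat_lit 28074)))))) (.nd (.nd (.nd (.nd (.lf (nat_lit 9948)) (.lf (nat_lit 59794))) (.nd (.lf (nat_lit 5954)) (.lf (nat_lit 13298)))) (.nd (.nd (.lf (nat_lit 3708)) (.lf (nat_lit 32050))) (.nd (.lf (nat_lit 61794)) (.lf (nat_lit 57514))))) (.nd (.nd (.nd (.lf (nat_lit 27452)) (.lf (nat_lit 14546))) (.nd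 (.lf (nat_lit 47906)) (.lf (nat_lit 14410)))) (.nd (.nd (.lf (nat_lit 60412)) (.lf (nat_lit 23154))) (.nd (.lf (nat_lit 53218)) (.lf (nat_lit 21098)))))))) (.nd (.nd (.nd (.nd (.nd (.nd (.nd (.lf (nat_lit 28252)) (.lf (nat_lit 60778))) (.lf (nat_lit 30994))) (.nd (.lf (nat_lit 24706)) (.lf (nat_lit 7026)))) (.nd (.nd (.lf (nat_lit 49596)) (.lf (nat_lit 15826))) (.nd (.lf (nat_lit 4514)) (.lf (nat_lit 6602))))) (.nd (.nd (.nd (.lf (nat_lit 64476)) (.lf (nat_lit 1106))) (.nd (.lf (nat_lit 3010)) (.lf (nat_lit 28170)))) (.nd (.nd (.lf (nat_lit 10108)) (.lf (nat_lit 22194))) (.nd (.lf (nat_lit 32610)) (.lf (nat_lit 53674)))))) (.nd (.nd (.nd (.nd (.nd (.lf (nat_lit 22748)) (.lf (nat_lit 3098))) (.lf (nat_lit 1682))) (.nd (.lf (nat_lit 10818)) (.lf (nat_lit 5618)))) (.nd (.nd (.lf (nat_lit 5244)) (.lf (nat_lit 51506))) (.nd (.lf (nat_lit 8802)) (.lf (nat_lit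 18218))))) (.nd (.nd (.nd (.lf (nat_lit 19772)) (.lf (nat_lit 22354))) (.nd (.lf (nat_lit 40226)) (.lf (nat_lit 9098)))) (.nd (.nd (.lf (nat_lit 11772)) (.lf (nat_lit 2162))) (.nd (.lf (nat_lit 29666)) (.lf (nat_lit 42090))))))) (.nd (.nd (.nd (.nd (.nd (.nd (.lf (nat_lit 9052)) (.lf (nat_lit 5098))) (.lf (nat_lit 59154))) (.nd (.lf (nat_lit 6530)) (.lf (nat_lit 754)))) (.nd (.nd (.lf (nat_lit 13244)) (.lf (nat_lit 4146))) (.nd (.lf (nat_lit 2978)) (.lf (nat_lit 26922))))) (.nd (.nd (.nd (.lf (nat_lit 2620)) (.lf (nat_lit 63826))) (.nd (.lf (nat_lit 9762)) (.lf (nat_lit 1162)))) (.nd (.nd (.lf (nat_lit 6908)) (.lf (nat_lit 64946))) (.nd (.lf (nat_lit 25058)) (.lf (nat_lit 15274)))))) (.nd (.nd (.nd (.nd (.lf (nat_lit 27100)) (.lf (nat_lit 48530))) (.nd (.lf (nat_lit 31938)) (.lf (nat_lit 4082)))) (.nd (.nd (.lf (nat_lit 14716)) (.lf (nat_lit 59186)))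 (.nd (.lf (nat_lit 28002)) (.lf (nat_lit 29866))))) (.nd (.nd (.nd (.lf (nat_lit 57148)) (.lf (nat_lit 26322))) (.nd (.lf (nat_lit 162)) (.lf (nat_lit 6474)))) (.nd (.nd (.lf (nat_lit 57340)) (.lf (nat_lit 2418))) (.nd (.lf (nat_lit 13330)) (.lf (nat_lit 30314)))))))))

def Ix30 : Tb ℕ := (.nd (.nd (.nd (.nd (.nd (.nd (.nd (.nd (.lf (nat_lit 22620)) (.lf (nat_lit 20842))) (.lf (nat_lit 9746))) (.nd (.lf (nat_lit 6658)) (.lf (nat_lit 13682)))) (.nd (.nd (.lf (nat_lit 13500)) (.lf (nat_lit 29138))) (.nd (.lf (nat_lit 7330)) (.lf (nat_lit 14154))))) (.nd (.nd (.nd (.lf (nat_lit 19932)) (.lf (nat_lit 15250))) (.nd (.lf (nat_lit 28354)) (.lf (nat_lit 6154)))) (.nd (.nd (.lf (nat_lit 60796)) (.lf (nat_lit 12466))) (.nd (.lf (nat_lit 19298)) (.lf (nat_lit 29354)))))) (.nd (.nd (.nd (.nd (.nd (.lf (nat_lit 64348)) (.lf (nat_lit 23530))) (.lf (nat_lit 24722)))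 (.nd (.lf (nat_lit 29570)) (.lf (nat_lit 28402)))) (.nd (.nd (.lf (nat_lit 59324)) (.lf (nat_lit 562))) (.nd (.lf (nat_lit 14242)) (.lf (nat_lit 52522))))) (.nd (.nd (.nd (.lf (nat_lit 8508)) (.lf (nat_lit 56658))) (.nd (.lf (nat_lit 12578)) (.lf (nat_lit 31370)))) (.nd (.nd (.lf (nat_lit 25084)) (.lf (nat_lit 56242))) (.nd (.lf (nat_lit 17890)) (.lf (nat_lit 61354))))))) (.nd (.nd (.nd (.nd (.nd (.nd (.lf (nat_lit 26972)) (.lf (nat_lit 7018))) (.lf (nat_lit 23826))) (.nd (.lf (nat_lit 15490)) (.lf (nat_lit 12146)))) (.nd (.nd (.lf (nat_lit 31164)) (.lf (nat_lit 60370))) (.nd (.lf (nat_lit 9634)) (.lf (nat_lit 2090))))) (.nd (.nd (.nd (.lf (nat_lit 57308)) (.lf (nat_lit 31314))) (.nd (.lf (nat_lit 4130)) (.lf (nat_lit 27914)))) (.nd (.nd (.lf (nat_lit 32636)) (.lf (nat_lit 18866))) (.nd (.lf (nat_lit 11490)) (.lf (nat_lit 54698)))))) (.nd (.nd (.nd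 (.nd (.nd (.lf (nat_lit 2780)) (.lf (nat_lit 922))) (.lf (nat_lit 45458))) (.nd (.lf (nat_lit 834)) (.lf (nat_lit 50162)))) (.nd (.nd (.lf (nat_lit 31356)) (.lf (nat_lit 52530))) (.nd (.lf (nat_lit 24930)) (.lf (nat_lit 48938))))) (.nd (.nd (.nd (.lf (nat_lit 45884)) (.lf (nat_lit 20690))) (.nd (.lf (nat_lit 11042)) (.lf (nat_lit 32650)))) (.nd (.nd (.lf (nat_lit 29692)) (.lf (nat_lit 4722))) (.nd (.lf (nat_lit 22498)) (.lf (nat_lit 64618)))))))) (.nd (.nd (.nd (.nd (.nd (.nd (.nd (.lf (nat_lit 9820)) (.lf (nat_lit 30058))) (.lf (nat_lit 43282))) (.nd (.lf (nat_lit 5890)) (.lf (nat_lit 62322)))) (.nd (.nd (.lf (nat_lit 11964)) (.lf (nat_lit 52690))) (.nd (.lf (nat_lit 32418)) (.lf (nat_lit 3786))))) (.nd (.nd (.nd (.lf (nat_lit 27612)) (.lf (nat_lit 12370))) (.nd (.lf (nat_lit 32194)) (.lf (nat_lit 9738)))) (.nd (.nd (.lf (nat_lit 56188)) (.lf (nat_lit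 6834))) (.nd (.lf (nat_lit 28514)) (.lf (nat_lit 426)))))) (.nd (.nd (.nd (.nd (.nd (.lf (nat_lit 4316)) (.lf (nat_lit 4122))) (.lf (nat_lit 29330))) (.nd (.lf (nat_lit 3138)) (.lf (nat_lit 63986)))) (.nd (.nd (.lf (nat_lit 26748)) (.lf (nat_lit 4402))) (.nd (.lf (nat_lit 29794)) (.lf (nat_lit 6954))))) (.nd (.nd (.nd (.lf (nat_lit 5436)) (.lf (nat_lit 1874))) (.nd (.lf (nat_lit 3362)) (.lf (nat_lit 3466)))) (.nd (.nd (.lf (nat_lit 54780)) (.lf (nat_lit 65458))) (.nd (.lf (nat_lit 41954)) (.lf (nat_lit 14442))))))) (.nd (.nd (.nd (.nd (.nd (.nd (.lf (nat_lit 56668)) (.lf (nat_lit 50154))) (.lf (nat_lit 31506))) (.nd (.lf (nat_lit 24962)) (.lf (nat_lit 29938)))) (.nd (.nd (.lf (nat_lit 50108)) (.lf (nat_lit 57298))) (.nd (.lf (nat_lit 58274)) (.lf (nat_lit 53546))))) (.nd (.nd (.nd (.lf (nat_lit 31804)) (.lf (nat_lit 26962))) (.nd (.lf (nat_lit 2594))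 (.lf (nat_lit 12426)))) (.nd (.nd (.lf (nat_lit 25340)) (.lf (nat_lit 28082))) (.nd (.lf (nat_lit 24290)) (.lf (nat_lit 52138)))))) (.nd (.nd (.nd (.nd (.lf (nat_lit 45532)) (.lf (nat_lit 11666))) (.nd (.lf (nat_lit 13506)) (.lf (nat_lit 59378)))) (.nd (.nd (.lf (nat_lit 51580)) (.lf (nat_lit 47922))) (.nd (.lf (nat_lit 46434)) (.lf (nat_lit 9386))))) (.nd (.nd (.nd (.lf (nat_lit 20284)) (.lf (nat_lit 10962))) (.nd (.lf (nat_lit 7970)) (.lf (nat_lit 15946)))) (.nd (.nd (.lf (nat_lit 53244)) (.lf (nat_lit 57714))) (.nd (.lf (nat_lit 22546)) (.lf (nat_lit 42602)))))))))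

def Ix31 : Tb ℕ := (.nd (.nd (.nd (.nd (.nd (.nd (.nd (.nd (.lf (nat_lit 31836)) (.lf (nat_lit 14698))) (.lf (nat_lit 49426))) (.nd (.lf (nat_lit 1282)) (.lf (nat_lit 48498)))) (.nd (.nd (.lf (nat_lit 2748)) (.lf (nat_lit 1490))) (.nd (.lf (nat_lit 15010)) (.lf (nat_lit 13514))))) (.nd (.nd (.nd (.lf (nat_lit 9180)) (.lf (nat_lit 20370))) (.nd (.lf (nat_lit 22978)) (.lf (nat_lit 15370)))) (.nd (.nd (.lf (nat_lit 4988)) (.lf (nat_lit 3250))) (.nd (.lf (nat_lit 10082)) (.lf (nat_lit 59050)))))) (.nd (.nd (.nd (.nd (.nd (.lf (nat_lit 20316)) (.lf (nat_lit 55274))) (.lf (nat_lit 21650))) (.nd (.lf (nat_lit 12162)) (.lf (nat_lit 45554)))) (.nd (.nd (.lf (nat_lit 40892)) (.lf (nat_lit 5682))) (.nd (.lf (nat_lit 32674)) (.lf (nat_lit 25386))))) (.nd (.nd (.nd (.lf (nat_lit 26940)) (.lf (nat_lit 29522))) (.nd (.lf (nat_lit 31010)) (.lf (nat_lit 24970))))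 (.nd (.nd (.lf (nat_lit 6652)) (.lf (nat_lit 47026))) (.nd (.lf (nat_lit 11746)) (.lf (nat_lit 20586))))))) (.nd (.nd (.nd (.nd (.nd (.nd (.lf (nat_lit 5468)) (.lf (nat_lit 5866))) (.lf (nat_lit 13074))) (.nd (.lf (nat_lit 1666)) (.lf (nat_lit 20722)))) (.nd (.nd (.lf (nat_lit 3516)) (.lf (nat_lit 22482))) (.nd (.lf (nat_lit 28066)) (.lf (nat_lit 14890))))) (.nd (.nd (.nd (.lf (nat_lit 22588)) (.lf (nat_lit 49490))) (.nd (.lf (nat_lit 13346)) (.lf (nat_lit 1802)))) (.nd (.nd (.lf (nat_lit 1276)) (.lf (nat_lit 9650))) (.nd (.lf (nat_lit 6882)) (.lf (nat_lit 938)))))) (.nd (.nd (.nd (.nd (.lf (nat_lit 28380)) (.lf (nat_lit 1426))) (.nd (.lf (nat_lit 24770)) (.lf (nat_lit 44018)))) (.nd (.nd (.lf (nat_lit 380)) (.lf (nat_lit 4914))) (.nd (.lf (nat_lit 22882)) (.lf (nat_lit 2218))))) (.nd (.nd (.nd (.lf (nat_lit 64316)) (.lf (nat_lit 29906))) (.nd (.lf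 (nat_lit 26402)) (.lf (nat_lit 15434)))) (.nd (.nd (.lf (nat_lit 2044)) (.lf (nat_lit 13938))) (.nd (.lf (nat_lit 57314)) (.lf (nat_lit 51818)))))))) (.nd (.nd (.nd (.nd (.nd (.nd (.nd (.lf (nat_lit 8540)) (.lf (nat_lit 64874))) (.lf (nat_lit 58642))) (.nd (.lf (nat_lit 6274)) (.lf (nat_lit 18290)))) (.nd (.nd (.lf (nat_lit 12732)) (.lf (nat_lit 41938))) (.nd (.lf (nat_lit 18850)) (.lf (nat_lit 970))))) (.nd (.nd (.nd (.lf (nat_lit 6108)) (.lf (nat_lit 27730))) (.nd (.lf (nat_lit 10178)) (.lf (nat_lit 12554)))) (.nd (.nd (.lf (nat_lit 46972)) (.lf (nat_lit 16050))) (.nd (.lf (nat_lit 28898)) (.lf (nat_lit 27050)))))) (.nd (.nd (.nd (.nd (.nd (.lf (nat_lit 13532)) (.lf (nat_lit 14874))) (.lf (nat_lit 11922))) (.nd (.lf (nat_lit 7746)) (.lf (nat_lit 19954)))) (.nd (.nd (.lf (nat_lit 23676)) (.lf (nat_lit 31026))) (.nd (.lf (nat_lit 31330)) (.lf (nat_lit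 55082))))) (.nd (.nd (.nd (.lf (nat_lit 56636)) (.lf (nat_lit 53074))) (.nd (.lf (nat_lit 17186)) (.lf (nat_lit 7050)))) (.nd (.nd (.lf (nat_lit 15868)) (.lf (nat_lit 9330))) (.nd (.lf (nat_lit 60386)) (.lf (nat_lit 29802))))))) (.nd (.nd (.nd (.nd (.nd (.nd (.lf (nat_lit 45916)) (.lf (nat_lit 29674))) (.lf (nat_lit 3858))) (.nd (.lf (nat_lit 21890)) (.lf (nat_lit 10994)))) (.nd (.nd (.lf (nat_lit 43964)) (.lf (nat_lit 14386))) (.nd (.lf (nat_lit 23458)) (.lf (nat_lit 63786))))) (.nd (.nd (.nd (.lf (nat_lit 9788)) (.lf (nat_lit 5458))) (.nd (.lf (nat_lit 11810)) (.lf (nat_lit 27786)))) (.nd (.nd (.lf (nat_lit 22268)) (.lf (nat_lit 5042))) (.nd (.lf (nat_lit 61922)) (.lf (nat_lit 42922)))))) (.nd (.nd (.nd (.nd (.lf (nat_lit 63964)) (.lf (nat_lit 58258))) (.nd (.lf (nat_lit 2754)) (.lf (nat_lit 40946)))) (.nd (.nd (.lf (nat_lit 42364)) (.lf (nat_lit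 20274))) (.nd (.lf (nat_lit 64866)) (.lf (nat_lit 60586))))) (.nd (.nd (.nd (.lf (nat_lit 4284)) (.lf (nat_lit 7890))) (.nd (.lf (nat_lit 10402)) (.lf (nat_lit 11594)))) (.nd (.nd (.lf (nat_lit 2050)) (.lf (nat_lit 22898))) (.nd (.lf (nat_lit 31762)) (.lf (nat_lit 61034)))))))))

def Ix32 : Tb ℕ := (.nd (.nd (.nd (.nd (.nd (.nd (.nd (.nd (.lf (nat_lit 2140)) (.lf (nat_lit 41322))) (.lf (nat_lit 23058))) (.nd (.lf (nat_lit 4610)) (.lf (nat_lit 58738)))) (.nd (.nd (.lf (nat_lit 9404)) (.lf (nat_lit 20946))) (.nd (.lf (nat_lit 29858)) (.lf (nat_lit 31562))))) (.nd (.nd (.nd (.lf (nat_lit 46556)) (.lf (nat_lit 60306))) (.nd (.lf (nat_lit 14018)) (.lf (nat_lit 28682)))) (.nd (.nd (.lf (nat_lit 52604)) (.lf (nat_lit 178))) (.nd (.lf (nat_lit 45922)) (.lf (nat_lit 58026)))))) (.nd (.nd (.nd (.nd (.nd (.lf (nat_lit 56156)) (.lf (nat_lit 60394))) (.lf (nat_lit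 32530))) (.nd (.lf (nat_lit 25474)) (.lf (nat_lit 30450)))) (.nd (.nd (.lf (nat_lit 51132)) (.lf (nat_lit 7218))) (.nd (.lf (nat_lit 59298)) (.lf (nat_lit 29994))))) (.nd (.nd (.nd (.lf (nat_lit 32316)) (.lf (nat_lit 27986))) (.nd (.lf (nat_lit 57634)) (.lf (nat_lit 10890)))) (.nd (.nd (.lf (nat_lit 16892)) (.lf (nat_lit 27570))) (.nd (.lf (nat_lit 47586)) (.lf (nat_lit 53162))))))) (.nd (.nd (.nd (.nd (.nd (.nd (.lf (nat_lit 18780)) (.lf (nat_lit 19306))) (.lf (nat_lit 44306))) (.nd (.lf (nat_lit 11394)) (.lf (nat_lit 63346)))) (.nd (.nd (.lf (nat_lit 22972)) (.lf (nat_lit 52178))) (.nd (.lf (nat_lit 63906)) (.lf (nat_lit 16330))))) (.nd (.nd (.nd (.lf (nat_lit 28636)) (.lf (nat_lit 10834))) (.nd (.lf (nat_lit 32706)) (.lf (nat_lit 13578)))) (.nd (.nd (.lf (nat_lit 24444)) (.lf (nat_lit 45490))) (.nd (.lf (nat_lit 21730)) (.lf (nat_lit 26026))))))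 (.nd (.nd (.nd (.nd (.nd (.lf (nat_lit 4828)) (.lf (nat_lit 666))) (.lf (nat_lit 4498))) (.nd (.lf (nat_lit 3394)) (.lf (nat_lit 32242)))) (.nd (.nd (.lf (nat_lit 27260)) (.lf (nat_lit 30002))) (.nd (.lf (nat_lit 354)) (.lf (nat_lit 7978))))) (.nd (.nd (.nd (.lf (nat_lit 4924)) (.lf (nat_lit 210))) (.nd (.lf (nat_lit 62242)) (.lf (nat_lit 28554)))) (.nd (.nd (.lf (nat_lit 21500)) (.lf (nat_lit 31858))) (.nd (.lf (nat_lit 42978)) (.lf (nat_lit 56426)))))))) (.nd (.nd (.nd (.nd (.nd (.nd (.nd (.lf (nat_lit 23132)) (.lf (nat_lit 21866))) (.lf (nat_lit 2322))) (.nd (.lf (nat_lit 6914)) (.lf (nat_lit 54130)))) (.nd (.nd (.lf (nat_lit 14012)) (.lf (nat_lit 30162))) (.nd (.lf (nat_lit 28322)) (.lf (nat_lit 1738))))) (.nd (.nd (.nd (.lf (nat_lit 19420)) (.lf (nat_lit 82))) (.nd (.lf (nat_lit 28098)) (.lf (nat_lit 23050)))) (.nd (.nd (.lf (nat_lit 27516))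 (.lf (nat_lit 29362))) (.nd (.lf (nat_lit 20322)) (.lf (nat_lit 24234)))))) (.nd (.nd (.nd (.nd (.nd (.lf (nat_lit 65372)) (.lf (nat_lit 16362))) (.lf (nat_lit 25234))) (.nd (.lf (nat_lit 14402)) (.lf (nat_lit 55794)))) (.nd (.nd (.lf (nat_lit 12412)) (.lf (nat_lit 16690))) (.nd (.lf (nat_lit 1122)) (.lf (nat_lit 11050))))) (.nd (.nd (.nd (.lf (nat_lit 9532)) (.lf (nat_lit 15186))) (.nd (.lf (nat_lit 13602)) (.lf (nat_lit 25994)))) (.nd (.nd (.lf (nat_lit 26108)) (.lf (nat_lit 57266))) (.nd (.lf (nat_lit 994)) (.lf (nat_lit 59498))))))) (.nd (.nd (.nd (.nd (.nd (.nd (.lf (nat_lit 27996)) (.lf (nat_lit 15850))) (.lf (nat_lit 23314))) (.nd (.lf (nat_lit 16002)) (.lf (nat_lit 25842)))) (.nd (.nd (.lf (nat_lit 32188)) (.lf (nat_lit 61394))) (.nd (.lf (nat_lit 50082)) (.lf (nat_lit 24874))))) (.nd (.nd (.nd (.lf (nat_lit 27708)) (.lf (nat_lit 18770)))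 (.nd (.lf (nat_lit 4642)) (.lf (nat_lit 138)))) (.nd (.nd (.lf (nat_lit 15612)) (.lf (nat_lit 19890))) (.nd (.lf (nat_lit 20194)) (.lf (nat_lit 29610)))))) (.nd (.nd (.nd (.nd (.lf (nat_lit 4572)) (.lf (nat_lit 62866))) (.nd (.lf (nat_lit 9410)) (.lf (nat_lit 51186)))) (.nd (.nd (.lf (nat_lit 29052)) (.lf (nat_lit 6962))) (.nd (.lf (nat_lit 5474)) (.lf (nat_lit 63658))))) (.nd (.nd (.nd (.lf (nat_lit 46908)) (.lf (nat_lit 21202))) (.nd (.lf (nat_lit 12066)) (.lf (nat_lit 13898)))) (.nd (.nd (.lf (nat_lit 30716)) (.lf (nat_lit 49522))) (.nd (.lf (nat_lit 2066)) (.lf (nat_lit 1642)))))))))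

def Ix33 : Tb ℕ := (.nd (.nd (.nd (.nd (.nd (.nd (.nd (.nd (.lf (nat_lit 27740)) (.lf (nat_lit 59754))) (.lf (nat_lit 15890))) (.nd (.lf (nat_lit 2306)) (.lf (nat_lit 40306)))) (.nd (.nd (.lf (nat_lit 4796)) (.lf (nat_lit 14802))) (.nd (.lf (nat_lit 10914)) (.lf (nat_lit 14538))))) (.nd (.nd (.nd (.lf (nat_lit 64988)) (.lf (nat_lit 14226))) (.nd (.lf (nat_lit 2498)) (.lf (nat_lit 11274)))) (.nd (.nd (.lf (nat_lit 9084)) (.lf (nat_lit 5298))) (.nd (.lf (nat_lit 64354)) (.lf (nat_lit 1706)))))) (.nd (.nd (.nd (.nd (.nd (.lf (nat_lit 46940)) (.lf (nat_lit 26602))) (.lf (nat_lit 1170))) (.nd (.lf (nat_lit 22402)) (.lf (nat_lit 4594)))) (.nd (.nd (.lf (nat_lit 44988)) (.lf (nat_lit 31282))) (.nd (.lf (nat_lit 24482)) (.lf (nat_lit 17194))))) (.nd (.nd (.nd (.lf (nat_lit 18748)) (.lf (nat_lit 21330))) (.nd (.lf (nat_lit 22818)) (.lf (nat_lit 16010))))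 (.nd (.nd (.lf (nat_lit 10748)) (.lf (nat_lit 6066))) (.nd (.lf (nat_lit 62946)) (.lf (nat_lit 41066))))))) (.nd (.nd (.nd (.nd (.nd (.nd (.lf (nat_lit 9564)) (.lf (nat_lit 746))) (.lf (nat_lit 58130))) (.nd (.lf (nat_lit 6786)) (.lf (nat_lit 242)))) (.nd (.nd (.lf (nat_lit 13756)) (.lf (nat_lit 42962))) (.nd (.lf (nat_lit 19874)) (.lf (nat_lit 12842))))) (.nd (.nd (.nd (.lf (nat_lit 2108)) (.lf (nat_lit 15954))) (.nd (.lf (nat_lit 9250)) (.lf (nat_lit 27402)))) (.nd (.nd (.lf (nat_lit 6396)) (.lf (nat_lit 63922))) (.nd (.lf (nat_lit 29410)) (.lf (nat_lit 56746)))))) (.nd (.nd (.nd (.nd (.lf (nat_lit 14044)) (.lf (nat_lit 14738))) (.nd (.lf (nat_lit 8002)) (.lf (nat_lit 3058)))) (.nd (.nd (.lf (nat_lit 7804)) (.lf (nat_lit 49970))) (.nd (.lf (nat_lit 10594)) (.lf (nat_lit 12458))))) (.nd (.nd (.nd (.lf (nat_lit 56124)) (.lf (nat_lit 25810))) (.nd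 (.lf (nat_lit 18210)) (.lf (nat_lit 13386)))) (.nd (.nd (.lf (nat_lit 15356)) (.lf (nat_lit 9842))) (.nd (.lf (nat_lit 61410)) (.lf (nat_lit 29290)))))))) (.nd (.nd (.nd (.nd (.nd (.nd (.nd (.lf (nat_lit 32348)) (.lf (nat_lit 56682))) (.lf (nat_lit 50450))) (.nd (.lf (nat_lit 28802)) (.lf (nat_lit 47986)))) (.nd (.nd (.lf (nat_lit 57788)) (.lf (nat_lit 978))) (.nd (.lf (nat_lit 45474)) (.lf (nat_lit 13770))))) (.nd (.nd (.nd (.lf (nat_lit 10204)) (.lf (nat_lit 13394))) (.nd (.lf (nat_lit 23490)) (.lf (nat_lit 32266)))) (.nd (.nd (.lf (nat_lit 6012)) (.lf (nat_lit 11954))) (.nd (.lf (nat_lit 24802)) (.lf (nat_lit 2474)))))) (.nd (.nd (.nd (.nd (.nd (.lf (nat_lit 9436)) (.lf (nat_lit 4634))) (.lf (nat_lit 22162))) (.nd (.lf (nat_lit 5698)) (.lf (nat_lit 46578)))) (.nd (.nd (.lf (nat_lit 3196)) (.lf (nat_lit 6450))) (.nd (.lf (nat_lit 2658)) (.lf (nat_lit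 26410))))) (.nd (.nd (.nd (.lf (nat_lit 27964)) (.lf (nat_lit 30546))) (.nd (.lf (nat_lit 48418)) (.lf (nat_lit 29578)))) (.nd (.nd (.lf (nat_lit 7676)) (.lf (nat_lit 22642))) (.nd (.lf (nat_lit 52194)) (.lf (nat_lit 21610))))))) (.nd (.nd (.nd (.nd (.nd (.nd (.lf (nat_lit 4956)) (.lf (nat_lit 0x1d3ea))) (.lf (nat_lit 14098))) (.nd (.lf (nat_lit 1410)) (.lf (nat_lit 21234)))) (.nd (.nd (.lf (nat_lit 3004)) (.lf (nat_lit 10290))) (.nd (.lf (nat_lit 43938)) (.lf (nat_lit 55594))))) (.nd (.nd (.nd (.lf (nat_lit 23100)) (.lf (nat_lit 9554))) (.nd (.lf (nat_lit 13858)) (.lf (nat_lit 13450)))) (.nd (.nd (.lf (nat_lit 1788)) (.lf (nat_lit 9138))) (.nd (.lf (nat_lit 53730)) (.lf (nat_lit 1962)))))) (.nd (.nd (.nd (.nd (.lf (nat_lit 55772)) (.lf (nat_lit 17298))) (.nd (.lf (nat_lit 4802)) (.lf (nat_lit 45042)))) (.nd (.nd (.lf (nat_lit 1404)) (.lf (nat_lit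 14130))) (.nd (.lf (nat_lit 56674)) (.lf (nat_lit 52394))))) (.nd (.nd (.nd (.lf (nat_lit 65340)) (.lf (nat_lit 30418))) (.nd (.lf (nat_lit 20642)) (.lf (nat_lit 9546)))) (.nd (.nd (.lf (nat_lit 65532)) (.lf (nat_lit 43378))) (.nd (.lf (nat_lit 27666)) (.lf (nat_lit 52842)))))))))

def Ix34 : Tb ℕ := (.nd (.nd (.nd (.nd (.nd (.nd (.nd (.nd (.lf (nat_lit 9308)) (.lf (nat_lit 29034))) (.lf (nat_lit 13842))) (.nd (.lf (nat_lit 13826)) (.lf (nat_lit 3442)))) (.nd (.nd (.lf (nat_lit 27836)) (.lf (nat_lit 51666))) (.nd (.lf (nat_lit 674)) (.lf (nat_lit 16202))))) (.nd (.nd (.nd (.lf (nat_lit 28124)) (.lf (nat_lit 18322))) (.nd (.lf (nat_lit 32450)) (.lf (nat_lit 1034)))) (.nd (.nd (.lf (nat_lit 56700)) (.lf (nat_lit 26802))) (.nd (.lf (nat_lit 27490)) (.lf (nat_lit 10922)))))) (.nd (.nd (.nd (.nd (.nd (.lf (nat_lit 10076)) (.lf (nat_lit 48106))) (.lf (nat_lit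 28818))) (.nd (.lf (nat_lit 7042)) (.lf (nat_lit 32498)))) (.nd (.nd (.lf (nat_lit 14268)) (.lf (nat_lit 12850))) (.nd (.lf (nat_lit 4002)) (.lf (nat_lit 7466))))) (.nd (.nd (.nd (.lf (nat_lit 4412)) (.lf (nat_lit 64850))) (.nd (.lf (nat_lit 2338)) (.lf (nat_lit 5770)))) (.nd (.nd (.lf (nat_lit 53756)) (.lf (nat_lit 64434))) (.nd (.lf (nat_lit 26082)) (.lf (nat_lit 16298))))))) (.nd (.nd (.nd (.nd (.nd (.nd (.lf (nat_lit 55644)) (.lf (nat_lit 31594))) (.lf (nat_lit 32018))) (.nd (.lf (nat_lit 25218)) (.lf (nat_lit 8050)))) (.nd (.nd (.lf (nat_lit 50620)) (.lf (nat_lit 15314))) (.nd (.lf (nat_lit 5538)) (.lf (nat_lit 5162))))) (.nd (.nd (.nd (.lf (nat_lit 65500)) (.lf (nat_lit 5714))) (.nd (.lf (nat_lit 2082)) (.lf (nat_lit 778)))) (.nd (.nd (.lf (nat_lit 24828)) (.lf (nat_lit 27058))) (.nd (.lf (nat_lit 15586)) (.lf (nat_lit 3498)))))) (.nd (.nd (.nd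 (.nd (.lf (nat_lit 23260)) (.lf (nat_lit 18834))) (.nd (.lf (nat_lit 11074)) (.lf (nat_lit 58354)))) (.nd (.nd (.lf (nat_lit 5756)) (.lf (nat_lit 7474))) (.nd (.lf (nat_lit 53602)) (.lf (nat_lit 16554))))) (.nd (.nd (.nd (.lf (nat_lit 19260)) (.lf (nat_lit 10450))) (.nd (.lf (nat_lit 6946)) (.lf (nat_lit 12362)))) (.nd (.nd (.lf (nat_lit 52220)) (.lf (nat_lit 2674))) (.nd (.lf (nat_lit 30690)) (.lf (nat_lit 8810)))))))) (.nd (.nd (.nd (.nd (.nd (.nd (.nd (.lf (nat_lit 13916)) (.lf (nat_lit 52586))) (.lf (nat_lit 22802))) (.nd (.lf (nat_lit 7938)) (.lf (nat_lit 11122)))) (.nd (.nd (.lf (nat_lit 16060)) (.lf (nat_lit 60882))) (.nd (.lf (nat_lit 8610)) (.lf (nat_lit 458))))) (.nd (.nd (.nd (.lf (nat_lit 56284)) (.lf (nat_lit 26706))) (.nd (.lf (nat_lit 5058)) (.lf (nat_lit 13834)))) (.nd (.nd (.lf (nat_lit 64380)) (.lf (nat_lit 1714))) (.nd (.lf (nat_lit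 24418)) (.lf (nat_lit 25002)))))) (.nd (.nd (.nd (.nd (.nd (.lf (nat_lit 2268)) (.lf (nat_lit 14362))) (.lf (nat_lit 6802))) (.nd (.lf (nat_lit 578)) (.lf (nat_lit 9714)))) (.nd (.nd (.lf (nat_lit 30844)) (.lf (nat_lit 28978))) (.nd (.lf (nat_lit 7266)) (.lf (nat_lit 47914))))) (.nd (.nd (.nd (.lf (nat_lit 46396)) (.lf (nat_lit 42834))) (.nd (.lf (nat_lit 44322)) (.lf (nat_lit 23946)))) (.nd (.nd (.lf (nat_lit 62972)) (.lf (nat_lit 4210))) (.nd (.lf (nat_lit 21474)) (.lf (nat_lit 1130))))))) (.nd (.nd (.nd (.nd (.nd (.nd (.lf (nat_lit 64860)) (.lf (nat_lit 0x1a3ea))) (.lf (nat_lit 50962))) (.nd (.lf (nat_lit 29058)) (.lf (nat_lit 7410)))) (.nd (.nd (.lf (nat_lit 58300)) (.lf (nat_lit 65490))) (.nd (.lf (nat_lit 13218)) (.lf (nat_lit 2346))))) (.nd (.nd (.nd (.lf (nat_lit 4668)) (.lf (nat_lit 55634))) (.nd (.lf (nat_lit 23074)) (.lf (nat_lit 26762))))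 (.nd (.nd (.lf (nat_lit 29436)) (.lf (nat_lit 56754))) (.nd (.lf (nat_lit 16866)) (.lf (nat_lit 60330)))))) (.nd (.nd (.nd (.nd (.lf (nat_lit 18908)) (.lf (nat_lit 7570))) (.nd (.lf (nat_lit 27842)) (.lf (nat_lit 14322)))) (.nd (.nd (.lf (nat_lit 59772)) (.lf (nat_lit 18226))) (.nd (.lf (nat_lit 19810)) (.lf (nat_lit 21674))))) (.nd (.nd (.nd (.lf (nat_lit 28476)) (.lf (nat_lit 15058))) (.nd (.lf (nat_lit 16162)) (.lf (nat_lit 4426)))) (.nd (.nd (.lf (nat_lit 61436)) (.lf (nat_lit 12658))) (.nd (.lf (nat_lit 9234)) (.lf (nat_lit 22122)))))))))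

def Ix35 : Tb ℕ := (.nd (.nd (.nd (.nd (.nd (.nd (.nd (.nd (.lf (nat_lit 4700)) (.lf (nat_lit 1386))) (.lf (nat_lit 57618))) (.nd (.lf (nat_lit 11522)) (.lf (nat_lit 17266)))) (.nd (.nd (.lf (nat_lit 23228)) (.lf (nat_lit 42450))) (.nd (.lf (nat_lit 26274)) (.lf (nat_lit 15562))))) (.nd (.nd (.nd (.lf (nat_lit 5084)) (.lf (nat_lit 61330))) (.nd (.lf (nat_lit 9666)) (.lf (nat_lit 25098)))) (.nd (.nd (.lf (nat_lit 45948)) (.lf (nat_lit 23730))) (.nd (.lf (nat_lit 5986)) (.lf (nat_lit 30378)))))) (.nd (.nd (.nd (.nd (.nd (.lf (nat_lit 28508)) (.lf (nat_lit 4074))) (.lf (nat_lit 11410))) (.nd (.lf (nat_lit 16258)) (.lf (nat_lit 18930)))) (.nd (.nd (.lf (nat_lit 49084)) (.lf (nat_lit 3634))) (.nd (.lf (nat_lit 4194)) (.lf (nat_lit 54058))))) (.nd (.nd (.nd (.lf (nat_lit 55612)) (.lf (nat_lit 52050))) (.nd (.lf (nat_lit 50466)) (.lf (nat_lit 2442)))) (.nd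 (.nd (.lf (nat_lit 47612)) (.lf (nat_lit 20402))) (.nd (.lf (nat_lit 7650)) (.lf (nat_lit 28778))))))) (.nd (.nd (.nd (.nd (.nd (.nd (.lf (nat_lit 46428)) (.lf (nat_lit 4586))) (.lf (nat_lit 2834))) (.nd (.lf (nat_lit 22146)) (.lf (nat_lit 10482)))) (.nd (.nd (.lf (nat_lit 44476)) (.lf (nat_lit 30674))) (.nd (.lf (nat_lit 23970)) (.lf (nat_lit 3626))))) (.nd (.nd (.nd (.lf (nat_lit 9276)) (.lf (nat_lit 4434))) (.nd (.lf (nat_lit 27682)) (.lf (nat_lit 14090)))) (.nd (.nd (.lf (nat_lit 21756)) (.lf (nat_lit 5554))) (.nd (.lf (nat_lit 1762)) (.lf (nat_lit 41898)))))) (.nd (.nd (.nd (.nd (.lf (nat_lit 32476)) (.lf (nat_lit 26002))) (.nd (.lf (nat_lit 2242)) (.lf (nat_lit 23538)))) (.nd (.nd (.lf (nat_lit 41340)) (.lf (nat_lit 29490))) (.nd (.lf (nat_lit 31074)) (.lf (nat_lit 26794))))) (.nd (.nd (.nd (.lf (nat_lit 10044)) (.lf (nat_lit 7378))) (.nd (.lf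 (nat_lit 55074)) (.lf (nat_lit 12874)))) (.nd (.nd (.lf (nat_lit 43004)) (.lf (nat_lit 11890))) (.nd (.lf (nat_lit 65506)) (.lf (nat_lit 60010)))))))) (.nd (.nd (.nd (.nd (.nd (.nd (.nd (.lf (nat_lit 4444)) (.lf (nat_lit 25450))) (.lf (nat_lit 13586))) (.nd (.lf (nat_lit 1154)) (.lf (nat_lit 26482)))) (.nd (.nd (.lf (nat_lit 2492)) (.lf (nat_lit 21458))) (.nd (.lf (nat_lit 27042)) (.lf (nat_lit 7114))))) (.nd (.nd (.nd (.lf (nat_lit 47068)) (.lf (nat_lit 31826))) (.nd (.lf (nat_lit 14274)) (.lf (nat_lit 26890)))) (.nd (.nd (.lf (nat_lit 20348)) (.lf (nat_lit 49586))) (.nd (.lf (nat_lit 6370)) (.lf (nat_lit 55722)))))) (.nd (.nd (.nd (.nd (.nd (.lf (nat_lit 27868)) (.lf (nat_lit 3610))) (.lf (nat_lit 16018))) (.nd (.lf (nat_lit 12610)) (.lf (nat_lit 28146)))) (.nd (.nd (.lf (nat_lit 8828)) (.lf (nat_lit 50482))) (.nd (.lf (nat_lit 13922)) (.lf (nat_lit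 63274))))) (.nd (.nd (.nd (.lf (nat_lit 64828)) (.lf (nat_lit 61266))) (.nd (.lf (nat_lit 25378)) (.lf (nat_lit 1930)))) (.nd (.nd (.lf (nat_lit 1020)) (.lf (nat_lit 13426))) (.nd (.lf (nat_lit 15330)) (.lf (nat_lit 52330))))))) (.nd (.nd (.nd (.nd (.nd (.nd (.lf (nat_lit 19292)) (.lf (nat_lit 35818))) (.lf (nat_lit 44818))) (.nd (.lf (nat_lit 11650)) (.lf (nat_lit 15090)))) (.nd (.nd (.lf (nat_lit 23484)) (.lf (nat_lit 25650))) (.nd (.lf (nat_lit 31650)) (.lf (nat_lit 9514))))) (.nd (.nd (.nd (.lf (nat_lit 13884)) (.lf (nat_lit 46418))) (.nd (.lf (nat_lit 15906)) (.lf (nat_lit 31882)))) (.nd (.nd (.lf (nat_lit 20220)) (.lf (nat_lit 46002))) (.nd (.lf (nat_lit 10722)) (.lf (nat_lit 22442)))))) (.nd (.nd (.nd (.nd (.lf (nat_lit 9692)) (.lf (nat_lit 13202))) (.nd (.lf (nat_lit 23234)) (.lf (nat_lit 49138)))) (.nd (.nd (.lf (nat_lit 21884)) (.lf (nat_lit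 61234))) (.nd (.lf (nat_lit 9058)) (.lf (nat_lit 15530))))) (.nd (.nd (.nd (.lf (nat_lit 2236)) (.lf (nat_lit 466))) (.nd (.lf (nat_lit 14498)) (.lf (nat_lit 842)))) (.nd (.nd (.lf (nat_lit 1026)) (.lf (nat_lit 31090))) (.nd (.lf (nat_lit 4626)) (.lf (nat_lit 15978)))))))))

def Ix36 : Tb ℕ := (.nd (.nd (.nd (.nd (.nd (.lf (nat_lit 90)) (.lf (nat_lit 1742))) (.lf (nat_lit 5686))) (.nd (.lf (nat_lit 10330)) (.lf (nat_lit 47)))) (.nd (.nd (.nd (.lf (nat_lit 12378)) (.lf (nat_lit 974))) (.lf (nat_lit 13878))) (.nd (.lf (nat_lit 15)) (.lf (nat_lit 63))))) (.nd (.nd (.nd (.nd (.lf (nat_lit 4186)) (.lf (nat_lit 462))) (.lf (nat_lit 22070))) (.nd (.lf (nat_lit 119)) (.lf (nat_lit 31)))) (.nd (.nd (.nd (.lf (nat_lit 2138)) (.lf (nat_lit 1998))) (.lf (nat_lit 30262))) (.nd (.lf (nat_lit 26166)) (.lf (nat_lit 718))))))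

def Ix : Tb ℕ := (.nd (.nd (.nd Ix0 Ix1) (.nd Ix2 Ix3)) (.nd (.nd (.nd (.nd (.nd (.nd Ix4 Ix5) (.nd Ix6 Ix7)) (.nd (.nd Ix8 Ix9) (.nd Ix10 Ix11))) (.nd (.nd (.nd Ix12 Ix13) (.nd Ix14 Ix15)) (.nd (.nd Ix16 Ix17) (.nd Ix18 Ix19)))) (.nd (.nd (.nd (.nd Ix20 Ix21) (.nd Ix22 Ix23)) (.nd (.nd Ix24 Ix25) (.nd Ix26 Ix27))) (.nd (.nd (.nd Ix28 Ix29) (.nd Ix30 Ix31)) (.nd (.nd Ix32 Ix33) (.nd Ix34 Ix35))))) Ix36))

theorem link : lnk X2 (.nd G6 (.nd G7 GW)) Ix = true := by decide +kernel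

theorem roots (h : LeafS lfB) : Tb.All (fun hd => RefH hd 0 top) (.nd G6 (.nd G7 GW)) :=
  lnk_sound (X2a h) _ _ link

end Pool.Agent.Lib.MP_f3b2fd_co.KD
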